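import Pool.Agent.Lib.MP_9cc147_pr.Cx.Pe.Defs

/-! Basic facts on edges, tiles, forms and clusters. -/

open scoped Classical
open Finset

noncomputable section
namespace Pool.Agent.Lib.MP_9cc147_pr.Cx.Pe

variable {R : ℕ}

theorem dir_add_two (d : Fin 4) : dir (d + 2) = -dir d := by
  fin_cases d <;> simp [dir] <;> rfl

theorem rev_rev (e : Ed) : rev (rev e) = e := by
  obtain ⟨x, d⟩ := e
  simp only [rev, dir_add_two]
  refine Prod.ext (by simp) ?_
  fin_cases d <;> rfl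

theorem mem_box {n : ℕ} {x : P} : x ∈ box n ↔ (0 ≤ x.1 ∧ x.1 < n) ∧ 0 ≤ x.2 ∧ x.2 < n := by
  simp [box, mem_product]

theorem mem_hes {n : ℕ} {e : Ed} : e ∈ hes n ↔ e.1 ∈ box n ∧ (rev e).1 ∈ box n := by
  simp [hes, rev]

theorem rev_mem {n : ℕ} {e : Ed} (h : e ∈ hes n) : rev e ∈ hes n := by
  rw [mem_hes] at h ⊢
  rw [rev_rev]
  exact h.symm

theorem div_eq_iff' {L : ℕ} (hL : 1 ≤ L) {a b : ℤ} :
    a / (L : ℤ) = b ↔ b * L ≤ a ∧ a < (b + 1) * L := by
  have h : (0 : ℤ) < L := by exact_mod_cast hL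
  constructor
  · rintro rfl
    exact ⟨Int.ediv_mul_le a h.ne', Int.lt_ediv_add_one_mul_self a h⟩
  · rintro ⟨h1, h2⟩
    have := (Int.le_ediv_iff_mul_le h).2 h1
    have := (Int.ediv_lt_iff_lt_mul h).2 h2
    omega

theorem mem_cell {L : ℕ} (hL : 1 ≤ L) {T x : P} : x ∈ cell L T ↔ par L x = T := by
  simp only [cell, mem_product, mem_Ico, par, Prod.ext_iff, div_eq_iff' hL]

theorem mem_under {L : ℕ} (hL : 1 ≤ L) {X : Finset P} {x : P} :
    x ∈ under L X ↔ par L x ∈ X := by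
  simp only [under, mem_biUnion, mem_cell hL]
  exact ⟨fun ⟨_, h, e⟩ => e ▸ h, fun h => ⟨_, h, rfl⟩⟩

theorem par_box {L m : ℕ} (hL : 1 ≤ L) {x : P} : x ∈ box (L * m) ↔ par L x ∈ box m := by
  have h : (0 : ℤ) < L := by exact_mod_cast hL
  simp only [mem_box, par, Int.ediv_lt_iff_lt_mul h, Int.le_ediv_iff_mul_le h, zero_mul,
    Nat.cast_mul, mul_comm (L : ℤ)]

theorem card_cell (L : ℕ) (T : P) : (cell L T).card = L ^ 2 := by
  have h : ∀ b : ℤ, ((b + 1) * L - b * L).toNat = L := fun b => by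
    rw [show (b + 1) * (L : ℤ) - b * L = L by ring]; simp
  simp [cell, card_product, h, sq]

theorem card_under {L : ℕ} (hL : 1 ≤ L) (X : Finset P) :
    (under L X).card = L ^ 2 * X.card := by
  rw [under, card_biUnion]
  · simp [card_cell, mul_comm]
  · intro a _ b _ hab
    refine disjoint_left.2 fun x h1 h2 => hab ?_
    rw [← (mem_cell hL).1 h1, ← (mem_cell hL).1 h2]

theorem card_out (n : ℕ) (S : Finset P) : ((hes n).filter fun e => e.1 ∈ S).card ≤ 4 * S.card := by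
  refine le_trans (card_le_card (t := S ×ˢ (univ : Finset (Fin 4))) ?_) (by simp [mul_comm])
  intro e he
  simp [mem_product, (mem_filter.1 he).2]

theorem card_he {L : ℕ} (hL : 1 ≤ L) (n : ℕ) (X : Finset P) :
    (he n (under L X)).card ≤ 8 * L ^ 2 * X.card := by
  have h1 := card_out n (under L X)
  have h2 : he n (under L X) ⊆ ((hes n).filter fun e => e.1 ∈ under L X) ∪
      ((hes n).filter fun e => e.1 ∈ under L X).image rev := by
    intro e he
    obtain ⟨h, h' | h'⟩ := mem_filter.1 he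
    · exact mem_union_left _ (mem_filter.2 ⟨h, h'⟩)
    · exact mem_union_right _ (mem_image.2 ⟨rev e, mem_filter.2 ⟨rev_mem h, h'⟩, rev_rev e⟩)
  have h3 := (card_le_card h2).trans (card_union_le _ _)
  have h4 := card_image_le (s := (hes n).filter fun e => e.1 ∈ under L X) (f := rev)
  rw [card_under hL] at h1
  nlinarith

theorem sol_under {L m : ℕ} (hL : 2 ≤ L) (X : Finset P) : Sol (L * m) (under L X) := by
  intro x hx hS
  have hL1 : 1 ≤ L := by omega
  have hL2 : (2 : ℤ) ≤ L := by exact_mod_cast hL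
  have key : ∀ d, par L (x + dir d) = par L x →
      (x, d) ∈ hes (L * m) ∧ x + dir d ∉ under L X := fun d h =>
    ⟨mem_hes.2 ⟨hx, (par_box hL1).2 (by
      show par L (x + dir d) ∈ box m
      rw [h]; exact (par_box hL1).1 hx)⟩, fun h' => hS ((mem_under hL1).2 (by
        rw [← h]; exact (mem_under hL1).1 h'))⟩
  have h1 := (div_eq_iff' hL1 (a := x.1)).1 rfl
  have h2 := (div_eq_iff' hL1 (a := x.2)).1 rfl
  have ha : par L (x + dir 0) = par L x ∨ par L (x + dir 2) = par L x := by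
    by_cases h : x.1 + 1 < (x.1 / L + 1) * L
    · left
      simp only [par, dir, Prod.ext_iff, div_eq_iff' hL1]
      simp
      refine ⟨⟨by omega, h⟩, h2⟩
    · right
      simp only [par, dir, Prod.ext_iff, div_eq_iff' hL1]
      simp
      refine ⟨⟨by nlinarith [h1.1, h1.2], by omega⟩, h2⟩
  have hb : par L (x + dir 1) = par L x ∨ par L (x + dir 3) = par L x := by
    by_cases h : x.2 + 1 < (x.2 / L + 1) * L
    · left
      simp only [par, dir, Prod.ext_iff, div_eq_iff' hL1]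
      simp
      refine ⟨h1, by omega, h⟩
    · right
      simp only [par, dir, Prod.ext_iff, div_eq_iff' hL1]
      simp
      refine ⟨h1, by nlinarith [h2.1, h2.2], by omega⟩
  rcases ha with ha | ha <;> rcases hb with hb | hb <;>
    exact ⟨_, _, by decide, (key _ ha).1, (key _ hb).1, (key _ ha).2, (key _ hb).2⟩

theorem mu_pos (i : Fin (ng R)) : 1 ≤ mu R i := by
  unfold mu; split_ifs <;> omega

theorem nrm_eq_zero {w : Gp R} : nrm w = 0 ↔ w = 0 := by
  rw [nrm, sum_eq_zero_iff]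
  constructor
  · intro h
    funext i
    have := h i (mem_univ _)
    have h2 := mu_pos (R := R) i
    rcases Nat.mul_eq_zero.1 this with h | h
    · omega
    · simpa using h
  · rintro rfl; simp

theorem nrm_neg (w : Gp R) : nrm (-w) = nrm w := by simp [nrm]

theorem mem_cfgs {ι S : Type} {V : Finset S} {d : S} {Q : Finset ι} {f : ι → S} :
    f ∈ cfgs V d Q ↔ (∀ x ∈ Q, f x ∈ V) ∧ ∀ x, x ∉ Q → f x = d := by
  simp only [cfgs, mem_image, mem_pi]
  constructor
  · rintro ⟨g, hg, rfl⟩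
    exact ⟨fun x hx => by simpa [hx] using hg x hx, fun x hx => by simp [hx]⟩
  · rintro ⟨h1, h2⟩
    refine ⟨fun x _ => f x, h1, funext fun x => ?_⟩
    by_cases hx : x ∈ Q
    · simp [hx]
    · simp [hx, h2 x hx]

theorem nrm_Wl {w : Gp R} (h : w ∈ Wl R) : w = 0 ∨ nrm w = 2 := by
  rcases mem_union.1 h with h | h
  · exact Or.inl (nrm_eq_zero.1 (mem_filter.1 h).2)
  · exact Or.inr (mem_filter.1 h).2

theorem fm_of_forms {n : ℕ} {S : Finset P} {δ : Form R} (h : δ ∈ forms R n S) : Fm n S δ := by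
  obtain ⟨h1, h2, h3⟩ := mem_filter.1 h
  obtain ⟨h4, h5⟩ := mem_cfgs.1 h1
  refine ⟨h2, h5, fun e => ?_, fun e he ha hb => nrm_Wl (h3 e (mem_filter.2 ⟨he, Or.inl ha⟩) ha hb)⟩
  by_cases he : e ∈ he n S
  · rcases mem_union.1 (h4 e he) with h | h
    · rcases nrm_Wl h with h | h
      · rw [nrm_eq_zero.2 h]; omega
      · omega
    · have := (mem_filter.1 h).2; omega
  · rw [nrm_eq_zero.2 (h5 e he)]; omega

/-- a function that does not change along the edges of the box is constant -/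
theorem box_const {α : Type} {n : ℕ} {f : P → α} (h : ∀ e ∈ hes n, f (rev e).1 = f e.1) :
    ∀ x ∈ box n, f x = f 0 := by
  have h1 : ∀ (a : ℕ) (y : ℤ), ((a : ℤ), y) ∈ box n → f (a, y) = f (0, y) := by
    intro a y
    induction a with
    | zero => intro _; rfl
    | succ a ih =>
      intro ha
      have hb : ((a : ℤ), y) ∈ box n := by
        rw [mem_box] at ha ⊢; push_cast at ha; simp only at ha ⊢; omega
      have e : (rev (((a : ℤ), y), 0)).1 = (((a + 1 : ℕ) : ℤ), y) := by simp [rev, dir]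
      rw [← ih hb, ← e]
      exact h _ (mem_hes.2 ⟨hb, e ▸ ha⟩)
  have h2 : ∀ (a : ℕ), ((0 : ℤ), (a : ℤ)) ∈ box n → f (0, a) = f 0 := by
    intro a
    induction a with
    | zero => intro _; rfl
    | succ a ih =>
      intro ha
      have hb : ((0 : ℤ), (a : ℤ)) ∈ box n := by
        rw [mem_box] at ha ⊢; push_cast at ha; simp only at ha ⊢; omega
      have e : (rev (((0 : ℤ), (a : ℤ)), 1)).1 = ((0 : ℤ), ((a + 1 : ℕ) : ℤ)) := by
        simp [rev, dir]
      rw [← ih hb, ← e]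
      exact h _ (mem_hes.2 ⟨hb, e ▸ ha⟩)
  rintro ⟨a, b⟩ hx
  have hx' := mem_box.1 hx
  simp only at hx'
  obtain ⟨a, rfl⟩ := Int.eq_ofNat_of_zero_le hx'.1.1
  obtain ⟨b, rfl⟩ := Int.eq_ofNat_of_zero_le hx'.2.1
  rw [h1 a b hx]
  exact h2 b (by rw [mem_box]; simp only; omega)

/-- two potentials of one form that vanish at one site agree -/
theorem gr_unique {n : ℕ} {β : Ed → ℤ} {f g : P → ℤ} (hf : Gr n β f) (hg : Gr n β g) {z : P}
    (hz : z ∈ box n) (h : f z = g z) : ∀ x ∈ box n, f x = g x := by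
  have k := box_const (n := n) (f := fun x => f x - g x) fun e he => by
    have := hf e he; have := hg e he; omega
  intro x hx
  have := k x hx; have := k z hz; omega

theorem mem_inn {n : ℕ} {p : P} : p ∈ inn n ↔ (0 < p.1 ∧ p.1 < n) ∧ 0 < p.2 ∧ p.2 < n := by
  simp [inn, mem_product]

theorem curl_mem {n : ℕ} {p : P} (hp : p ∈ inn n) (d : Fin 4) : (p - crn (d + 1), d) ∈ hes n := by
  rw [mem_inn] at hp
  rw [mem_hes, mem_box, mem_box]
  fin_cases d <;> simp [rev, crn, dir] <;> omega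

theorem clo_of_gr {n : ℕ} {β : Ed → ℤ} {f : P → ℤ} (hf : Gr n β f) : Clo n β := by
  intro p hp
  have h : ∀ d : Fin 4, (rev (p - crn (d + 1), d)).1 = p - crn (d + 1 + 1) := by
    intro d
    fin_cases d <;> simp [rev, crn, dir, Prod.ext_iff] <;> omega
  rw [curl, sum_congr rfl fun d _ => hf _ (curl_mem hp d)]
  simp only [h, Fin.sum_univ_four]
  have e1 : (0 + 1 + 1 : Fin 4) = 1 + 1 := rfl
  have e2 : (1 + 1 + 1 : Fin 4) = 2 + 1 := rfl
  have e3 : (2 + 1 + 1 : Fin 4) = 3 + 1 := rfl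
  have e4 : (3 + 1 + 1 : Fin 4) = 0 + 1 := rfl
  rw [e1, e2, e3, e4]
  ring

theorem nr_symm {k : ℕ} {a b : P} (h : nr k a b) : nr k b a :=
  ⟨by rw [abs_sub_comm]; exact h.1, by rw [abs_sub_comm]; exact h.2⟩

theorem nr_mono {k l : ℕ} (hk : k ≤ l) {a b : P} (h : nr k a b) : nr l a b :=
  ⟨h.1.trans (by exact_mod_cast hk), h.2.trans (by exact_mod_cast hk)⟩

theorem nr_rev (e : Ed) : nr 1 e.1 (rev e).1 := by
  obtain ⟨x, d⟩ := e
  fin_cases d <;> simp [nr, rev, dir]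

theorem lk_symm {ρ : ℕ} {δ : Form R} {i : Fin (ng R)} {e e' : Ed}
    (h : Relation.ReflTransGen (lk ρ δ i) e e') : Relation.ReflTransGen (lk ρ δ i) e' e := by
  induction h with
  | refl => exact .refl
  | tail _ h ih => exact .head ⟨h.2.1, h.1, nr_symm h.2.2⟩ ih

theorem mem_cl_self {n ρ : ℕ} {δ : Form R} {i : Fin (ng R)} {e : Ed} (he : e ∈ hes n) :
    e ∈ cl n ρ δ i e := mem_filter.2 ⟨he, .refl⟩

theorem cl_congr {n ρ : ℕ} {δ : Form R} {i : Fin (ng R)} {e e' : Ed}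
    (h : Relation.ReflTransGen (lk ρ δ i) e e') : cl n ρ δ i e = cl n ρ δ i e' := by
  ext y
  simp only [cl, mem_filter]
  exact and_congr_right fun _ => ⟨fun k => (lk_symm h).trans k, fun k => h.trans k⟩

/-- a cluster is the cluster of each of its edges -/
theorem cls_eq {n ρ : ℕ} {δ : Form R} {c : Fin (ng R) × Finset Ed} (hc : c ∈ Cls n ρ δ) {e : Ed}
    (he : e ∈ c.2) : e ∈ hes n ∧ δ e c.1 ≠ 0 ∧ c.2 = cl n ρ δ c.1 e := by
  obtain ⟨y, hy, rfl⟩ := mem_image.1 hc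
  obtain ⟨h1, h2⟩ := mem_filter.1 he
  refine ⟨h1, ?_, cl_congr h2⟩
  cases h2 with
  | refl => exact (mem_filter.1 hy).2
  | tail _ h => exact h.2.1

theorem cl_mem {n ρ : ℕ} {δ : Form R} {i : Fin (ng R)} {e : Ed} (he : e ∈ hes n)
    (h : δ e i ≠ 0) : (i, cl n ρ δ i e) ∈ Cls n ρ δ :=
  mem_image.2 ⟨(i, e), mem_filter.2 ⟨mem_product.2 ⟨mem_univ _, he⟩, h⟩, rfl⟩

theorem cl_near {n ρ : ℕ} {δ : Form R} {i : Fin (ng R)} {e e' : Ed} (h : δ e i ≠ 0)
    (h' : δ e' i ≠ 0) (hn : nr ρ e.1 e'.1) : cl n ρ δ i e = cl n ρ δ i e' :=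
  cl_congr (.single ⟨h, h', hn⟩)

theorem asy_bet {n ρ : ℕ} (hρ : 1 ≤ ρ) {S : Finset P} {δ : Form R} (hδ : Fm n S δ)
    {c : Fin (ng R) × Finset Ed} (hc : c ∈ Cls n ρ δ) :
    Asy n (bet δ c) ∧ bet δ c ≠ 0 ∧ ∀ e, e ∉ he n S → bet δ c e = 0 := by
  have hr : ∀ e ∈ c.2, rev e ∈ c.2 := fun e he => by
    obtain ⟨h1, h2, h3⟩ := cls_eq hc he
    have h4 : δ (rev e) c.1 ≠ 0 := by rw [hδ.asy]; simpa using h2
    rw [h3, cl_near h2 h4 (nr_mono hρ (nr_rev e))]
    exact mem_cl_self (rev_mem h1)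
  refine ⟨⟨fun e => ?_, fun e he => ?_⟩, ?_, fun e he => ?_⟩
  · by_cases he : e ∈ c.2
    · simp [bet, he, hr e he, hδ.asy]
    · have : rev e ∉ c.2 := fun h => he (rev_rev e ▸ hr _ h)
      simp [bet, he, this]
  · exact if_neg fun h => he (cls_eq hc h).1
  · obtain ⟨y, hy, rfl⟩ := mem_image.1 hc
    obtain ⟨h1, h2⟩ := mem_filter.1 hy
    intro h
    have := congrFun h y.2
    simp only [bet, mem_cl_self (mem_product.1 h1).2, if_true] at this
    exact h2 this
  · simp [bet, hδ.off e he]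

end Pool.Agent.Lib.MP_9cc147_pr.Cx.Pe
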