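import Pool.Agent.Lib.MP_9cc147_pr.Cx.Pe.Bas

/-! Closed forms on the box are gradients. -/

open scoped Classical
open Finset

noncomputable section
namespace Pool.Agent.Lib.MP_9cc147_pr.Cx.Pe

/-- the potential: along the bottom row, then up the column -/
def poiF (β : Ed → ℤ) (a b : ℕ) : ℤ :=
  ∑ i ∈ range a, β (((i : ℤ), 0), 0) + ∑ j ∈ range b, β (((a : ℤ), (j : ℤ)), 1)

theorem poi_east {n : ℕ} {β : Ed → ℤ} (ha : Asy n β) (hc : Clo n β) (a : ℕ) (h : a + 1 < n) :
    ∀ b : ℕ, b < n → β (((a : ℤ), (b : ℤ)), 0) = poiF β (a + 1) b - poiF β a b := by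
  intro b
  induction b with
  | zero => intro _; simp [poiF, sum_range_succ]
  | succ b ih =>
    intro hb
    have h1 := ih (by omega)
    have h2 := hc ((a : ℤ) + 1, (b : ℤ) + 1) (by rw [mem_inn]; simp only; omega)
    have h3 := ha.1 (((a : ℤ), (b : ℤ) + 1), 0)
    have h4 := ha.1 (((a : ℤ), (b : ℤ)), 1)
    simp only [curl, Fin.sum_univ_four] at h2
    simp [crn, rev, dir] at h2 h3 h4
    simp only [poiF, sum_range_succ] at h1 ⊢
    push_cast at h1 ⊢
    omega

theorem poin {n : ℕ} {β : Ed → ℤ} (ha : Asy n β) (hc : Clo n β) : ∃ f, Gr n β f := by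
  refine ⟨fun x => poiF β x.1.toNat x.2.toNat, ?_⟩
  have key : ∀ e ∈ hes n, e.2 = 0 ∨ e.2 = 1 →
      β e = poiF β (rev e).1.1.toNat (rev e).1.2.toNat - poiF β e.1.1.toNat e.1.2.toNat := by
    rintro ⟨⟨a, b⟩, d⟩ he hd
    rw [mem_hes, mem_box, mem_box] at he
    obtain ⟨a, rfl⟩ := Int.eq_ofNat_of_zero_le he.1.1.1
    obtain ⟨b, rfl⟩ := Int.eq_ofNat_of_zero_le he.1.2.1
    rcases hd with hd | hd <;> simp only at hd <;> subst hd
    · simp [rev, dir] at he ⊢
      exact poi_east ha hc a (by omega) b (by omega)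
    · simp [rev, dir, poiF, sum_range_succ]
  intro e he
  by_cases hd : e.2 = 0 ∨ e.2 = 1
  · exact key e he hd
  · have h := key (rev e) (rev_mem he) (by
      obtain ⟨x, d⟩ := e
      revert hd
      fin_cases d <;> simp [rev])
    rw [rev_rev, ha.1] at h
    simp only
    omega

end Pool.Agent.Lib.MP_9cc147_pr.Cx.Pe
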