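import Pool.Agent.Lib.MP_9cc147_pr.Cx.Pe.Iso
import Pool.Agent.Lib.MP_9cc147_pr.Cx.Pe.Poi

/-! Closed clusters have capacity at least one. -/

open scoped Classical
open Finset

noncomputable section
namespace Pool.Agent.Lib.MP_9cc147_pr.Cx.Pe

theorem cap_dir_inj {x : P} {d d' : Fin 4} (h : x + dir d = x + dir d') : d = d' := by
  have := add_left_cancel h
  revert this
  fin_cases d <;> fin_cases d' <;> simp [dir]

theorem cap_dir_ne (x : P) (d : Fin 4) : x + dir d ≠ x := by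
  intro h
  have : dir d = 0 := by simpa using h
  revert this
  fin_cases d <;> simp [dir]

theorem cap_sum_rev {n : ℕ} (F : Ed → ℝ) : ∑ e ∈ hes n, F (rev e) = ∑ e ∈ hes n, F e :=
  sum_bij' (fun e _ => rev e) (fun e _ => rev e) (fun _ h => rev_mem h) (fun _ h => rev_mem h)
    (fun e _ => rev_rev e) (fun e _ => rev_rev e) fun _ _ => rfl

theorem cap_st {n : ℕ} (k : Ed → ℝ) (A : Finset P) :
    ∑ e ∈ (hes n).filter (fun e => e.1 ∈ A), k e = ∑ x ∈ A, st n k x := by
  have h : (hes n).filter (fun e => e.1 ∈ A) =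
      (A ×ˢ (univ : Finset (Fin 4))).filter (fun e => e ∈ hes n) := by
    ext e; simp [mem_product, and_comm]
  rw [h, sum_filter, sum_product]
  exact sum_congr rfl fun x _ => by rw [st, sum_filter]

/-- capacity of the cut of a set of sites -/
theorem cap_cut {n : ℕ} {k : Ed → ℝ} (hk : ∀ e ∈ hes n, k (rev e) = k e) {β : Ed → ℤ}
    {A : Finset P} {c : ℤ} (hc : c = 1 ∨ c = -1) (h : Gr n β (ind A c)) :
    cw n k β = ∑ x ∈ A, st n k x -
      ∑ e ∈ (hes n).filter (fun e => e.1 ∈ A ∧ (rev e).1 ∈ A), k e := by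
  set F : Ed → ℝ := fun e => if e.1 ∈ A ∧ (rev e).1 ∉ A then k e else 0 with hF
  have h1 : ∀ e ∈ hes n, k e * |(β e : ℝ)| = F e + F (rev e) := by
    intro e he
    rw [h e he]
    simp only [hF, rev_rev, hk e he, ind]
    by_cases h1 : e.1 ∈ A <;> by_cases h2 : (rev e).1 ∈ A <;> rcases hc with rfl | rfl <;>
      simp [h1, h2]
  have h2 : ∑ e ∈ hes n, F e = ∑ x ∈ A, st n k x -
      ∑ e ∈ (hes n).filter (fun e => e.1 ∈ A ∧ (rev e).1 ∈ A), k e := by
    rw [← cap_st, sum_filter, sum_filter, ← sum_sub_distrib]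
    refine sum_congr rfl fun e _ => ?_
    by_cases h1 : e.1 ∈ A <;> by_cases h2 : (rev e).1 ∈ A <;> simp [hF, h1, h2]
  rw [cw, sum_congr rfl h1, sum_add_distrib, cap_sum_rev F, ← h2]
  ring

theorem cap_in {n : ℕ} {S : Finset P} (hS : Sol n S) {β : Ed → ℤ}
    (hs : ∀ e, e ∉ he n S → β e = 0) {u v : P} {c : ℤ} (hc : c = 1 ∨ c = -1) {A : Finset P}
    (hA : ∀ x ∈ A, x = u ∨ x = v) (h : Gr n β (ind A c)) (hu : u ∈ A) (hb : u ∈ box n) :
    u ∈ S := by
  by_contra hn
  obtain ⟨d, d', hd, h1, h2, h3, h4⟩ := hS u hb hn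
  have key : ∀ d, (u, d) ∈ hes n → u + dir d ∉ S → u + dir d = v := by
    intro d h1 h3
    have h5 := hs (u, d) fun hh => by
      rcases (mem_filter.1 hh).2 with h | h
      · exact hn h
      · exact h3 h
    rw [h _ h1] at h5
    have h6 : u + dir d ∈ A := by
      by_contra h6
      have h7 : (rev (u, d)).1 ∉ A := h6
      simp only [ind, h7, hu, if_true, if_false] at h5
      omega
    exact (hA _ h6).resolve_left (cap_dir_ne u d)
  exact hd (cap_dir_inj ((key d h1 h3).trans (key d' h2 h4).symm))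

theorem cap_low {n : ℕ} {k : Ed → ℝ} {β : Ed → ℤ} {a : ℝ}
    (h : ∀ e ∈ hes n, β e ≠ 0 → a ≤ k e) : a * len n β ≤ cw n k β := by
  rw [len, cw, mul_left_comm, mul_sum]
  refine mul_le_mul_of_nonneg_left (sum_le_sum fun e he => ?_) (by norm_num)
  by_cases h0 : β e = 0
  · simp [h0]
  · exact mul_le_mul_of_nonneg_right (h e he h0) (abs_nonneg _)

theorem cap_rev_ne (e : Ed) : rev e ≠ e := fun h => cap_dir_ne e.1 e.2 (congrArg Prod.fst h)

theorem cap_dom {n : ℕ} {S : Finset P} {k : Ed → ℝ} (hk : Gau n S k) (hS : Sol n S)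
    {β : Ed → ℤ} (hs : ∀ e, e ∉ he n S → β e = 0) {e : Ed} (h : Dom n β e) :
    2 - 2 * k e ≤ cw n k β := by
  obtain ⟨he, -, -, c, hc, hg⟩ := h
  have hne : e.1 ≠ (rev e).1 := (cap_dir_ne e.1 e.2).symm
  have hu : e.1 ∈ S := cap_in hS hs hc (v := (rev e).1) (by simp) hg (by simp) (mem_hes.1 he).1
  have hv : (rev e).1 ∈ S :=
    cap_in hS hs hc (v := e.1) (by simp) hg (by simp) (mem_hes.1 he).2
  have hset : (hes n).filter (fun y => y.1 ∈ ({e.1, (rev e).1} : Finset P) ∧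
      (rev y).1 ∈ ({e.1, (rev e).1} : Finset P)) = {e, rev e} := by
    ext y
    simp only [mem_filter, mem_insert, mem_singleton]
    constructor
    · rintro ⟨-, h1 | h1, h2 | h2⟩
      · exact absurd (h2.trans h1.symm) (cap_dir_ne y.1 y.2)
      · left
        refine Prod.ext h1 (cap_dir_inj (x := e.1) ?_)
        exact (show e.1 + dir y.2 = (rev e).1 by rw [← h1]; exact h2)
      · right
        refine Prod.ext h1 (cap_dir_inj (x := (rev e).1) ?_)
        have h3 : (rev (rev e)).1 = e.1 := by rw [rev_rev]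
        exact (show (rev e).1 + dir y.2 = e.1 by rw [← h1]; exact h2).trans h3.symm
      · exact absurd (h2.trans h1.symm) (cap_dir_ne y.1 y.2)
    · rintro (rfl | rfl)
      · exact ⟨he, Or.inl rfl, Or.inr rfl⟩
      · exact ⟨rev_mem he, Or.inr rfl, Or.inl (by rw [rev_rev])⟩
  rw [cap_cut hk.sym hc hg, hset, sum_pair hne, sum_pair (cap_rev_ne e).symm, hk.sym e he]
  linarith [hk.one _ hu, hk.one _ hv]

theorem cap_cq {n : ℕ} {S : Finset P} {k : Ed → ℝ} (hk : Gau n S k) {β : Ed → ℤ}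
    (h : Cqt n β) : ∀ e ∈ hes n, β e ≠ 0 → 1 / 4 ≤ k e := by
  obtain ⟨f, hf, hq⟩ := h
  intro e he h0
  by_cases h1 : f e.1 = 0
  · have h2 : f (rev e).1 ≠ 0 := fun h2 => h0 (by rw [hf e he, h1, h2]; rfl)
    rw [← hk.sym e he]
    exact hk.lcq _ (rev_mem he) (hq _ h2).2
  · exact hk.lcq e he (hq _ h1).2

theorem cap_lem {n : ℕ} (hn : 10 ≤ n) {S : Finset P} {k : Ed → ℝ} (hk : Gau n S k)
    (hS : Sol n S) {β : Ed → ℤ} (ha : Asy n β) (hc : Clo n β) (h0 : β ≠ 0)
    (hs : ∀ e, e ∉ he n S → β e = 0) :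
    1 ≤ cw n k β ∧ (¬ Tame n k β → 1 + len n β / 64 ≤ cw n k β) := by
  obtain ⟨f, hf⟩ := poin ha hc
  by_cases h5 : len n β < 5
  swap
  · have := cap_low (n := n) (β := β) fun e he _ => hk.low e he
    exact ⟨by linarith, fun _ => by linarith⟩
  rcases iso hn ha hf h0 h5 with ⟨x, hx⟩ | ⟨⟨e, he⟩, h4⟩ | ⟨hq, h4⟩
  · refine ⟨?_, fun h => (h (Or.inl ⟨x, hx⟩)).elim⟩
    obtain ⟨hb, c, hc, hg⟩ := hx
    have hu : x ∈ S := cap_in hS hs hc (v := x) (by simp) hg (by simp) hb
    have hset : (hes n).filter (fun y => y.1 ∈ ({x} : Finset P) ∧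
        (rev y).1 ∈ ({x} : Finset P)) = ∅ := by
      refine filter_eq_empty_iff.2 fun y _ h => ?_
      simp only [mem_singleton] at h
      exact cap_dir_ne y.1 y.2 (h.2.trans h.1.symm)
    rw [cap_cut hk.sym hc hg, hset]
    simpa using hk.one x hu
  · have h1 := cap_dom hk hS hs he
    rcases hk.gap e he.1 with h2 | h2
    · refine ⟨by linarith, fun h => (h ?_).elim⟩
      by_cases h3 : cq n e.1
      · obtain ⟨he1, -, -, c, -, hg⟩ := he
        refine Or.inr (Or.inl ⟨_, hg, fun x hx => ?_⟩)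
        have hx' : x = e.1 ∨ x = (rev e).1 := by
          by_contra hh
          exact hx (if_neg (by simpa using hh))
        rcases hx' with rfl | rfl
        · exact ⟨(mem_hes.1 he1).1, h3⟩
        · exact ⟨(mem_hes.1 he1).2, (hk.cqh e he1 h2).1 h3⟩
      · exact Or.inr (Or.inr ⟨e, he, h2, h3, fun h4 => h3 ((hk.cqh e he.1 h2).2 h4)⟩)
    · exact ⟨by linarith, fun _ => by linarith⟩
  · refine ⟨?_, fun h => (h (Or.inr (Or.inl hq))).elim⟩
    have hl := cap_cq hk hq
    rcases h4 with h4 | ⟨h4, e, he, hcor, hne⟩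
    · have := cap_low hl
      linarith
    · have h1 : ∑ y ∈ ({e, rev e} : Finset Ed), (k y - 1 / 4) * |(β y : ℝ)| ≤
          ∑ y ∈ hes n, (k y - 1 / 4) * |(β y : ℝ)| := by
        refine sum_le_sum_of_subset_of_nonneg ?_ fun y hy _ => ?_
        · intro y hy
          rcases mem_insert.1 hy with rfl | hy
          · exact he
          · rw [mem_singleton.1 hy]; exact rev_mem he
        · by_cases h : β y = 0
          · simp [h]
          · exact mul_nonneg (by linarith [hl y hy h]) (abs_nonneg _)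
      have h2 : (1 : ℝ) ≤ |(β e : ℝ)| := by exact_mod_cast Int.one_le_abs hne
      rw [sum_pair (cap_rev_ne e).symm, hk.sym e he, hk.cor e he hcor, ha.1] at h1
      simp only [sub_mul, sum_sub_distrib, ← mul_sum, Int.cast_neg, abs_neg] at h1
      rw [len] at h4
      rw [cw]
      linarith

end Pool.Agent.Lib.MP_9cc147_pr.Cx.Pe
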