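import Pool.Agent.Lib.MP_9cc147_pr.Cx.Pe.Bas

/-! Counting forms by their shape. -/

open scoped Classical
open Finset

noncomputable section
namespace Pool.Agent.Lib.MP_9cc147_pr.Cx.Pe

/-- a sum over objects coded injectively by words is at most the sum over all words -/
theorem cnt_abs {α ι X : Type} [Fintype ι] (F : Finset α) (T : Finset X) (w : X → ℝ)
    (hw : ∀ x, 0 ≤ w x) (Φ : α → ι → X) (hΦ : ∀ a ∈ F, ∀ y, Φ a y ∈ T)
    (inj : Set.InjOn Φ F) (u : α → ℝ) (hu : ∀ a ∈ F, u a ≤ ∏ y, w (Φ a y)) :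
    ∑ a ∈ F, u a ≤ (∑ x ∈ T, w x) ^ Fintype.card ι := by
  calc ∑ a ∈ F, u a ≤ ∑ a ∈ F, ∏ y, w (Φ a y) := sum_le_sum hu
    _ = ∑ φ ∈ F.image Φ, ∏ y, w (φ y) :=
        (sum_image (f := fun φ : ι → X => ∏ y, w (φ y)) inj).symm
    _ ≤ ∑ φ ∈ Fintype.piFinset (fun _ : ι => T), ∏ y, w (φ y) := by
        refine sum_le_sum_of_subset_of_nonneg ?_ fun φ _ _ => prod_nonneg fun y _ => hw _
        intro φ hφ
        obtain ⟨a, ha, rfl⟩ := mem_image.1 hφ
        exact Fintype.mem_piFinset.2 (hΦ a ha)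
    _ = ∏ _y : ι, ∑ x ∈ T, w x := (prod_univ_sum (fun _ : ι => T) (fun _ x => w x)).symm
    _ = _ := by rw [prod_const, card_univ]

variable {R : ℕ}

theorem cnt_mu (i : Fin (ng R)) : 1 ≤ mu R i := by
  unfold mu; split_ifs <;> omega

theorem cnt_coef {w : Gp R} (h : nrm w ≤ 2) (i : Fin (ng R)) : w i ∈ Icc (-2 : ℤ) 2 := by
  have h1 : mu R i * (w i).natAbs ≤ nrm w :=
    single_le_sum (f := fun i => mu R i * (w i).natAbs) (fun _ _ => Nat.zero_le _) (mem_univ i)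
  have h2 : (w i).natAbs ≤ mu R i * (w i).natAbs := Nat.le_mul_of_pos_left _ (cnt_mu i)
  rw [mem_Icc]; omega

theorem cnt_sl (hR : 1 ≤ R) : ∃ sl : Gp R → Fin 2 → Fin (ng R),
    ∀ w, nrm w ≤ 2 → ∀ i, w i ≠ 0 → ∃ k, sl w k = i := by
  have z : Fin (ng R) := ⟨0, by unfold ng; omega⟩
  have key : ∀ w : Gp R, ∃ s : Fin 2 → Fin (ng R), nrm w ≤ 2 → ∀ i, w i ≠ 0 → ∃ k, s k = i := by
    intro w
    by_cases h : nrm w ≤ 2
    · have hc : (univ.filter fun i => w i ≠ 0).card ≤ 2 := by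
        refine le_trans ?_ h
        rw [card_filter]
        refine sum_le_sum fun i _ => ?_
        split_ifs with hi
        · have := cnt_mu i
          have h2 : 1 ≤ (w i).natAbs := Int.natAbs_pos.2 hi
          exact Nat.mul_pos this h2
        · exact Nat.zero_le _
      have hm : ∀ i, w i ≠ 0 → i ∈ univ.filter fun i => w i ≠ 0 :=
        fun i hi => mem_filter.2 ⟨mem_univ _, hi⟩
      generalize (univ.filter fun i => w i ≠ 0) = A at hc hm
      have h3 : A.card = 0 ∨ A.card = 1 ∨ A.card = 2 := by omega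
      rcases h3 with h3 | h3 | h3
      · rw [card_eq_zero] at h3
        subst h3
        exact ⟨fun _ => z, fun _ i hi => absurd (hm i hi) (notMem_empty _)⟩
      · obtain ⟨a, rfl⟩ := card_eq_one.1 h3
        exact ⟨fun _ => a, fun _ i hi => ⟨0, (mem_singleton.1 (hm i hi)).symm⟩⟩
      · obtain ⟨a, b, -, rfl⟩ := card_eq_two.1 h3
        refine ⟨![a, b], fun _ i hi => ?_⟩
        rcases mem_insert.1 (hm i hi) with h4 | h4
        · exact ⟨0, h4.symm⟩
        · exact ⟨1, (mem_singleton.1 h4).symm⟩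
    · exact ⟨fun _ => z, fun h' => absurd h' h⟩
  choose sl hsl using key
  exact ⟨sl, hsl⟩

/-- weight of the letter that names the generator at a root -/
def cnt_w (R : ℕ) : Option (Fin (ng R)) → ℝ
  | none => 1
  | some i => (2 * R : ℝ) ^ (-(mu R i : ℝ))

theorem cnt_w_nonneg (o : Option (Fin (ng R))) : 0 ≤ cnt_w R o := by
  cases o with
  | none => exact zero_le_one
  | some i => exact Real.rpow_nonneg (by positivity) _

theorem cnt_w_sum (hR : 1 ≤ R) : ∑ o, cnt_w R o ≤ 3 := by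
  have hR' : (1 : ℝ) ≤ R := by exact_mod_cast hR
  have hp : (0 : ℝ) < 2 * R := by linarith
  rw [Fintype.sum_option]
  have h1 : ∀ i : Fin (ng R), cnt_w R (some i) ≤
      (if i.val < R then (2 * R : ℝ)⁻¹ else 0) + ((2 * R : ℝ) ^ 2)⁻¹ := by
    intro i
    show (2 * R : ℝ) ^ (-(mu R i : ℝ)) ≤ _
    rw [Real.rpow_neg hp.le, Real.rpow_natCast]
    unfold mu
    split_ifs
    · rw [pow_one]
      have : (0 : ℝ) ≤ ((2 * R : ℝ) ^ 2)⁻¹ := by positivity
      linarith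
    · rw [zero_add]
  have h2 : (univ.filter fun i : Fin (ng R) => i.val < R).card ≤ R := by
    have := card_le_card_of_injOn (s := univ.filter fun i : Fin (ng R) => i.val < R)
      (t := range R) (fun i => i.val) (fun i hi => mem_range.2 (mem_filter.1 hi).2)
      (fun i _ j _ h => Fin.ext h)
    rwa [card_range] at this
  have h2' : ((univ.filter fun i : Fin (ng R) => i.val < R).card : ℝ) ≤ R := by exact_mod_cast h2
  have h3 : ng R ≤ 3 * R ^ 2 := by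
    have : R ≤ R ^ 2 := by nlinarith
    unfold ng; omega
  have h3' : (ng R : ℝ) ≤ 3 * (R : ℝ) ^ 2 := by exact_mod_cast h3
  have h4 : ∑ i : Fin (ng R), cnt_w R (some i) ≤
      R * (2 * R : ℝ)⁻¹ + 3 * (R : ℝ) ^ 2 * ((2 * R : ℝ) ^ 2)⁻¹ := by
    refine (sum_le_sum fun i _ => h1 i).trans ?_
    rw [sum_add_distrib, ← sum_filter, sum_const, sum_const, card_univ, Fintype.card_fin,
      nsmul_eq_mul, nsmul_eq_mul]
    gcongr
  have h5 : R * (2 * R : ℝ)⁻¹ + 3 * (R : ℝ) ^ 2 * ((2 * R : ℝ) ^ 2)⁻¹ = 5 / 4 := by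
    field_simp
    norm_num
  have h6 : cnt_w R none = 1 := rfl
  linarith

/-- offsets, directions and slot numbers near an edge -/
def cnt_Q (ρ : ℕ) : Finset (P × Fin 4 × Fin 2) :=
  (Icc (-(ρ : ℤ)) ρ ×ˢ Icc (-(ρ : ℤ)) ρ) ×ˢ univ
def cnt_A (ρ : ℕ) : Finset (ℤ × Finset (P × Fin 4 × Fin 2)) := Icc (-2) 2 ×ˢ (cnt_Q ρ).powerset
/-- the root slot of a cluster -/
def cnt_rt (sl : Gp R → Fin 2 → Fin (ng R)) (δ : Form R) (c : Fin (ng R) × Finset Ed) :
    Ed × Fin 2 :=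
  Classical.epsilon fun y : Ed × Fin 2 => y.1 ∈ c.2 ∧ sl (δ y.1) y.2 = c.1
def cnt_root (n ρ : ℕ) (sl : Gp R → Fin 2 → Fin (ng R)) (δ : Form R) (e : Ed) (k : Fin 2) : Prop :=
  δ e (sl (δ e) k) ≠ 0 ∧ cnt_rt sl δ (sl (δ e) k, cl n ρ δ (sl (δ e) k) e) = (e, k)
/-- the letter of a slot: coefficient, nearby slots with the same generator, generator at a root -/
def cnt_let (n ρ : ℕ) (sl : Gp R → Fin 2 → Fin (ng R)) (δ : Form R) (e : Ed) (k : Fin 2) :
    (ℤ × Finset (P × Fin 4 × Fin 2)) × Option (Fin (ng R)) :=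
  ((δ e (sl (δ e) k), (cnt_Q ρ).filter fun y => sl (δ (e.1 + y.1, y.2.1)) y.2.2 = sl (δ e) k),
    if cnt_root n ρ sl δ e k then some (sl (δ e) k) else none)

theorem cnt_he {n : ℕ} {S : Finset P} {δ : Form R} (hδ : Fm n S δ) {e : Ed} {i : Fin (ng R)}
    (h : δ e i ≠ 0) : e ∈ he n S := by
  by_contra hn
  exact h (by rw [hδ.off e hn]; rfl)

theorem cnt_rec {n ρ : ℕ} {S : Finset P} {sl : Gp R → Fin 2 → Fin (ng R)}
    (hsl : ∀ w, nrm w ≤ 2 → ∀ i, w i ≠ 0 → ∃ k, sl w k = i) {δ δ' : Form R} (hδ : Fm n S δ)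
    (h : ∀ e ∈ he n S, ∀ k, cnt_let n ρ sl δ e k = cnt_let n ρ sl δ' e k) {e : Ed}
    {i : Fin (ng R)} (hi : δ e i ≠ 0) : δ' e i = δ e i := by
  have he1 : e ∈ he n S := cnt_he hδ hi
  have he2 : e ∈ hes n := (mem_filter.1 he1).1
  have hc := cl_mem (ρ := ρ) he2 hi
  have hself : e ∈ cl n ρ δ i e := mem_cl_self he2
  obtain ⟨k, hk⟩ := hsl _ (hδ.le e) i hi
  have hsp := Classical.epsilon_spec
    (p := fun y : Ed × Fin 2 => y.1 ∈ cl n ρ δ i e ∧ sl (δ y.1) y.2 = i) ⟨(e, k), hself, hk⟩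
  have hrt : cnt_rt sl δ (i, cl n ρ δ i e) = Classical.epsilon
    (fun y : Ed × Fin 2 => y.1 ∈ cl n ρ δ i e ∧ sl (δ y.1) y.2 = i) := rfl
  rw [← hrt] at hsp
  clear hrt
  generalize hy : cnt_rt sl δ (i, cl n ρ δ i e) = y at hsp
  obtain ⟨e0, k0⟩ := y
  obtain ⟨hm, hg⟩ := hsp
  obtain ⟨-, hne, hcl⟩ := cls_eq hc hm
  simp only at hm hg hne hcl
  have hroot : cnt_root n ρ sl δ e0 k0 := by
    unfold cnt_root
    rw [hg, ← hcl]
    exact ⟨hne, hy⟩
  have hg' : sl (δ' e0) k0 = i := by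
    have h1 := congrArg Prod.snd (h e0 (cnt_he hδ hne) k0)
    simp only [cnt_let, if_pos hroot] at h1
    split_ifs at h1
    rw [← hg]
    exact (Option.some.inj h1).symm
  have hpath : Relation.ReflTransGen (lk ρ δ i) e0 e := by
    rw [hcl] at hself
    exact (mem_filter.1 hself).2
  have key : ∀ e1, Relation.ReflTransGen (lk ρ δ i) e0 e1 →
      ∃ k1, sl (δ e1) k1 = i ∧ sl (δ' e1) k1 = i := by
    intro e1 hp
    induction hp with
    | refl => exact ⟨k0, hg, hg'⟩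
    | @tail a b _ hab ih =>
      obtain ⟨k1, h1, h2⟩ := ih
      obtain ⟨ha, hb, hn⟩ := hab
      obtain ⟨k2, h3⟩ := hsl _ (hδ.le b) i hb
      refine ⟨k2, h3, ?_⟩
      have h4 := congrArg (fun x => x.1.2) (h a (cnt_he hδ ha) k1)
      simp only [cnt_let] at h4
      have hb' : (a.1 + (b.1 - a.1), b.2) = b := by
        rw [add_sub_cancel]
      have h5 : (b.1 - a.1, b.2, k2) ∈ (cnt_Q ρ).filter
          fun y => sl (δ (a.1 + y.1, y.2.1)) y.2.2 = sl (δ a) k1 := by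
        refine mem_filter.2 ⟨?_, ?_⟩
        · obtain ⟨n1, n2⟩ := hn
          rw [abs_le] at n1 n2
          simp only [cnt_Q, mem_product, mem_Icc, mem_univ, and_true, Prod.fst_sub, Prod.snd_sub]
          omega
        · simp only [hb']
          rw [h3, h1]
      rw [h4] at h5
      have h6 := (mem_filter.1 h5).2
      simp only [hb'] at h6
      rw [h6, h2]
  obtain ⟨k1, h1, h2⟩ := key e hpath
  have h7 := congrArg (fun x => x.1.1) (h e he1 k1)
  simp only [cnt_let] at h7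
  rw [h1, h2] at h7
  exact h7.symm

theorem cnt_wt {n ρ : ℕ} {S : Finset P} (hR : 1 ≤ R) (sl : Gp R → Fin 2 → Fin (ng R))
    (δ : Form R) : (2 * R : ℝ) ^ (-expo n ρ δ) ≤
      ∏ y : (he n S) × Fin 2, cnt_w R (cnt_let n ρ sl δ y.1 y.2).2 := by
  have hR' : (1 : ℝ) ≤ R := by exact_mod_cast hR
  have hp : (0 : ℝ) < 2 * R := by linarith
  have h1 : ∀ y : (he n S) × Fin 2, cnt_w R (cnt_let n ρ sl δ y.1 y.2).2 =
      (2 * R : ℝ) ^ (-(if cnt_root n ρ sl δ y.1 y.2 then (mu R (sl (δ y.1) y.2) : ℝ) else 0)) := by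
    intro y
    simp only [cnt_let]
    split_ifs
    · rfl
    · rw [neg_zero, Real.rpow_zero]; rfl
  rw [prod_congr rfl fun y _ => h1 y, ← Real.rpow_sum_of_pos hp]
  refine Real.rpow_le_rpow_of_exponent_le (by linarith) ?_
  rw [sum_neg_distrib, neg_le_neg_iff, ← sum_filter]
  have inj : Set.InjOn
      (fun y : (he n S) × Fin 2 => (sl (δ y.1) y.2, cl n ρ δ (sl (δ y.1) y.2) y.1))
      (univ.filter fun y : (he n S) × Fin 2 => cnt_root n ρ sl δ y.1 y.2 : Finset _) := by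
    intro y hy y' hy' hyy
    have a1 := (mem_filter.1 hy).2.2
    have a2 := (mem_filter.1 hy').2.2
    simp only at hyy
    rw [hyy, a2] at a1
    obtain ⟨b1, b2⟩ := Prod.mk.inj a1
    exact (Prod.ext (Subtype.ext b1) b2).symm
  have h2 := sum_image (f := fun c : Fin (ng R) × Finset Ed => (mu R c.1 : ℝ)) inj
  simp only at h2
  rw [← h2]
  refine sum_le_sum_of_subset_of_nonneg ?_ fun _ _ _ => Nat.cast_nonneg _
  intro c hc
  obtain ⟨y, hy, rfl⟩ := mem_image.1 hc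
  exact cl_mem (mem_filter.1 y.1.2).1 (mem_filter.1 hy).2.1

theorem cnt (ρ : ℕ) : ∃ Λ : ℝ, 1 ≤ Λ ∧ ∀ (R n : ℕ) (S : Finset P), 1 ≤ R →
    ∑ δ ∈ forms R n S, (2 * R : ℝ) ^ (-expo n ρ δ) ≤ Λ ^ (he n S).card := by
  have hA : (0 : ℝ) ≤ (cnt_A ρ).card := Nat.cast_nonneg _
  refine ⟨(3 * (cnt_A ρ).card + 1) ^ 2, one_le_pow₀ (by linarith), fun R n S hR => ?_⟩
  obtain ⟨sl, hsl⟩ := cnt_sl hR
  have h := cnt_abs (ι := (he n S) × Fin 2) (forms R n S) (cnt_A ρ ×ˢ univ)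
    (fun x => cnt_w R x.2) (fun x => cnt_w_nonneg _) (fun δ y => cnt_let n ρ sl δ y.1 y.2)
    (fun δ hδ y => mem_product.2 ⟨mem_product.2 ⟨cnt_coef ((fm_of_forms hδ).le _) _,
      mem_powerset.2 (filter_subset _ _)⟩, mem_univ _⟩)
    (by
      intro δ hδ δ' hδ' h
      have h1 : ∀ e ∈ he n S, ∀ k, cnt_let n ρ sl δ e k = cnt_let n ρ sl δ' e k :=
        fun e he k => congrFun h (⟨e, he⟩, k)
      funext e i
      by_cases hi : δ e i = 0
      · by_cases hi' : δ' e i = 0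
        · rw [hi, hi']
        · exact cnt_rec hsl (fm_of_forms hδ') (fun e he k => (h1 e he k).symm) hi'
      · exact (cnt_rec hsl (fm_of_forms hδ) h1 hi).symm)
    (fun δ => (2 * R : ℝ) ^ (-expo n ρ δ)) (fun δ _ => cnt_wt hR sl δ)
  refine h.trans ?_
  rw [Fintype.card_prod, Fintype.card_coe, Fintype.card_fin, mul_comm _ 2, pow_mul]
  have h0 : 0 ≤ ∑ x ∈ cnt_A ρ ×ˢ (univ : Finset (Option (Fin (ng R)))), cnt_w R x.2 :=
    sum_nonneg fun _ _ => cnt_w_nonneg _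
  have h1 : ∑ x ∈ cnt_A ρ ×ˢ (univ : Finset (Option (Fin (ng R)))), cnt_w R x.2 ≤
      3 * (cnt_A ρ).card + 1 := by
    rw [sum_product]
    simp only
    rw [sum_const, nsmul_eq_mul]
    have := cnt_w_sum hR
    nlinarith
  gcongr

end Pool.Agent.Lib.MP_9cc147_pr.Cx.Pe
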