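import Pool.Agent.Lib.MP_9cc147_pr.Cx.Pe.Bas

/-! Total capacities. -/

open scoped Classical
open Finset

noncomputable section
namespace Pool.Agent.Lib.MP_9cc147_pr.Cx.Pe

variable {R : ℕ}

theorem tot_ring {n : ℕ} {p : P} : p ∈ ring n ↔
    ((0 ≤ p.1 ∧ p.1 ≤ n) ∧ 0 ≤ p.2 ∧ p.2 ≤ n) ∧ ¬ ((0 < p.1 ∧ p.1 < n) ∧ 0 < p.2 ∧ p.2 < n) := by
  simp only [ring, sqr, mem_sdiff, mem_inn, mem_product, mem_Icc]

theorem tot_cap {n : ℕ} {x : P} {d : Fin 4} (he : (x, d) ∈ hes n) : cap n (x, d) =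
    if (if d = 0 ∨ d = 2 then x.2 = 0 ∨ x.2 = n - 1 else x.1 = 0 ∨ x.1 = n - 1) then 3 / 8
    else 1 / 4 := by
  rw [mem_hes, mem_box, mem_box] at he
  unfold cap
  refine if_congr ?_ rfl rfl
  rw [tot_ring, tot_ring]
  fin_cases d <;> simp [rev, dir, crn] at he ⊢ <;> omega

theorem tot_cap_rev {n : ℕ} {e : Ed} (he : e ∈ hes n) : cap n (rev e) = cap n e := by
  obtain ⟨x, d⟩ := e
  have h := tot_cap (show ((rev (x, d)).1, (rev (x, d)).2) ∈ hes n from rev_mem he)
  rw [tot_cap he]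
  refine h.trans (if_congr ?_ rfl rfl)
  fin_cases d <;> simp [rev, dir]

theorem tot_cap_cor {n : ℕ} {e : Ed} (he : e ∈ hes n) (h : corner n e.1) : cap n e = 3 / 8 := by
  obtain ⟨x, d⟩ := e
  rw [tot_cap he, if_pos]
  split_ifs
  exacts [h.2, h.1]

theorem st_cap {n : ℕ} (hn : 10 ≤ n) {x : P} (hx : x ∈ box n) :
    st n (cap n) x = if corner n x then 3 / 4 else 1 := by
  have hb := mem_box.1 hx
  have h (d : Fin 4) : (if (x, d) ∈ hes n then cap n (x, d) else 0) =
      if x + dir d ∈ box n then (if (if d = 0 ∨ d = 2 then x.2 = 0 ∨ x.2 = n - 1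
        else x.1 = 0 ∨ x.1 = n - 1) then 3 / 8 else 1 / 4) else 0 := by
    by_cases h' : (x, d) ∈ hes n
    · rw [if_pos h', if_pos (show x + dir d ∈ box n from (mem_hes.1 h').2), tot_cap h']
    · rw [if_neg h', if_neg fun h'' : x + dir d ∈ box n => h' (mem_hes.2 ⟨hx, h''⟩)]
  have e0 : x + dir 0 ∈ box n ↔ ¬ x.1 = n - 1 := by simp [mem_box, dir]; omega
  have e1 : x + dir 1 ∈ box n ↔ ¬ x.2 = n - 1 := by simp [mem_box, dir]; omega
  have e2 : x + dir 2 ∈ box n ↔ ¬ x.1 = 0 := by simp [mem_box, dir]; omega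
  have e3 : x + dir 3 ∈ box n ↔ ¬ x.2 = 0 := by simp [mem_box, dir]; omega
  unfold st corner
  rw [sum_filter, Fin.sum_univ_four, h, h, h, h]
  simp only [e0, e1, e2, e3]
  clear h e0 e1 e2 e3
  rcases or_iff_not_imp_left.2 (fun h : ¬ (x.1 = 0) = True => eq_false fun h' => h (eq_true h'))
      with p1 | p1 <;>
    rcases or_iff_not_imp_left.2
      (fun h : ¬ (x.1 = n - 1) = True => eq_false fun h' => h (eq_true h')) with p2 | p2 <;>
    rcases or_iff_not_imp_left.2
      (fun h : ¬ (x.2 = 0) = True => eq_false fun h' => h (eq_true h')) with p3 | p3 <;>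
    rcases or_iff_not_imp_left.2
      (fun h : ¬ (x.2 = n - 1) = True => eq_false fun h' => h (eq_true h')) with p4 | p4 <;>
    first
      | (exfalso; simp only [eq_iff_iff, iff_true, iff_false] at p1 p2 p3 p4; omega)
      | (simp only [p1, p2, p3, p4]; simp; try norm_num)

theorem tot_cq {n : ℕ} {e : Ed} (h : corner n e.1 ∨ corner n (rev e).1) : cq n e.1 := by
  have := nr_rev e
  simp only [nr, abs_le, Nat.cast_one] at this
  unfold corner at h
  unfold cq
  omega

theorem tot_half {n : ℕ} {e : Ed} (h : k0 n e = 1 / 2) : cq n e.1 := by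
  refine tot_cq (by_contra fun h' => ?_)
  unfold k0 cap at h
  rw [if_neg h'] at h
  split_ifs at h <;> norm_num at h

theorem gau_zero {n : ℕ} (hn : 10 ≤ n) {S : Finset P} (hS : S ⊆ box n) :
    Gau n S (k0 n) ∧ ∀ e ∈ hes n, k0 n e = 1 / 2 → cq n e.1 := by
  have hs : ∀ e ∈ hes n, k0 n (rev e) = k0 n e := fun e he => by
    unfold k0
    rw [tot_cap_rev he, rev_rev]
    exact congrArg _ (if_congr or_comm rfl rfl)
  have hc : ∀ e ∈ hes n, corner n e.1 → k0 n e = 1 / 2 := fun e he h => by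
    unfold k0
    rw [tot_cap_cor he h, if_pos (Or.inl h)]; norm_num
  refine ⟨⟨hs, fun e _ => ?_, fun e _ _ => ?_, hc, fun x hx => ?_, fun e _ => ?_,
    fun x _ d d' _ _ _ h h' => absurd (tot_half h') h, fun e he h => ?_⟩, fun e _ => tot_half⟩
  · unfold k0 cap; split_ifs <;> norm_num
  · unfold k0 cap; split_ifs <;> norm_num
  · have h1 := st_cap hn (hS hx)
    by_cases h : corner n x
    · rw [if_pos h] at h1
      have : st n (k0 n) x = 4 / 3 * st n (cap n) x := by
        unfold st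
        rw [mul_sum]
        refine sum_congr rfl fun d hd => ?_
        rw [hc _ (mem_filter.1 hd).2 h, tot_cap_cor (mem_filter.1 hd).2 h]; norm_num
      rw [this, h1]; norm_num
    · rw [if_neg h] at h1
      rw [← h1]
      refine sum_le_sum fun d _ => ?_
      unfold k0; split_ifs <;> norm_num
  · unfold k0 cap; split_ifs <;> norm_num
  · exact iff_of_true (tot_half h) (tot_half ((hs e he).trans h))

theorem tot_out (n : ℕ) (S : Finset P) (g : P → ℝ) (k : Ed → ℝ) :
    ∑ e ∈ (hes n).filter (fun e => e.1 ∈ S), g e.1 * k e = ∑ x ∈ S, g x * st n k x := by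
  rw [sum_finset_product _ S (fun x => univ.filter fun d => (x, d) ∈ hes n)
    (fun p => by simp [and_comm])]
  exact sum_congr rfl fun x _ => by rw [st, mul_sum]

theorem tot_typ (s : Lab) (e : Ed) : typ s e.1 + typ s (rev e).1 = 2 := by
  obtain ⟨x, d⟩ := e
  have hp : Even ((x + dir d).1 + (x + dir d).2) ↔ ¬ Even (x.1 + x.2) := by
    fin_cases d <;> simp [dir, Int.even_iff] <;> omega
  change typ s x + typ s (x + dir d) = 2
  unfold typ
  simp only [hp]
  by_cases h : Even (x.1 + x.2) <;> by_cases h0 : s = 0 <;> by_cases h1 : s = 1 <;> simp [h, h0, h1]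

/-- the inner edges cancel in pairs -/
theorem tot_inner (n : ℕ) (S : Finset P) {k : Ed → ℝ} (hk : ∀ e ∈ hes n, k (rev e) = k e)
    (s : Lab) : ∑ e ∈ crs n S, ((typ s e.1 : ℝ) - 1) * k e =
      ∑ x ∈ S, ((typ s x : ℝ) - 1) * st n k x := by
  rw [← tot_out, ← sum_filter_add_sum_filter_not ((hes n).filter fun e => e.1 ∈ S)
    (fun e : Ed => (rev e).1 ∈ S), filter_filter, filter_filter]
  have : ∑ e ∈ (hes n).filter (fun e => e.1 ∈ S ∧ (rev e).1 ∈ S),
      ((typ s e.1 : ℝ) - 1) * k e = 0 := by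
    refine sum_involution (fun e _ => rev e) (fun e he => ?_) (fun e _ _ h => ?_)
      (fun e he => ?_) (fun e _ => rev_rev e)
    · have h : (typ s e.1 : ℝ) + typ s (rev e).1 = 2 := by exact_mod_cast tot_typ s e
      rw [hk e (mem_filter.1 he).1]
      linear_combination k e * h
    · have := congrArg Prod.snd h
      revert this
      obtain ⟨x, d⟩ := e
      fin_cases d <;> simp [rev]
    · obtain ⟨a, b, c⟩ := mem_filter.1 he
      exact mem_filter.2 ⟨rev_mem a, c, by rw [rev_rev]; exact b⟩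
  rw [this, zero_add, crs]

theorem tot_Tk (n : ℕ) (S : Finset P) (k : Ed → ℝ) (δ : Form R) :
    Tk n S k δ = ∑ x ∈ S, st n k x + ∑ e ∈ crs n S, ((nrm (δ e) : ℝ) - 1) * k e := by
  have h := tot_out n S (fun _ => 1) k
  simp only [one_mul] at h
  rw [← h, crs, ← filter_filter, sum_filter (fun e : Ed => (rev e).1 ∉ S), ← sum_add_distrib]
  refine sum_congr rfl fun e _ => ?_
  by_cases h' : (rev e).1 ∈ S
  · simp [h']
  · simp only [h', if_false, not_false_eq_true, if_true]; ring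

theorem tot_neu {n : ℕ} {S : Finset P} (hS : S ⊆ box n) {k : Ed → ℝ}
    (hk : ∀ e ∈ hes n, k (rev e) = k e) (h1 : ∀ x ∈ S, st n k x = 1) {δ : Form R} {s : Lab}
    (hc : ∀ e ∈ crs n S, nrm (δ e) = typ s e.1) : Tk n S k δ = ∑ x ∈ S, (typ s x : ℝ) := by
  have _ := hS
  have h2 : ∑ e ∈ crs n S, ((nrm (δ e) : ℝ) - 1) * k e =
      ∑ e ∈ crs n S, ((typ s e.1 : ℝ) - 1) * k e := sum_congr rfl fun e he => by rw [hc e he]
  rw [tot_Tk, h2, tot_inner n S hk, ← sum_add_distrib]
  exact sum_congr rfl fun x hx => by rw [h1 x hx]; ring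

theorem tot_ten {L m : ℕ} (hL : 10 ≤ L) {x : P} (hx : x ∈ box (L * m)) : 10 ≤ L * m := by
  rcases Nat.eq_zero_or_pos m with rfl | h
  · rw [mem_box] at hx; simp at hx; omega
  · nlinarith

theorem tot_sub {L m : ℕ} (hL : 1 ≤ L) {X : Finset P} (hX : X ⊆ box m) :
    under L X ⊆ box (L * m) := fun _ hx => (par_box hL).2 (hX ((mem_under hL).1 hx))

theorem nexp_neu {L m : ℕ} (hL : 10 ≤ L) {X : Finset P} (hX : X ⊆ box m)
    {σ : P → Option Lab} {s : Lab}
    (hσ : ∀ e ∈ crs (L * m) (under L X), σ (par L (rev e).1) = some s) :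
    nexp (L * m) L X σ + cor (L * m) (under L X) s = ∑ x ∈ under L X, (typ s x : ℝ) := by
  have hL1 : 1 ≤ L := by omega
  have h1 : ∑ e ∈ crs (L * m) (under L X), exc L σ e * cap (L * m) e =
      ∑ e ∈ crs (L * m) (under L X), ((typ s e.1 : ℝ) - 1) * cap (L * m) e :=
    sum_congr rfl fun e he => by simp [exc, hσ e he]
  have h2 : (L : ℝ) ^ 2 * X.card = ∑ _x ∈ under L X, (1 : ℝ) := by
    simp [card_under hL1]
  rw [nexp, h1, tot_inner _ _ fun e he => tot_cap_rev he, h2, cor, sum_filter, ← sum_add_distrib,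
    ← sum_add_distrib]
  refine sum_congr rfl fun x hx => ?_
  have hb := tot_sub hL1 hX hx
  rw [st_cap (tot_ten hL hb) hb]
  split_ifs <;> ring

/-- the edges at a site of a corner square stay in its tile -/
theorem tot_stay {L m : ℕ} (hL : 10 ≤ L) {e : Ed} (he : e ∈ hes (L * m)) (h : cq (L * m) e.1) :
    par L (rev e).1 = par L e.1 := by
  have hL1 : 1 ≤ L := by omega
  have key (a b : ℤ) (ha : 0 ≤ a ∧ a < (L * m : ℕ)) (hb : 0 ≤ b ∧ b < (L * m : ℕ))
      (hab : |a - b| ≤ (1 : ℕ)) (hq : a < 4 ∨ ((L * m : ℕ) : ℤ) - 4 ≤ a) : b / L = a / L := by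
    rw [abs_le] at hab
    push_cast at ha hb hq hab
    have e1 : ((m : ℤ) - 1) * L = L * m - L := by ring
    have e2 : ((m : ℤ) - 1 + 1) * L = L * m := by ring
    rcases hq with hq | hq
    · rw [Int.ediv_eq_zero_of_lt ha.1 (by omega), Int.ediv_eq_zero_of_lt hb.1 (by omega)]
    · rw [(div_eq_iff' hL1 (a := a) (b := m - 1)).2 (by rw [e1, e2]; omega),
        (div_eq_iff' hL1 (a := b) (b := m - 1)).2 (by rw [e1, e2]; omega)]
  obtain ⟨a, b⟩ := mem_hes.1 he
  rw [mem_box] at a b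
  exact Prod.ext (key _ _ a.1 b.1 (nr_rev e).1 h.1) (key _ _ a.2 b.2 (nr_rev e).2 h.2)

theorem tot_ncq {L m : ℕ} (hL : 10 ≤ L) {X : Finset P} {e : Ed}
    (he : e ∈ crs (L * m) (under L X)) : ¬ cq (L * m) e.1 := fun h => by
  obtain ⟨a, b, c⟩ := mem_filter.1 he
  rw [mem_under (by omega)] at b c
  exact c (by rw [tot_stay hL a h]; exact b)

theorem tot_st_sum {n : ℕ} (hn : 10 ≤ n) {S : Finset P} (hS : S ⊆ box n) :
    ∑ x ∈ S, st n (k0 n) x ≤ S.card + 1 := by
  have h0 := tot_out n S (fun _ => 1) (k0 n)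
  simp only [one_mul] at h0
  have h1 : ∑ e ∈ (hes n).filter (fun e => e.1 ∈ S),
      (if corner n e.1 then 4 / 3 else 1 : ℝ) * cap n e = S.card := by
    rw [tot_out n S (fun x => if corner n x then 4 / 3 else 1), card_eq_sum_ones, Nat.cast_sum]
    refine sum_congr rfl fun x hx => ?_
    rw [st_cap hn (hS hx)]
    split_ifs <;> norm_num
  have h2 : ∑ e ∈ hes n, (if corner n (rev e).1 then 1 / 8 else 0 : ℝ) ≤ 1 := by
    have a : ∑ e ∈ hes n, (if corner n (rev e).1 then 1 / 8 else 0 : ℝ) =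
        ∑ e ∈ (hes n).filter (fun e => e.1 ∈ (box n).filter (corner n)), (1 / 3 : ℝ) * cap n e := by
      rw [sum_filter]
      refine sum_bij' (fun e _ => rev e) (fun e _ => rev e) (fun e he => rev_mem he)
        (fun e he => rev_mem he) (fun e _ => rev_rev e) (fun e _ => rev_rev e) fun e he => ?_
      by_cases h : corner n (rev e).1
      · rw [if_pos h, if_pos (mem_filter.2 ⟨(mem_hes.1 he).2, h⟩), tot_cap_cor (rev_mem he) h]
        norm_num
      · rw [if_neg h, if_neg fun h' => h (mem_filter.1 h').2]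
    have b : ((box n).filter (corner n)).card ≤ 4 := by
      refine (card_le_card (t := ({0, (n : ℤ) - 1} : Finset ℤ) ×ˢ ({0, (n : ℤ) - 1} : Finset ℤ))
        fun x hx => ?_).trans ?_
      · simpa [corner] using (mem_filter.1 hx).2
      · rw [card_product]
        exact Nat.mul_le_mul card_le_two card_le_two
    rw [a, tot_out n _ (fun _ => 1 / 3), sum_congr rfl (g := fun _ => (1 / 4 : ℝ)) fun x hx => by
      rw [st_cap hn (mem_filter.1 hx).1, if_pos (mem_filter.1 hx).2]; norm_num]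
    have : (((box n).filter (corner n)).card : ℝ) ≤ 4 := by exact_mod_cast b
    rw [sum_const, nsmul_eq_mul]
    linarith
  have h3 : ∑ e ∈ (hes n).filter (fun e => e.1 ∈ S),
      (if corner n (rev e).1 then 1 / 8 else 0 : ℝ) ≤ 1 :=
    (sum_le_sum_of_subset_of_nonneg (filter_subset _ _) fun e _ _ => by
      split_ifs <;> norm_num).trans h2
  rw [← h0, ← h1]
  refine le_trans ?_ (add_le_add le_rfl h3)
  rw [← sum_add_distrib]
  refine sum_le_sum fun e he => ?_
  unfold k0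
  by_cases h : corner n e.1
  · rw [tot_cap_cor (mem_filter.1 he).1 h, if_pos (Or.inl h), if_pos h]
    split_ifs <;> norm_num
  · simp [h]

theorem tot_gen {L m : ℕ} (hL : 10 ≤ L) {X : Finset P} (hX : X ⊆ box m) {σ : P → Option Lab}
    {δ : Form R} (hc : ∀ e ∈ crs (L * m) (under L X),
      ∃ s, σ (par L (rev e).1) = some s ∧ nrm (δ e) = typ s e.1) :
    Tk (L * m) (under L X) (k0 (L * m)) δ ≤ nexp (L * m) L X σ + 1 := by
  have hL1 : 1 ≤ L := by omega
  have h1 : ∑ e ∈ crs (L * m) (under L X), ((nrm (δ e) : ℝ) - 1) * k0 (L * m) e =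
      ∑ e ∈ crs (L * m) (under L X), exc L σ e * cap (L * m) e := by
    refine sum_congr rfl fun e he => ?_
    obtain ⟨s, s1, s2⟩ := hc e he
    rw [k0, if_neg fun h => tot_ncq hL he (tot_cq h), s2]
    simp [exc, s1]
  have h2 : ∑ x ∈ under L X, st (L * m) (k0 (L * m)) x ≤ (under L X).card + 1 := by
    rcases (under L X).eq_empty_or_nonempty with h | ⟨x, hx⟩
    · simp [h]
    · exact tot_st_sum (tot_ten hL (tot_sub hL1 hX hx)) (tot_sub hL1 hX)
  rw [card_under hL1] at h2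
  push_cast at h2
  rw [tot_Tk, h1, nexp]
  linarith

theorem tot_par_nr {L : ℕ} (hL : 1 ≤ L) {a b : P} (h : nr 1 a b) : nr 1 (par L a) (par L b) := by
  have h0 : (0 : ℤ) < L := by omega
  have k1 (a b : ℤ) (h : a ≤ b + 1) : a / L ≤ b / L + 1 := by
    rw [← Int.add_mul_ediv_right _ _ h0.ne']
    exact Int.ediv_le_ediv h0 (by omega)
  simp only [nr, par, abs_le, Nat.cast_one] at h ⊢
  have := k1 a.1 b.1 (by omega)
  have := k1 b.1 a.1 (by omega)
  have := k1 a.2 b.2 (by omega)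
  have := k1 b.2 a.2 (by omega)
  omega

theorem adm_crs {L m : ℕ} (hL : 10 ≤ L) {X : Finset P} (hX : X ⊆ box m) {σ : P → Option Lab}
    {ω : Om} {δ : Form R} (hδ : δ ∈ adm R (L * m) L m ω X σ) :
    ∀ e ∈ crs (L * m) (under L X), par L (rev e).1 ∈ bdry (box m) X ∧
      ∃ s, σ (par L (rev e).1) = some s ∧ nrm (δ e) = typ s e.1 := by
  intro e he
  have _ := hX
  have hL1 : 1 ≤ L := by omega
  obtain ⟨a, b, c⟩ := mem_filter.1 he
  have hn := tot_par_nr hL1 (nr_rev e)
  have hb : par L (rev e).1 ∈ bdry (box m) X :=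
    mem_sdiff.2 ⟨mem_filter.2 ⟨(par_box hL1).1 (mem_hes.1 a).2, _, (mem_under hL1).1 b, hn⟩,
      fun h => c ((mem_under hL1).2 h)⟩
  obtain ⟨s, f, s1, s2, s3⟩ := (mem_filter.1 hδ).2.1 _ hb
  refine ⟨hb, s, s1, ?_⟩
  rw [s3 e a b ((mem_cell hL1).2 rfl), nrm_neg]
  exact (s2.1 _ (mem_filter.2 ⟨(mem_under hL1).1 b, _, mem_singleton_self _, nr_symm hn⟩)).1 _
    ((mem_cell hL1).2 rfl) (tot_ncq hL he)

theorem pur_crs {L m : ℕ} (hL : 10 ≤ L) {T : P} (hT : T ∈ box m) {s : Lab} {ω : Om}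
    {δ : Form R} (hδ : δ ∈ pur R (L * m) L ω s T) : vort (L * m) δ = ∅ ∧
      ∀ e ∈ crs (L * m) (cell L T), nrm (δ e) = typ s e.1 := by
  have _ := hT
  obtain ⟨hf, a, ⟨h1, h2⟩, h3⟩ := mem_filter.1 hδ
  have hF := fm_of_forms hf
  have hu : under L {T} = cell L T := by simp [under]
  rw [hu] at h2
  constructor
  · have hg : ∀ e ∈ hes (L * m), δ e = (if (rev e).1 ∈ cell L T then a (rev e).1 else 0) -
        if e.1 ∈ cell L T then a e.1 else 0 := by
      intro e he
      by_cases p : e.1 ∈ cell L T <;> by_cases q : (rev e).1 ∈ cell L T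
      · rw [if_pos p, if_pos q]; exact h2 e he p q
      · rw [if_pos p, if_neg q, h3 e he p q, zero_sub]
      · have := h3 _ (rev_mem he) q (by rw [rev_rev]; exact p)
        rw [hF.asy, neg_inj] at this
        rw [if_neg p, if_pos q, this, sub_zero]
      · rw [if_neg p, if_neg q, sub_zero]
        exact hF.off e fun h => (mem_filter.1 h).2.elim p q
    refine filter_eq_empty_iff.2 fun p hp => not_not.2 (funext fun i => ?_)
    have := clo_of_gr (n := L * m) (β := fun e => δ e i)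
      (f := fun x => (if x ∈ cell L T then a x else 0) i) (fun e he => congrFun (hg e he) i) p hp
    simpa [curl] using this
  · intro e he
    obtain ⟨p, q, r⟩ := mem_filter.1 he
    rw [h3 e p q r, nrm_neg]
    exact (h1 T (mem_singleton_self _)).1 _ q (tot_ncq hL (X := {T}) (by rw [hu]; exact he))

end Pool.Agent.Lib.MP_9cc147_pr.Cx.Pe
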