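import Pool.Agent.Lib.MP_9cc147_pr.Cx.Pe.Loc
import Pool.Agent.Lib.MP_9cc147_pr.Cx.Pe.Tot

/-! Two phases on the boundary cost a lossy edge on every cross. -/

open scoped Classical
open Finset

noncomputable section
namespace Pool.Agent.Lib.MP_9cc147_pr.Cx.Pe

/-- the line of an edge, modulo the side of a tile -/
def crsIdx (L : ℕ) (e : Ed) : ℤ := if e.2 = 0 ∨ e.2 = 2 then e.1.2 % L else e.1.1 % L
def crsSg (x : P) (a : ℕ) : ℤ := if Even (x.1 + x.2) then (a : ℤ) - 1 else 1 - a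
def crsVal (s : Lab) : ℤ := if s = 0 then 0 else if s = 1 then 1 else -1
/-- the point at distance `t` from the centre of the cross `i` of the tile `T` -/
def crsPt (L : ℕ) (i : ℤ) (T : P) (d : Fin 4) (t : ℕ) : P :=
  (T.1 * L + i + t * (dir d).1, T.2 * L + i + t * (dir d).2)

theorem crs_val_inj {s t : Lab} (h : crsVal s = crsVal t) : s = t := by
  revert s t; decide

theorem crs_sg_typ (s : Lab) (x : P) : crsSg x (typ s x) = crsVal s := by
  unfold crsSg typ crsVal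
  by_cases h : Even (x.1 + x.2) <;> by_cases h0 : s = 0 <;> by_cases h1 : s = 1 <;> simp [h, h0, h1]

theorem crs_sg_step (x : P) (d : Fin 4) {a b : ℕ} (h : a + b = 2) :
    crsSg (x + dir d) b = crsSg x a := by
  have hp : Even ((x + dir d).1 + (x + dir d).2) ↔ ¬ Even (x.1 + x.2) := by
    fin_cases d <;> simp [dir, Int.even_iff] <;> omega
  unfold crsSg
  by_cases h' : Even (x.1 + x.2)
  · rw [if_neg (by rw [hp]; exact not_not.2 h'), if_pos h']; omega
  · rw [if_pos (hp.2 h'), if_neg h']; omega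

theorem crs_pt_succ (L : ℕ) (i : ℤ) (T : P) (d : Fin 4) (t : ℕ) :
    crsPt L i T d (t + 1) = crsPt L i T d t + dir d := by
  ext <;> simp [crsPt] <;> ring

theorem crs_pt_end (L : ℕ) (i : ℤ) (T : P) (d : Fin 4) :
    crsPt L i T d L = crsPt L i (T + dir d) 0 0 := by
  ext <;> simp [crsPt] <;> ring

theorem crs_pt_zero (L : ℕ) (i : ℤ) (T : P) (d : Fin 4) :
    crsPt L i T d 0 = crsPt L i T 0 0 := by
  ext <;> simp [crsPt]

theorem crs_par_zero {L : ℕ} {i : ℤ} (h0 : 0 ≤ i) (h1 : i < L) (T : P) :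
    par L (crsPt L i T 0 0) = T := by
  have hL : 1 ≤ L := by omega
  rw [← mem_cell hL]
  simp only [cell, crsPt, mem_product, mem_Ico, add_mul, one_mul, Nat.cast_zero, zero_mul, add_zero]
  omega

theorem crs_par {L : ℕ} {i : ℤ} (h0 : 0 ≤ i) (h1 : i < L) (T : P) (d : Fin 4) {t : ℕ}
    (ht : t ≤ L) : par L (crsPt L i T d t) = T ∨ par L (crsPt L i T d t) = T + dir d := by
  have hL : 1 ≤ L := by omega
  rw [← mem_cell hL, ← mem_cell hL]
  fin_cases d <;>
    simp [cell, crsPt, dir, add_mul] <;> omega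

theorem crs_idx {L : ℕ} {i : ℤ} (h0 : 0 ≤ i) (h1 : i < L) (T : P) (d : Fin 4) (t : ℕ) :
    crsIdx L (crsPt L i T d t, d) = i := by
  have h (a : ℤ) : (a * L + i) % L = i := by
    rw [add_comm, Int.add_mul_emod_self_right]; exact Int.emod_eq_of_lt h0 h1
  fin_cases d <;> simp [crsIdx, crsPt, dir, h]

theorem crs_ncq {L m : ℕ} {i : ℤ} (h0 : 4 ≤ i) (h1 : i + 4 < L) {T : P} (hT : T ∈ box m)
    (d : Fin 4) (t : ℕ) : ¬ cq (L * m) (crsPt L i T d t) := by
  simp only [box, mem_product, mem_Ico] at hT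
  have h (a : ℤ) (ha : 0 ≤ a) (hb : a < m) : 0 ≤ a * L ∧ a * L + L ≤ L * m := by
    constructor
    · positivity
    · have : (0 : ℤ) ≤ L := by positivity
      nlinarith
  have a1 := h _ hT.1.1 hT.1.2
  have a2 := h _ hT.2.1 hT.2.2
  fin_cases d <;> simp [cq, crsPt, dir] <;> omega

variable {R : ℕ}

theorem crs_wd {n ρ : ℕ} (hn : 10 ≤ n) (δ : Form R) (e : Ed) : wd n ρ (k0 n) δ e = 0 := by
  unfold wd
  refine sum_eq_zero fun i hi => ?_
  obtain ⟨-, e', hd, hk, hq, -⟩ := (mem_filter.1 hi).2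
  exact absurd ((gau_zero hn (S := ∅) (empty_subset _)).2 e' hd.1 hk) hq

theorem crs_walk {L m ρ : ℕ} (hL : 20 ≤ L) (hρ : 1 ≤ ρ) {X : Finset P} (hX : X ⊆ box m)
    {ω : Om} {σ : P → Option Lab} {δ : Form R} (hδ : δ ∈ adm R (L * m) L m ω X σ)
    {i : ℤ} (h0 : 4 ≤ i) (h1 : i + 4 < L)
    (hi : ∀ e ∈ Ls (L * m) ρ (under L X) (k0 (L * m)) δ, crsIdx L e ≠ i)
    {T : P} (hT : T ∈ X) (d : Fin 4) (hT' : T + dir d ∈ box m) :
    (T + dir d ∈ X → crsSg (crsPt L i (T + dir d) 0 0) (ns (L * m) ρ δ (crsPt L i (T + dir d) 0 0)) =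
      crsSg (crsPt L i T 0 0) (ns (L * m) ρ δ (crsPt L i T 0 0))) ∧
    (T + dir d ∉ X → ∃ s, σ (T + dir d) = some s ∧
      crsVal s = crsSg (crsPt L i T 0 0) (ns (L * m) ρ δ (crsPt L i T 0 0))) := by
  have hL1 : 1 ≤ L := by omega
  have hm : 1 ≤ m := by
    have := hX hT
    simp only [box, mem_product, mem_Ico] at this
    omega
  have hn : 10 ≤ L * m := by nlinarith
  have hF : Fm (L * m) (under L X) δ := fm_of_forms (mem_filter.1 hδ).1
  have i0 : 0 ≤ i := by omega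
  have i1 : i < L := by omega
  have hbox (t : ℕ) (ht : t ≤ L) : crsPt L i T d t ∈ box (L * m) := by
    rw [par_box hL1]
    rcases crs_par i0 i1 T d ht with h | h <;> rw [h]
    exacts [hX hT, hT']
  have hrev (t : ℕ) : (rev (crsPt L i T d t, d)).1 = crsPt L i T d (t + 1) :=
    (crs_pt_succ L i T d t).symm
  have hed (t : ℕ) (ht : t + 1 ≤ L) : (crsPt L i T d t, d) ∈ hes (L * m) :=
    mem_hes.2 ⟨hbox t (by omega), by rw [hrev]; exact hbox _ ht⟩
  have hid (t : ℕ) (ht : t + 1 ≤ L) (hS : crsPt L i T d t ∈ under L X) :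
      nrm (δ (crsPt L i T d t, d)) = ns (L * m) ρ δ (crsPt L i T d t) +
        ns (L * m) ρ δ (crsPt L i T d (t + 1)) ∧
      (crsPt L i T d (t + 1) ∈ under L X → δ (crsPt L i T d t, d) ≠ 0) := by
    have hl : ¬ lossy (L * m) ρ (under L X) (k0 (L * m)) δ (crsPt L i T d t, d) := fun h =>
      hi _ (mem_filter.2 ⟨hed t ht, hS, h⟩) (crs_idx i0 i1 T d t)
    unfold lossy at hl
    push Not at hl
    have := edge_id hn hρ hF (k := k0 (L * m)) (hed t ht) (crs_ncq h0 h1 (hX hT) d t)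
      (by rw [hrev]; exact crs_ncq h0 h1 (hX hT) d _) hl.2
    rw [crs_wd hn, hrev] at this
    exact ⟨this, by rw [← hrev]; exact hl.1⟩
  have hw (t : ℕ) (ht : t ≤ L) (hS : ∀ t' ≤ t, crsPt L i T d t' ∈ under L X) :
      crsSg (crsPt L i T d t) (ns (L * m) ρ δ (crsPt L i T d t)) =
        crsSg (crsPt L i T 0 0) (ns (L * m) ρ δ (crsPt L i T 0 0)) := by
    induction t with
    | zero => rw [crs_pt_zero]
    | succ t ih =>
      obtain ⟨a, b⟩ := hid t ht (hS t (by omega))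
      have c := (hF.ins _ (hed t ht) (hS t (by omega))
        (by rw [hrev]; exact hS _ le_rfl)).resolve_left (b (hS _ le_rfl))
      rw [← ih (by omega) fun t' h => hS t' (by omega)]
      have := crs_sg_step (crsPt L i T d t) d (a.symm.trans c)
      rwa [← crs_pt_succ] at this
  constructor
  · intro h
    rw [← crs_pt_end]
    refine hw L le_rfl fun t ht => (mem_under hL1).2 ?_
    rcases crs_par i0 i1 T d ht with h' | h' <;> rw [h'] <;> assumption
  · intro h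
    have hex : ∃ t, crsPt L i T d t ∉ under L X :=
      ⟨L, by rw [mem_under hL1, crs_pt_end, crs_par_zero i0 i1]; exact h⟩
    have hle : Nat.find hex ≤ L :=
      Nat.find_min' hex (by rw [mem_under hL1, crs_pt_end, crs_par_zero i0 i1]; exact h)
    have hne : Nat.find hex ≠ 0 := by
      intro h'
      have := Nat.find_spec hex
      rw [h', mem_under hL1, crs_pt_zero, crs_par_zero i0 i1] at this
      exact this hT
    obtain ⟨t, ht⟩ := Nat.exists_eq_succ_of_ne_zero hne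
    have hout : crsPt L i T d (t + 1) ∉ under L X := by
      have := Nat.find_spec hex
      rwa [ht] at this
    have hin (t' : ℕ) (h' : t' ≤ t) : crsPt L i T d t' ∈ under L X :=
      not_not.1 (Nat.find_min hex (by omega))
    have htL : t + 1 ≤ L := by omega
    obtain ⟨-, s, hs, hn'⟩ := adm_crs (by omega) hX hδ (crsPt L i T d t, d)
      (mem_filter.2 ⟨hed t htL, hin t le_rfl, by rw [hrev]; exact hout⟩)
    have hp : par L (crsPt L i T d (t + 1)) = T + dir d :=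
      (crs_par i0 i1 T d htL).resolve_left fun h' => hout ((mem_under hL1).2 (by rw [h']; exact hT))
    rw [hrev, hp] at hs
    refine ⟨s, hs, ?_⟩
    have a := (hid t htL (hin t le_rfl)).1
    rw [ns_out hρ hF (sol_under (by omega) X) hout, add_zero, hn'] at a
    rw [← hw t (by omega) hin, ← a, crs_sg_typ]

theorem crs_side {a b : P} (h : nr 1 a b) (h' : a.1 = b.1 ∨ a.2 = b.2) :
    b = a ∨ ∃ d, b = a + dir d := by
  obtain ⟨a1, a2⟩ := a
  obtain ⟨b1, b2⟩ := b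
  simp only [nr, abs_le, Nat.cast_one] at h h'
  simp only [Fin.exists_fin_succ, dir, Prod.mk.injEq]
  simp
  omega

theorem crs_lem {R L m ρ : ℕ} (hL : 20 ≤ L) (hρ : 1 ≤ ρ) {X : Finset P} (hX : Pm m X)
    {ω : Om} {σ : P → Option Lab} {δ : Form R} (hδ : δ ∈ adm R (L * m) L m ω X σ)
    (hb : (bdry (box m) X).Nonempty) (hN : Nn (box m) X σ) (hc : Lc (box m) X σ) :
    L ≤ (Ls (L * m) ρ (under L X) (k0 (L * m)) δ).card + 8 := by
  have key : Ico (4 : ℤ) (L - 4) ⊆ (Ls (L * m) ρ (under L X) (k0 (L * m)) δ).image (crsIdx L) := by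
    intro i hi
    rw [mem_Ico] at hi
    by_contra hcon
    have hi' : ∀ e ∈ Ls (L * m) ρ (under L X) (k0 (L * m)) δ, crsIdx L e ≠ i := fun e he h =>
      hcon (mem_image.2 ⟨e, he, h⟩)
    set Φ : P → ℤ := fun T => crsSg (crsPt L i T 0 0) (ns (L * m) ρ δ (crsPt L i T 0 0)) with hΦ
    have hs (a b : P) (ha : a ∈ X) (hbb : b ∈ box m) (h : nr 1 a b) (h' : a.1 = b.1 ∨ a.2 = b.2) :
        (b ∈ X → Φ b = Φ a) ∧ (b ∉ X → ∃ s, σ b = some s ∧ crsVal s = Φ a) := by
      rcases crs_side h h' with rfl | ⟨d, rfl⟩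
      · exact ⟨fun _ => rfl, fun h => absurd ha h⟩
      · exact crs_walk hL hρ hX.1 hδ hi.1 (by omega) hi' ha d hbb
    have hmid (a b : P) (ha : a ∈ box m) (hbb : b ∈ box m) (h : nr 1 a b) :
        ((b.1, a.2) : P) ∈ box m ∧ nr 1 a (b.1, a.2) ∧ nr 1 b (b.1, a.2) ∧ nr 1 (b.1, a.2) b := by
      simp only [box, mem_product] at ha hbb ⊢
      simp only [nr, abs_le, Nat.cast_one] at h ⊢
      refine ⟨⟨hbb.1, ha.2⟩, ?_⟩
      omega
    have hd (a b : P) (ha : a ∈ X) (hbX : b ∈ X) (h : nr 1 a b) : Φ b = Φ a := by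
      obtain ⟨m1, m2, m3, m4⟩ := hmid a b (hX.1 ha) (hX.1 hbX) h
      have p := hs a _ ha m1 m2 (Or.inr rfl)
      have q := hs b _ hbX m1 m3 (Or.inl rfl)
      by_cases hm : ((b.1, a.2) : P) ∈ X
      · rw [← p.1 hm, ← q.1 hm]
      · obtain ⟨s, s1, s2⟩ := p.2 hm
        obtain ⟨t, t1, t2⟩ := q.2 hm
        rw [← s2, ← t2, Option.some.inj (s1.symm.trans t1)]
    have hall (a b : P) (ha : a ∈ X) (hbX : b ∈ X) : Φ b = Φ a := by
      have := hX.2.2 a ha b hbX
      clear hbX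
      induction this with
      | refl => rfl
      | tail _ h ih => rw [← ih]; exact hd _ _ h.1 h.2.1 h.2.2
    obtain ⟨a0, ha0⟩ := hX.2.1
    have hbd (b : P) (hbb : b ∈ bdry (box m) X) : ∃ s, σ b = some s ∧ crsVal s = Φ a0 := by
      obtain ⟨h1, h2⟩ := mem_sdiff.1 hbb
      obtain ⟨h3, a, ha, h4⟩ := mem_filter.1 h1
      obtain ⟨m1, m2, m3, m4⟩ := hmid a b (hX.1 ha) h3 h4
      by_cases hm : ((b.1, a.2) : P) ∈ X
      · obtain ⟨s, s1, s2⟩ := (hs _ b hm h3 m4 (Or.inl rfl)).2 h2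
        exact ⟨s, s1, s2.trans (hall _ _ ha0 hm)⟩
      · obtain ⟨s, s1, s2⟩ := (hs a _ ha m1 m2 (Or.inr rfl)).2 hm
        refine ⟨s, ?_, s2.trans (hall _ _ ha0 ha)⟩
        rw [hc b hbb _ (mem_sdiff.2 ⟨mem_filter.2 ⟨m1, a, ha, m2⟩, hm⟩) m3, s1]
    obtain ⟨b0, hb0⟩ := hb
    obtain ⟨s0, -, e0⟩ := hbd b0 hb0
    refine hN.1 ⟨⟨b0, hb0⟩, s0, funext fun b => ?_⟩
    unfold cst
    split_ifs with h
    · obtain ⟨s, s1, s2⟩ := hbd b h
      rw [s1, crs_val_inj (s2.trans e0.symm)]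
    · exact hN.2 b h
  have h1 := (card_le_card key).trans card_image_le
  rw [Int.card_Ico] at h1
  omega

end Pool.Agent.Lib.MP_9cc147_pr.Cx.Pe
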