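import Pool.Agent.Lib.MP_9cc147_pr.Cx.S2

/-! Slot counting: clusters of a generator, capacities, tame clusters, lossy edges. -/

open scoped Classical
open Finset

noncomputable section
namespace Pool.Agent.Lib.MP_9cc147_pr.Cx.Pe

abbrev Ed := P × Fin 4
/-- antisymmetric integer forms on the edges of the box -/
def Asy (n : ℕ) (β : Ed → ℤ) : Prop := (∀ e, β (rev e) = -β e) ∧ ∀ e, e ∉ hes n → β e = 0
def Clo (n : ℕ) (β : Ed → ℤ) : Prop := ∀ p ∈ inn n, curl β p = 0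
/-- `β` is the gradient of `f` on the box -/
def Gr (n : ℕ) (β : Ed → ℤ) (f : P → ℤ) : Prop := ∀ e ∈ hes n, β e = f (rev e).1 - f e.1
def ind (A : Finset P) (c : ℤ) : P → ℤ := fun x => if x ∈ A then c else 0
/-- capacity of a form (each edge has two orientations) -/
def cw (n : ℕ) (k : Ed → ℝ) (β : Ed → ℤ) : ℝ := (1 / 2) * ∑ e ∈ hes n, k e * |(β e : ℝ)|
def len (n : ℕ) (β : Ed → ℤ) : ℝ := (1 / 2) * ∑ e ∈ hes n, |(β e : ℝ)|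
def Star (n : ℕ) (β : Ed → ℤ) (x : P) : Prop :=
  x ∈ box n ∧ ∃ c : ℤ, (c = 1 ∨ c = -1) ∧ Gr n β (ind {x} c)
def Cqt (n : ℕ) (β : Ed → ℤ) : Prop := ∃ f, Gr n β f ∧ ∀ x, f x ≠ 0 → x ∈ box n ∧ cq n x
def Dom (n : ℕ) (β : Ed → ℤ) (e : Ed) : Prop :=
  e ∈ hes n ∧ ¬ deep 1 n e.1 ∧ ¬ deep 1 n (rev e).1 ∧
    ∃ c : ℤ, (c = 1 ∨ c = -1) ∧ Gr n β (ind {e.1, (rev e).1} c)
/-- a domino of capacity one away from the corner squares -/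
def Dmk (n : ℕ) (k : Ed → ℝ) (β : Ed → ℤ) : Prop :=
  ∃ e, Dom n β e ∧ k e = 1 / 2 ∧ ¬ cq n e.1 ∧ ¬ cq n (rev e).1
def Tame (n : ℕ) (k : Ed → ℝ) (β : Ed → ℤ) : Prop := (∃ x, Star n β x) ∨ Cqt n β ∨ Dmk n k β
/-- capacity at a site -/
def st (n : ℕ) (k : Ed → ℝ) (x : P) : ℝ := ∑ d ∈ univ.filter (fun d => (x, d) ∈ hes n), k (x, d)
structure Gau (n : ℕ) (S : Finset P) (k : Ed → ℝ) : Prop where
  sym : ∀ e ∈ hes n, k (rev e) = k e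
  low : ∀ e ∈ hes n, 7 / 32 ≤ k e
  lcq : ∀ e ∈ hes n, cq n e.1 → 1 / 4 ≤ k e
  cor : ∀ e ∈ hes n, corner n e.1 → k e = 1 / 2
  one : ∀ x ∈ S, 1 ≤ st n k x
  gap : ∀ e ∈ hes n, k e = 1 / 2 ∨ k e ≤ 15 / 32
  two : ∀ x ∈ S, ∀ d d', (x, d) ∈ hes n → (x, d') ∈ hes n → d ≠ d' → ¬ cq n x →
    k (x, d) = 1 / 2 → k (x, d') ≠ 1 / 2
  cqh : ∀ e ∈ hes n, k e = 1 / 2 → (cq n e.1 ↔ cq n (rev e).1)
/-- every site outside `S` has two neighbours outside `S` -/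
def Sol (n : ℕ) (S : Finset P) : Prop := ∀ x ∈ box n, x ∉ S → ∃ d d', d ≠ d' ∧
  (x, d) ∈ hes n ∧ (x, d') ∈ hes n ∧ x + dir d ∉ S ∧ x + dir d' ∉ S
/-- the capacities for polymers of the second class -/
def k0 (n : ℕ) (e : Ed) : ℝ := cap n e + if corner n e.1 ∨ corner n (rev e).1 then 1 / 8 else 0

variable {R : ℕ}
/-- what is used of `forms` -/
structure Fm (n : ℕ) (S : Finset P) (δ : Form R) : Prop where
  asy : ∀ e, δ (rev e) = -δ e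
  off : ∀ e, e ∉ he n S → δ e = 0
  le : ∀ e, nrm (δ e) ≤ 2
  ins : ∀ e ∈ hes n, e.1 ∈ S → (rev e).1 ∈ S → δ e = 0 ∨ nrm (δ e) = 2
def lk (ρ : ℕ) (δ : Form R) (i : Fin (ng R)) (e e' : Ed) : Prop :=
  δ e i ≠ 0 ∧ δ e' i ≠ 0 ∧ nr ρ e.1 e'.1
def cl (n ρ : ℕ) (δ : Form R) (i : Fin (ng R)) (e : Ed) : Finset Ed :=
  (hes n).filter (Relation.ReflTransGen (lk ρ δ i) e)
def Cls (n ρ : ℕ) (δ : Form R) : Finset (Fin (ng R) × Finset Ed) :=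
  ((univ ×ˢ hes n).filter fun y : Fin (ng R) × Ed => δ y.2 y.1 ≠ 0).image
    fun y => (y.1, cl n ρ δ y.1 y.2)
def bet (δ : Form R) (c : Fin (ng R) × Finset Ed) : Ed → ℤ :=
  fun e => if e ∈ c.2 then δ e c.1 else 0
/-- the form of the cluster of the generator `i` through the edge `e` -/
def bt (n ρ : ℕ) (δ : Form R) (i : Fin (ng R)) (e : Ed) : Ed → ℤ := bet δ (i, cl n ρ δ i e)
def expo (n ρ : ℕ) (δ : Form R) : ℝ := ∑ c ∈ Cls n ρ δ, (mu R c.1 : ℝ)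
def lossy (n ρ : ℕ) (S : Finset P) (k : Ed → ℝ) (δ : Form R) (e : Ed) : Prop :=
  ((rev e).1 ∈ S ∧ δ e = 0) ∨ ∃ i, δ e i ≠ 0 ∧ ¬ Tame n k (bt n ρ δ i e)
def Ls (n ρ : ℕ) (S : Finset P) (k : Ed → ℝ) (δ : Form R) : Finset Ed :=
  (hes n).filter fun e => e.1 ∈ S ∧ lossy n ρ S k δ e
/-- total capacity of the slots -/
def Tk (n : ℕ) (S : Finset P) (k : Ed → ℝ) (δ : Form R) : ℝ :=
  ∑ e ∈ (hes n).filter (fun e => e.1 ∈ S), (if (rev e).1 ∈ S then 1 else (nrm (δ e) : ℝ)) * k e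
/-- the generator `i` has a star at `x` -/
def Sx (n ρ : ℕ) (δ : Form R) (x : P) (i : Fin (ng R)) : Prop :=
  ∃ c ∈ Cls n ρ δ, c.1 = i ∧ Star n (bet δ c) x
def ns (n ρ : ℕ) (δ : Form R) (x : P) : ℕ := ∑ i ∈ univ.filter (Sx n ρ δ x), mu R i
/-- weight of the dominoes through an edge -/
def wd (n ρ : ℕ) (k : Ed → ℝ) (δ : Form R) (e : Ed) : ℕ :=
  ∑ i ∈ univ.filter (fun i => δ e i ≠ 0 ∧ Dmk n k (bt n ρ δ i e)), mu R i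
def Fin0 (n : ℕ) (β : Ed → ℤ) (f : P → ℤ) : Prop := Gr n β f ∧
  ((∃ y ∈ box n, ∃ c : ℤ, (c = 1 ∨ c = -1) ∧ f = ind {y} c) ∨ ∀ x, f x ≠ 0 → x ∈ box n ∧ cq n x)
def pot (n : ℕ) (β : Ed → ℤ) : P → ℤ := if h : ∃ f, Fin0 n β f then h.choose else 0
/-- the labels read off from the stars and the corner clusters -/
def lbl (n ρ : ℕ) (δ : Form R) (x : P) : Gp R :=
  fun i => ∑ c ∈ (Cls n ρ δ).filter (fun c => c.1 = i), pot n (bet δ c) x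

end Pool.Agent.Lib.MP_9cc147_pr.Cx.Pe
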