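import Pool.Agent.Lib.MP_9cc147_pr.Cx.Pe.Loc

/-! No tame domino where nothing is lost. -/

open scoped Classical
open Finset

noncomputable section
namespace Pool.Agent.Lib.MP_9cc147_pr.Cx.Pe

theorem dmx_div {L a q : ℤ} (hL : 0 < L) (h1 : q * L ≤ a) (h2 : a < (q + 1) * L) : a / L = q :=
  le_antisymm (Int.lt_add_one_iff.1 (Int.ediv_lt_of_lt_mul hL h2)) (Int.le_ediv_of_mul_le hL h1)

theorem dmx_box {n : ℕ} {x : P} : x ∈ box n ↔ (0 ≤ x.1 ∧ x.1 < n) ∧ 0 ≤ x.2 ∧ x.2 < n := by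
  simp [box, mem_product]

theorem dmx_dir (d : Fin 4) : -1 ≤ (dir d).1 ∧ (dir d).1 ≤ 1 ∧ -1 ≤ (dir d).2 ∧ (dir d).2 ≤ 1 := by
  fin_cases d <;> simp [dir]

/-- the inward direction at two neighbouring sites of a side -/
theorem dmx_geo {L m : ℕ} (hL : 10 ≤ L) {u : P} {d : Fin 4} (hu : u ∈ box (L * m))
    (hv : u + dir d ∈ box (L * m)) (du : ¬ deep 1 (L * m) u) (dv : ¬ deep 1 (L * m) (u + dir d))
    (cu : ¬ cq (L * m) u) (cv : ¬ cq (L * m) (u + dir d)) :
    ∃ f : Fin 4, ∀ x, x = u ∨ x = u + dir d →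
      deep 1 (L * m) (x + dir f) ∧ par L (x + dir f) = par L x ∧ ¬ cq (L * m) (x + dir f) := by
  have hd := dmx_dir d
  have hL0 : (0 : ℤ) < L := by omega
  have d0 : (0 + 1 : ℤ) / L = 0 / L := by
    rw [dmx_div (q := 0) hL0 (by omega) (by omega), Int.zero_ediv]
  have hm : (((m : ℤ) - 1) * L = (L * m : ℕ) - L) ∧ ((m : ℤ) - 1 + 1) * L = (L * m : ℕ) := by
    push_cast; constructor <;> ring
  have d1 : (((L * m : ℕ) : ℤ) - 1 + -1) / L = (((L * m : ℕ) : ℤ) - 1) / L := by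
    rw [dmx_div (q := m - 1) hL0 (by omega) (by omega),
      dmx_div (q := m - 1) hL0 (by omega) (by omega)]
  generalize L * m = n at *
  generalize hw : u + dir d = v at *
  have h1 : v.1 = u.1 + (dir d).1 := by rw [← hw]; rfl
  have h2 : v.2 = u.2 + (dir d).2 := by rw [← hw]; rfl
  rw [dmx_box] at hu hv
  simp only [deep, cq] at du dv cu cv
  have hc : (u.1 = 0 ∧ v.1 = 0) ∨ (u.1 = n - 1 ∧ v.1 = n - 1) ∨ (u.2 = 0 ∧ v.2 = 0) ∨
      (u.2 = n - 1 ∧ v.2 = n - 1) := by omega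
  rcases hc with hc | hc | hc | hc
  · refine ⟨0, fun x hx => ?_⟩
    have e : x.1 = 0 := by rcases hx with rfl | rfl <;> omega
    have e0 : x + dir 0 = (x.1 + 1, x.2) := by ext <;> simp [dir]
    rw [e0]
    refine ⟨?_, ?_, ?_⟩
    · simp only [deep]; rcases hx with rfl | rfl <;> omega
    · simp only [par, e, d0]
    · simp only [cq]; rcases hx with rfl | rfl <;> omega
  · refine ⟨2, fun x hx => ?_⟩
    have e : x.1 = n - 1 := by rcases hx with rfl | rfl <;> omega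
    have e0 : x + dir 2 = (x.1 + -1, x.2) := by ext <;> simp [dir]
    rw [e0]
    refine ⟨?_, ?_, ?_⟩
    · simp only [deep]; rcases hx with rfl | rfl <;> omega
    · simp only [par, e, d1]
    · simp only [cq]; rcases hx with rfl | rfl <;> omega
  · refine ⟨1, fun x hx => ?_⟩
    have e : x.2 = 0 := by rcases hx with rfl | rfl <;> omega
    have e0 : x + dir 1 = (x.1, x.2 + 1) := by ext <;> simp [dir]
    rw [e0]
    refine ⟨?_, ?_, ?_⟩
    · simp only [deep]; rcases hx with rfl | rfl <;> omega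
    · simp only [par, e, d0]
    · simp only [cq]; rcases hx with rfl | rfl <;> omega
  · refine ⟨3, fun x hx => ?_⟩
    have e : x.2 = n - 1 := by rcases hx with rfl | rfl <;> omega
    have e0 : x + dir 3 = (x.1, x.2 + -1) := by ext <;> simp [dir]
    rw [e0]
    refine ⟨?_, ?_, ?_⟩
    · simp only [deep]; rcases hx with rfl | rfl <;> omega
    · simp only [par, e, d1]
    · simp only [cq]; rcases hx with rfl | rfl <;> omega

theorem dmx_deep_box {n : ℕ} {x : P} (h : deep 1 n x) : x ∈ box n := by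
  rw [dmx_box]; simp only [deep] at h; omega

/-- an edge on which the gradient of an indicator does not vanish has exactly one end inside -/
theorem dmx_cut {n : ℕ} {β : Ed → ℤ} {A : Finset P} {c : ℤ} (h : Gr n β (ind A c)) {e : Ed}
    (he : e ∈ hes n) (h0 : β e ≠ 0) :
    (e.1 ∈ A ∧ (rev e).1 ∉ A) ∨ (e.1 ∉ A ∧ (rev e).1 ∈ A) := by
  rw [h e he] at h0
  by_cases h1 : e.1 ∈ A <;> by_cases h2 : (rev e).1 ∈ A <;> simp [ind, h1, h2] at h0 ⊢

theorem dmx_bt {R n ρ : ℕ} {δ : Form R} {i : Fin (ng R)} {e : Ed} (he : e ∈ hes n) :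
    bt n ρ δ i e e = δ e i := by
  simp only [bt, bet, if_pos (mem_cl_self he)]

/-- two dominoes of capacity one do not overlap in one site -/
theorem dmx_two {n : ℕ} {S : Finset P} {k : Ed → ℝ} (hk : Gau n S k) {e e' : Ed}
    (he : e ∈ hes n) (he' : e' ∈ hes n) (hS : e.1 ∈ S) (hc : ¬ cq n e.1) (k1 : k e = 1 / 2)
    (k2 : k e' = 1 / 2) (h1 : e.1 ∈ ({e'.1, (rev e').1} : Finset P))
    (h2 : (rev e).1 ∉ ({e'.1, (rev e').1} : Finset P)) : False := by
  have key : ∀ f : Ed, f ∈ hes n → k f = 1 / 2 → e.1 = f.1 → (rev e).1 ≠ (rev f).1 → False := by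
    rintro ⟨x, d'⟩ hf kf rfl hne
    refine hk.two e.1 hS e.2 d' he hf (fun h => hne ?_) hc k1 kf
    rw [← h]
  simp only [mem_insert, mem_singleton, not_or] at h1 h2
  rcases h1 with h1 | h1
  · exact key e' he' k2 h1 h2.2
  · exact key (rev e') (rev_mem he') ((hk.sym e' he').trans k2) h1 (by rw [rev_rev]; exact h2.1)

theorem no_dom {R L m ρ : ℕ} (hL : 10 ≤ L) (hρ : 1 ≤ ρ) {X : Finset P} (hX : X ⊆ box m)
    {k : Ed → ℝ} (hk : Gau (L * m) (under L X) k) {δ : Form R}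
    (hδ : Fm (L * m) (under L X) δ) {e : Ed} (he : e ∈ hes (L * m))
    (hl : ∀ e' ∈ Ls (L * m) ρ (under L X) k δ, ¬ nr 3 e'.1 e.1) (i : Fin (ng R))
    (hi : δ e i ≠ 0) : ¬ Dmk (L * m) k (bt (L * m) ρ δ i e) := by
  intro hD
  obtain ⟨⟨u, d⟩, ⟨h0, du, dv, c, hc, hg⟩, k0, cu, cv⟩ := id hD
  obtain ⟨hu, hv⟩ := mem_hes.1 h0
  simp only [rev] at du dv cu cv hu hv hg
  obtain ⟨f, hf⟩ := dmx_geo hL hu hv du dv cu cv
  have hn : 10 ≤ L * m := by
    have := dmx_box.1 hu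
    rcases m with _ | m
    · simp at this; omega
    · nlinarith
  have hL1 : 1 ≤ L := by omega
  have hc0 : c ≠ 0 := by omega
  obtain ⟨u1, u2, u3⟩ := hf u (Or.inl rfl)
  obtain ⟨v1, v2, v3⟩ := hf _ (Or.inr rfl)
  -- the two edges that point inwards are cut by the domino
  have inw : ∀ x, x = u ∨ x = u + dir d → (x, f) ∈ hes (L * m) ∧
      (x, f) ∈ cl (L * m) ρ δ i e ∧ δ (x, f) i ≠ 0 ∧ x ∈ under L X ∧ x + dir f ∈ under L X := by
    intro x hx
    obtain ⟨x1, x2, -⟩ := hf x hx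
    have xb : x ∈ box (L * m) := by rcases hx with rfl | rfl <;> assumption
    have xe : (x, f) ∈ hes (L * m) := mem_hes.2 ⟨xb, dmx_deep_box x1⟩
    have n1 : x + dir f ∉ ({u, u + dir d} : Finset P) := by
      simp only [mem_insert, mem_singleton, not_or]
      exact ⟨fun h => du (h ▸ x1), fun h => dv (h ▸ x1)⟩
    have n2 : x ∈ ({u, u + dir d} : Finset P) := by simpa using hx
    have b0 : bt (L * m) ρ δ i e (x, f) ≠ 0 := by
      rw [hg _ xe]
      show ind _ c (x + dir f) - ind _ c x ≠ 0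
      unfold ind
      rw [if_pos n2, if_neg n1]
      omega
    have b1 : (x, f) ∈ cl (L * m) ρ δ i e := by
      by_contra h
      exact b0 (by simp only [bt, bet, if_neg h])
    have b2 : δ (x, f) i ≠ 0 := by
      simpa only [bt, bet, if_pos b1] using b0
    have b3 : (x, f) ∈ Cx.he (L * m) (under L X) := by
      by_contra h
      exact b2 (by rw [hδ.off _ h]; rfl)
    have b4 : x ∈ under L X ↔ x + dir f ∈ under L X := by
      rw [mem_under hL1, mem_under hL1, x2]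
    have b5 := (mem_filter.1 b3).2
    exact ⟨xe, b1, b2, b5.elim id b4.2, b5.elim b4.1 id⟩
  obtain ⟨a1, a2, a3, a4, a5⟩ := inw u (Or.inl rfl)
  obtain ⟨b1, -, -, b4, b5⟩ := inw _ (Or.inr rfl)
  -- the edge e is near the domino
  have hnear : (e.1.1 - u.1 ≤ 2 ∧ u.1 - e.1.1 ≤ 2 ∧ e.1.2 - u.2 ≤ 2 ∧ u.2 - e.1.2 ≤ 2) ∧
      e.1.1 - (u + dir d).1 ≤ 2 ∧ (u + dir d).1 - e.1.1 ≤ 2 ∧ e.1.2 - (u + dir d).2 ≤ 2 ∧
      (u + dir d).2 - e.1.2 ≤ 2 := by
    have h1 := dmx_dir d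
    have h2 := dmx_dir e.2
    rcases dmx_cut hg he (by rw [dmx_bt he]; exact hi) with h | h
    · have h3 := h.1
      simp only [mem_insert, mem_singleton, Prod.ext_iff, Prod.fst_add, Prod.snd_add] at h3 ⊢
      omega
    · have h3 := h.2
      simp only [rev, mem_insert, mem_singleton, Prod.ext_iff, Prod.fst_add, Prod.snd_add] at h3 ⊢
      omega
  have idt : ∀ g : Ed, g ∈ hes (L * m) → g.1 ∈ under L X → (rev g).1 ∈ under L X →
      ¬ cq (L * m) g.1 → ¬ cq (L * m) (rev g).1 → nr 3 g.1 e.1 →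
      2 = ns (L * m) ρ δ g.1 + ns (L * m) ρ δ (rev g).1 + wd (L * m) ρ k δ g := by
    intro g g1 g2 g3 g4 g5 g6
    have g7 : ¬ lossy (L * m) ρ (under L X) k δ g :=
      fun h => hl g (mem_filter.2 ⟨g1, g2, h⟩) g6
    simp only [lossy, not_or, not_and, not_exists, not_not] at g7
    rw [← edge_id hn hρ hδ g1 g4 g5 g7.2, (hδ.ins g g1 g2 g3).resolve_left (g7.1 g3)]
  have ec : u + dir f + dir d = u + dir d + dir f := add_right_comm _ _ _
  have hf1 := dmx_dir f
  have c1 : (u + dir f, d) ∈ hes (L * m) :=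
    mem_hes.2 ⟨dmx_deep_box u1, by simp only [rev]; rw [ec]; exact dmx_deep_box v1⟩
  have i1 := idt (u, f) a1 a4 a5 cu u3 (by
    simp only [nr, abs_le]; omega)
  have i2 := idt (u + dir d, f) b1 b4 b5 cv v3 (by
    simp only [nr, abs_le]; omega)
  have i3 := idt (u, d) h0 a4 b4 cu cv (by
    simp only [nr, abs_le]; omega)
  have i4 := idt (u + dir f, d) c1 a5 (by simp only [rev]; rw [ec]; exact b5) u3
    (by simp only [rev]; rw [ec]; exact v3) (by
    simp only [nr, abs_le, Prod.fst_add, Prod.snd_add]; omega)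
  have w1 : 1 ≤ wd (L * m) ρ k δ (u, f) := by
    have e1 : bt (L * m) ρ δ i (u, f) = bt (L * m) ρ δ i e := by
      have := (cls_eq (cl_mem (ρ := ρ) he hi) a2).2.2
      simp only at this
      simp only [bt, ← this]
    refine le_trans ?_ (single_le_sum (f := mu R) (fun _ _ => Nat.zero_le _)
      (mem_filter.2 ⟨mem_univ i, a3, by rw [e1]; exact hD⟩))
    unfold mu; split_ifs <;> omega
  have w3 : wd (L * m) ρ k δ (u, d) = 0 := by
    refine sum_eq_zero fun j hj => False.elim ?_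
    obtain ⟨-, j0, e', ⟨g0, -, -, c', -, gg⟩, k', -, -⟩ := mem_filter.1 hj
    rcases dmx_cut gg h0 (by rw [dmx_bt h0]; exact j0) with h | h
    · exact dmx_two hk h0 g0 a4 cu k0 k' h.1 h.2
    · exact dmx_two hk (rev_mem h0) g0 b4 cv ((hk.sym _ h0).trans k0) k' h.2
        (by rw [rev_rev]; exact h.1)
  have w4 : wd (L * m) ρ k δ (u + dir f, d) = 0 := by
    refine sum_eq_zero fun j hj => False.elim ?_
    obtain ⟨-, j0, e', ⟨-, g1, g2, c', -, gg⟩, -, -, -⟩ := mem_filter.1 hj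
    have nd : ∀ x, deep 1 (L * m) x → x ∉ ({e'.1, (rev e').1} : Finset P) := fun x hx => by
      simp only [mem_insert, mem_singleton, not_or]
      exact ⟨fun h => g1 (h ▸ hx), fun h => g2 (h ▸ hx)⟩
    rcases dmx_cut gg c1 (by rw [dmx_bt c1]; exact j0) with h | h
    · exact nd _ u1 h.1
    · exact nd _ (by simp only [rev]; rw [ec]; exact v1) h.2
  simp only [rev] at i1 i2 i3 i4
  rw [ec] at i4
  omega

end Pool.Agent.Lib.MP_9cc147_pr.Cx.Pe
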