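import Pool.Agent.Lib.MP_9cc147_pr.Cx.Pe.Bas

/-! The gauged capacities. -/

open scoped Classical
open Finset

noncomputable section
namespace Pool.Agent.Lib.MP_9cc147_pr.Cx.Pe

/-- `v` times the sign of the parity of `b` -/
def gauSg (b v : ℤ) : ℤ := if b % 2 = 0 then v else -v
/-- 32 times the capacity of the edge from `(x, y)` to `(x + 1, y)` -/
def gauH (n a b x y : ℤ) : ℤ :=
  if y = 0 ∨ y = n - 1 then
    12 + gauSg x (max 0 (min 4 (a + 3 - x))) - gauSg (x + n - 1) (max 0 (min 4 (x - a - 3)))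
  else if b ≤ y ∧ y < b + 4 then
    (if x < a then 8 + gauSg (x + y) 1 else 8 - gauSg (x + y + n - 1) 1)
  else if b + 4 ≤ y ∧ y < b + 8 then
    (if x < a then 8 + gauSg (x + y + n - 1) 1 else 8 - gauSg (x + y) 1)
  else 8
def gauC (n a x : ℤ) : ℤ :=
  if a ≤ x ∧ x < a + 4 then gauSg x 1 else if a + 4 ≤ x ∧ x < a + 8 then gauSg (x + n - 1) 1 else 0
def gauK (n a b : ℤ) (e : Ed) : ℤ :=
  ![gauH n a b e.1.1 e.1.2, gauH n b a e.1.2 e.1.1, gauH n a b (e.1.1 - 1) e.1.2,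
    gauH n b a (e.1.2 - 1) e.1.1] e.2

theorem gau_bd (n a b x y : ℤ) : 7 ≤ gauH n a b x y ∧ gauH n a b x y ≤ 16 := by
  unfold gauH gauSg
  split_ifs <;> omega

theorem gau_lo {n a b x y : ℤ} (hb : 4 ≤ b) (hb' : b + 12 ≤ n) (h : y < 4 ∨ n - 4 ≤ y) :
    8 ≤ gauH n a b x y := by
  unfold gauH gauSg
  split_ifs <;> omega

theorem gau_top {n a b x y : ℤ} (h : gauH n a b x y = 16) :
    (y = 0 ∨ y = n - 1) ∧ ((x < a ∧ x % 2 = 0) ∨ (a + 7 ≤ x ∧ (x + n) % 2 = 0)) := by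
  unfold gauH gauSg at h
  split_ifs at h <;> omega

theorem gau_cor {n a b x y : ℤ} (ha : 4 ≤ a) (ha' : a + 12 ≤ n) (hy : y = 0 ∨ y = n - 1)
    (hx : x = 0 ∨ x = n - 2) : gauH n a b x y = 16 := by
  unfold gauH gauSg
  rw [if_pos hy]
  split_ifs <;> omega

theorem gau_sg {s t : ℤ} (v : ℤ) (h : (s + t) % 2 = 1) : gauSg s v = -gauSg t v := by
  unfold gauSg
  split_ifs <;> omega

theorem gau_side {n a b x y : ℤ} (hy : y = 0 ∨ y = n - 1) :
    gauH n a b x y + gauH n a b (x - 1) y = 24 - gauC n a x := by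
  simp only [gauH, if_pos hy]
  rw [gau_sg (s := x - 1) (t := x) _ (by omega),
    gau_sg (s := x - 1 + n - 1) (t := x + n - 1) _ (by omega)]
  unfold gauC gauSg
  split_ifs <;> omega

theorem gau_mid {n a b x y : ℤ} (hy : ¬ (y = 0 ∨ y = n - 1))
    (h : ¬ (x = a ∧ b ≤ y ∧ y < b + 8)) : gauH n a b x y + gauH n a b (x - 1) y = 16 := by
  simp only [gauH, if_neg hy]
  rw [gau_sg (s := x - 1 + y) (t := x + y) _ (by omega),
    gau_sg (s := x - 1 + y + n - 1) (t := x + y + n - 1) _ (by omega)]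
  split_ifs <;> omega

theorem gau_end {n a b x y : ℤ} (ha : 4 ≤ a) (ha' : a + 12 ≤ n) (hy : ¬ (y = 0 ∨ y = n - 1))
    (hx : x = 0 ∨ x = n - 2) : gauH n a b x y = 8 + gauC n b y := by
  simp only [gauH, gauC, if_neg hy]
  rcases hx with rfl | rfl
  · simp only [zero_add, if_pos (show (0 : ℤ) < a by omega)]
    split_ifs <;> rfl
  · rw [gau_sg (s := n - 2 + y + n - 1) (t := y) _ (by omega),
      gau_sg (s := n - 2 + y) (t := y + n - 1) _ (by omega)]
    simp only [if_neg (show ¬ n - 2 < a by omega)]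
    split_ifs <;> omega

theorem gau_row {n a b x y : ℤ} (ha : 4 ≤ a) (ha' : a + 12 ≤ n) (hx : 0 ≤ x) (hx' : x < n)
    (h : ¬ (x = a ∧ b ≤ y ∧ y < b + 8)) :
    (if x + 1 < n then gauH n a b x y else 0) + (if 0 < x then gauH n a b (x - 1) y else 0) =
      if y = 0 ∨ y = n - 1 then (if x = 0 ∨ x = n - 1 then 16 else 24 - gauC n a x)
      else if x = 0 ∨ x = n - 1 then 8 + gauC n b y else 16 := by
  by_cases h0 : x = 0 ∨ x = n - 1
  · rw [if_pos h0, if_pos h0]
    rcases h0 with h0 | h0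
    · rw [if_pos (by omega), if_neg (by omega), add_zero]
      split_ifs with hy
      exacts [gau_cor ha ha' hy (by omega), gau_end ha ha' hy (by omega)]
    · rw [if_neg (by omega), if_pos (by omega), zero_add]
      split_ifs with hy
      exacts [gau_cor ha ha' hy (by omega), gau_end ha ha' hy (by omega)]
  · rw [if_neg h0, if_neg h0, if_pos (by omega), if_pos (by omega)]
    split_ifs with hy
    exacts [gau_side hy, gau_mid hy h]

theorem gau_hes {n : ℕ} {x : P} {d : Fin 4} : (x, d) ∈ hes n ↔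
    (0 ≤ x.1 ∧ x.1 < n ∧ 0 ≤ x.2 ∧ x.2 < n) ∧ 0 ≤ x.1 + (dir d).1 ∧ x.1 + (dir d).1 < n ∧
      0 ≤ x.2 + (dir d).2 ∧ x.2 + (dir d).2 < n := by
  simp [hes, box, and_assoc]

theorem gau_sym (n a b : ℤ) (e : Ed) : gauK n a b (rev e) = gauK n a b e := by
  obtain ⟨⟨x, y⟩, d⟩ := e
  fin_cases d <;> simp [gauK, rev, dir, sub_eq_add_neg]

theorem gau_st {n : ℕ} {a b : ℤ} (ha : 4 ≤ a) (ha' : a + 12 ≤ n) (hb : 4 ≤ b) (hb' : b + 12 ≤ n)
    {x : P} (hx : x ∈ box n) (h : ¬ (a ≤ x.1 ∧ x.1 < a + 8 ∧ b ≤ x.2 ∧ x.2 < b + 8)) :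
    st n (fun e => (gauK n a b e : ℝ) / 32) x = 1 := by
  obtain ⟨x, y⟩ := x
  simp only [box, mem_product, mem_Ico] at hx h
  have h1 := gau_row (n := n) (a := a) (b := b) (x := x) (y := y) ha ha' hx.1.1 hx.1.2 (by omega)
  have h2 := gau_row (n := n) (a := b) (b := a) (x := y) (y := x) hb hb' hx.2.1 hx.2.2 (by omega)
  have h3 : (if x + 1 < n then gauH n a b x y else 0) + (if y + 1 < n then gauH n b a y x else 0) +
      (if 0 < x then gauH n a b (x - 1) y else 0) + (if 0 < y then gauH n b a (y - 1) x else 0) =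
      32 := by
    have h4 : (if y = 0 ∨ y = n - 1 then (if x = 0 ∨ x = n - 1 then 16 else 24 - gauC n a x)
        else if x = 0 ∨ x = n - 1 then 8 + gauC n b y else 16) +
        (if x = 0 ∨ x = n - 1 then (if y = 0 ∨ y = n - 1 then 16 else 24 - gauC n b y)
        else if y = 0 ∨ y = n - 1 then 8 + gauC n a x else 16) = (32 : ℤ) := by
      split_ifs <;> omega
    omega
  have e0 : (((x, y), (0 : Fin 4)) ∈ hes n) ↔ x + 1 < n := by
    rw [gau_hes]; simp [dir]; omega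
  have e1 : (((x, y), (1 : Fin 4)) ∈ hes n) ↔ y + 1 < n := by
    rw [gau_hes]; simp [dir]; omega
  have e2 : (((x, y), (2 : Fin 4)) ∈ hes n) ↔ 0 < x := by
    rw [gau_hes]; simp [dir]; omega
  have e3 : (((x, y), (3 : Fin 4)) ∈ hes n) ↔ 0 < y := by
    rw [gau_hes]; simp [dir]; omega
  have h5 := congrArg (fun t : ℤ => (t : ℝ)) h3
  simp only [Int.cast_add, Int.cast_ite, Int.cast_zero, Int.cast_ofNat] at h5
  unfold st
  rw [sum_filter, Fin.sum_univ_four]
  simp only [e0, e1, e2, e3, gauK, Matrix.cons_val_zero, Matrix.cons_val_one, Matrix.cons_val]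
  split_ifs at h5 ⊢ <;> linarith

theorem gau_half {K : ℤ} : (K : ℝ) / 32 = 1 / 2 ↔ K = 16 := by
  constructor
  · intro h
    have : (K : ℝ) = (16 : ℤ) := by push_cast; linarith
    exact_mod_cast this
  · rintro rfl; norm_num

theorem gau_le {K c : ℤ} (h : c ≤ K) : (c : ℝ) / 32 ≤ (K : ℝ) / 32 := by
  have : (c : ℝ) ≤ K := by exact_mod_cast h
  linarith

theorem gau_kbd (n a b : ℤ) (e : Ed) : 7 ≤ gauK n a b e ∧ gauK n a b e ≤ 16 := by
  obtain ⟨⟨x, y⟩, d⟩ := e
  fin_cases d <;> exact gau_bd _ _ _ _ _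

theorem gau_gau {n : ℕ} {a b : ℤ} (ha : 4 ≤ a) (ha' : a + 12 ≤ n) (hb : 4 ≤ b) (hb' : b + 12 ≤ n)
    {S : Finset P} (hS : ∀ x ∈ S, st n (fun e => (gauK n a b e : ℝ) / 32) x = 1) :
    Gau n S (fun e => (gauK n a b e : ℝ) / 32) where
  sym e _ := by simp only [gau_sym]
  low e _ := by simpa using gau_le (gau_kbd n a b e).1
  lcq e _ hc := by
    have : 8 ≤ gauK n a b e := by
      obtain ⟨⟨x, y⟩, d⟩ := e
      fin_cases d
      exacts [gau_lo hb hb' hc.2, gau_lo ha ha' hc.1, gau_lo hb hb' hc.2, gau_lo ha ha' hc.1]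
    have := gau_le this
    push_cast at this
    linarith
  cor e he hc := by
    rw [gau_half]
    obtain ⟨⟨x, y⟩, d⟩ := e
    rw [gau_hes] at he
    obtain ⟨h1, h2⟩ := hc
    fin_cases d <;> simp [dir] at he h1 h2
    exacts [gau_cor ha ha' h2 (by dsimp only; omega), gau_cor hb hb' h1 (by dsimp only; omega),
      gau_cor ha ha' h2 (by dsimp only; omega), gau_cor hb hb' h1 (by dsimp only; omega)]
  one x hx := (hS x hx).ge
  gap e _ := by
    rcases (gau_kbd n a b e).2.eq_or_lt with h | h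
    · exact Or.inl (gau_half.2 h)
    · right
      have : gauK n a b e ≤ 15 := by omega
      simpa using gau_le this
  two x _ d d' he he' hd hc h h' := by
    rw [gau_half] at h h'
    obtain ⟨x, y⟩ := x
    simp only [cq] at hc
    fin_cases d <;> fin_cases d' <;> first
      | exact hd rfl
      | (have := gau_top h; have := gau_top h'; dsimp only at *; omega)
  cqh e he h := by
    rw [gau_half] at h
    obtain ⟨⟨x, y⟩, d⟩ := e
    fin_cases d <;>
      (have := gau_top h; simp only [cq, rev, dir] at *; simp at *; omega)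

theorem gau_ex {L m : ℕ} (hL : 20 ≤ L) {T : P} (hT : T ∈ box m) :
    ∃ k : Ed → ℝ, ∀ S ⊆ box (L * m), Disjoint S (cell L T) →
      Gau (L * m) S k ∧ ∀ x ∈ S, st (L * m) k x = 1 := by
  simp only [box, mem_product, mem_Ico] at hT
  have hL' : (20 : ℤ) ≤ L := by exact_mod_cast hL
  have key : ∀ t : ℤ, 0 ≤ t → t < m → 4 ≤ t * L + 4 ∧ t * L + 4 + 12 ≤ ((L * m : ℕ) : ℤ) := by
    intro t h0 h1
    push_cast
    constructor
    · have := mul_nonneg h0 (show (0 : ℤ) ≤ L by omega)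
      omega
    · have := mul_le_mul_of_nonneg_right (show t + 1 ≤ m by omega) (show (0 : ℤ) ≤ L by omega)
      nlinarith
  obtain ⟨ha, ha'⟩ := key T.1 hT.1.1 hT.1.2
  obtain ⟨hb, hb'⟩ := key T.2 hT.2.1 hT.2.2
  refine ⟨fun e => (gauK (L * m : ℕ) (T.1 * L + 4) (T.2 * L + 4) e : ℝ) / 32, fun S hS hd => ?_⟩
  have hst : ∀ x ∈ S, st (L * m)
      (fun e => (gauK (L * m : ℕ) (T.1 * L + 4) (T.2 * L + 4) e : ℝ) / 32) x = 1 := by
    intro x hx
    refine gau_st ha ha' hb hb' (hS hx) fun h => disjoint_left.1 hd hx ?_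
    simp only [cell, mem_product, mem_Ico, add_mul, one_mul]
    omega
  exact ⟨gau_gau ha ha' hb hb' hst, hst⟩

end Pool.Agent.Lib.MP_9cc147_pr.Cx.Pe
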