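import Pool.Agent.Lib.MP_9cc147_pr.Cx.Pe.Bas

/-! Gradients with at most four unit edges. -/

open scoped Classical
open Finset

noncomputable section
namespace Pool.Agent.Lib.MP_9cc147_pr.Cx.Pe

/-- variation along a line -/
def isoV (n : ℤ) (u : ℤ → ℤ) : ℤ := ∑ i ∈ Ico 0 (n - 1), |u (i + 1) - u i|

lemma iso_seg (u : ℤ → ℤ) {a b : ℤ} (h : a ≤ b) :
    |u b - u a| ≤ ∑ i ∈ Ico a b, |u (i + 1) - u i| := by
  induction b, h using Int.leInduction with
  | base => simp
  | succ b hb ih =>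
    rw [← insert_Ico_right_eq_Ico_add_one hb, sum_insert (by simp)]
    linarith [abs_sub_le (u (b + 1)) (u b) (u a)]

lemma iso_chain (n : ℤ) (u : ℤ → ℤ) {a b c d : ℤ} (h0 : 0 ≤ a) (h1 : a ≤ b) (h2 : b ≤ c)
    (h3 : c ≤ d) (h4 : d < n) : |u b - u a| + |u c - u b| + |u d - u c| ≤ isoV n u := by
  have e1 := sum_union (f := fun i => |u (i + 1) - u i|) (Ico_disjoint_Ico_consecutive a b c)
  have e2 := sum_union (f := fun i => |u (i + 1) - u i|) (Ico_disjoint_Ico_consecutive a c d)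
  rw [Ico_union_Ico_eq_Ico h1 h2] at e1
  rw [Ico_union_Ico_eq_Ico (h1.trans h2) h3] at e2
  have := sum_le_sum_of_subset_of_nonneg (f := fun i => |u (i + 1) - u i|)
    (Ico_subset_Ico h0 (show d ≤ n - 1 by omega)) fun _ _ _ => abs_nonneg _
  unfold isoV
  linarith [iso_seg u h1, iso_seg u h2, iso_seg u h3]

lemma iso_two (n : ℤ) (u : ℤ → ℤ) {a b : ℤ} (h0 : 0 ≤ a) (h1 : a < n) (h2 : 0 ≤ b) (h3 : b < n) :
    |u b - u a| ≤ isoV n u := by
  rcases le_total a b with h | h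
  · simpa using iso_chain n u h0 h le_rfl le_rfl h3
  · simpa [abs_sub_comm] using iso_chain n u h2 h le_rfl le_rfl h1

lemma iso_len {n : ℕ} {β : Ed → ℤ} {f : P → ℤ} (hf : Gr n β f) : len n β =
    ((∑ y ∈ Ico (0 : ℤ) n, isoV n (fun x => f (x, y)) +
      ∑ x ∈ Ico (0 : ℤ) n, isoV n (fun y => f (x, y)) : ℤ) : ℝ) := by
  let H : Fin 4 → ℤ := fun d => ∑ p ∈ (box n).filter (fun p => p + dir d ∈ box n),
    |f (p + dir d) - f p|
  have e : ∑ e ∈ hes n, |β e| = H 0 + H 1 + H 2 + H 3 := by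
    rw [sum_congr rfl fun e he => congrArg abs (hf e he), hes, sum_filter, sum_product_right,
      ← Fin.sum_univ_four]
    exact sum_congr rfl fun d _ => (sum_filter _ _).symm
  have s : ∀ d d', dir d + dir d' = 0 → H d = H d' := fun d d' h => by
    have h' : dir d' + dir d = 0 := by rwa [add_comm]
    refine sum_nbij' (· + dir d) (· + dir d') ?_ ?_ ?_ ?_ ?_ <;>
      simp +contextual [add_assoc, h, h', abs_sub_comm]
  have h0 : H 0 = ∑ y ∈ Ico (0 : ℤ) n, isoV n (fun x => f (x, y)) := by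
    unfold isoV
    rw [← sum_product_right' (Ico 0 ((n : ℤ) - 1)) _ fun x y => |f (x + 1, y) - f (x, y)|]
    refine sum_congr ?_ fun p _ => by simp [dir, Prod.add_def]
    ext p
    simp [box, dir]
    omega
  have h1 : H 1 = ∑ x ∈ Ico (0 : ℤ) n, isoV n (fun y => f (x, y)) := by
    unfold isoV
    rw [← sum_product' _ (Ico 0 ((n : ℤ) - 1)) fun x y => |f (x, y + 1) - f (x, y)|]
    refine sum_congr ?_ fun p _ => by simp [dir, Prod.add_def]
    ext p
    simp [box, dir]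
    omega
  have := congrArg (Int.cast (R := ℝ)) e
  rw [s 2 0 (by simp [dir]), s 3 1 (by simp [dir])] at this
  rw [len, ← h0, ← h1]
  push_cast at this ⊢
  linarith

/-- a finitely supported function with row variations `R`, column variations `C`, total `T` -/
structure IsoD (n : ℤ) (g : ℤ → ℤ → ℤ) (R C : ℤ → ℤ) (T : ℤ) : Prop where
  sup : ∀ x y, g x y ≠ 0 → (0 ≤ x ∧ x < n) ∧ 0 ≤ y ∧ y < n
  row : ∀ y a b c d, 0 ≤ a → a ≤ b → b ≤ c → c ≤ d → d < n →
    ((g b y - g a y).natAbs : ℤ) + (g c y - g b y).natAbs + (g d y - g c y).natAbs ≤ R y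
  col : ∀ x a b c d, 0 ≤ a → a ≤ b → b ≤ c → c ≤ d → d < n →
    ((g x b - g x a).natAbs : ℤ) + (g x c - g x b).natAbs + (g x d - g x c).natAbs ≤ C x
  rle : ∀ x y, ((g x y).natAbs : ℤ) ≤ R y
  cle : ∀ x y, ((g x y).natAbs : ℤ) ≤ C x
  tot : ∀ s t : Finset ℤ, ∑ y ∈ s, R y + ∑ x ∈ t, C x ≤ T

variable {n : ℤ} {g : ℤ → ℤ → ℤ} {R C : ℤ → ℤ} {T : ℤ}

lemma IsoD.swap (h : IsoD n g R C T) : IsoD n (fun y x => g x y) C R T :=
  ⟨fun _ _ e => (h.sup _ _ e).symm, h.col, h.row, fun x y => h.cle y x, fun x y => h.rle y x,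
    fun s t => add_comm (∑ y ∈ t, R y) _ ▸ h.tot t s⟩

lemma IsoD.r1 (h : IsoD n g R C T) {x y : ℤ} (e : g x y ≠ 0) : 1 ≤ R y ∧ 1 ≤ C x := by
  have := h.rle x y
  have := h.cle x y
  omega

/-- two columns and one row exhaust the total -/
lemma IsoD.two (h : IsoD n g R C T) {x y x' y' : ℤ} (e : g x y ≠ 0) (e' : g x' y' ≠ 0)
    (hx : x ≠ x') (hT : T ≤ R y + 2) : T = R y + 2 ∧ (g x y).natAbs = 1 ∧ (g x' y).natAbs = 1 ∧
      (y = 0 ∨ y = n - 1) ∧ ∀ a b, b ≠ y ∨ (a ≠ x ∧ a ≠ x') → g a b = 0 := by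
  have c1 := (h.r1 e).2
  have c2 := (h.r1 e').2
  have t := h.tot {y} {x, x'}
  rw [sum_singleton, sum_pair hx] at t
  have z : ∀ a b, b ≠ y ∨ (a ≠ x ∧ a ≠ x') → g a b = 0 := fun a b hab => by
    by_contra e''
    have := h.r1 e''
    rcases hab with hb | ha
    · have t := h.tot {b, y} {x, x'}
      rw [sum_pair hb, sum_pair hx] at t
      omega
    · have t := h.tot {y} {a, x, x'}
      rw [sum_singleton, sum_insert (by simp [ha]), sum_pair hx] at t
      omega
  obtain rfl : y' = y := by by_contra k; exact e' (z _ _ (.inl k))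
  have a1 := h.cle x y'
  have a2 := h.cle x' y'
  refine ⟨by omega, by omega, by omega, ?_, z⟩
  by_contra k
  have s := h.sup _ _ e
  have := h.col x (y' - 1) y' (y' + 1) (y' + 1) (by omega) (by omega) (by omega) le_rfl (by omega)
  rw [z x (y' - 1) (.inl (by omega)), z x (y' + 1) (.inl (by omega))] at this
  omega

lemma IsoD.coreA (h : IsoD n g R C T) (hT : T ≤ 4) {x y : ℤ} (e : g x y ≠ 0) (x1 : 4 ≤ x)
    (x2 : x < n - 4) : ((g x y).natAbs = 1 ∧ ∀ a b, g a b ≠ 0 → a = x ∧ b = y) ∨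
      (T = 4 ∧ (y = 0 ∨ y = n - 1) ∧ ∃ u, 0 ≤ u ∧ u + 1 < n ∧ (g x y).natAbs = 1 ∧
        ∀ a b, g a b = if (a = u ∨ a = u + 1) ∧ b = y then g x y else 0) := by
  have zz : ∀ k, ∃ a, k ≤ a ∧ a < k + 4 ∧ g a y = 0 := fun k => by
    by_contra hn
    push Not at hn
    have t := h.tot {y} {k, k + 1, k + 2, k + 3}
    rw [sum_singleton, sum_insert (by simp only [mem_insert, mem_singleton]; omega),
      sum_insert (by simp only [mem_insert, mem_singleton]; omega), sum_pair (by omega)] at t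
    have := h.r1 e
    have := h.r1 (hn k (by omega) (by omega))
    have := h.r1 (hn (k + 1) (by omega) (by omega))
    have := h.r1 (hn (k + 2) (by omega) (by omega))
    have := h.r1 (hn (k + 3) (by omega) (by omega))
    omega
  obtain ⟨a, a1, a2, a3⟩ := zz 0
  obtain ⟨b, b1, b2, b3⟩ := zz (n - 4)
  have r := h.row y a x b b a1 (by omega) (by omega) le_rfl (by omega)
  rw [a3, b3] at r
  by_cases k : ∃ x' y', g x' y' ≠ 0 ∧ x ≠ x'
  · obtain ⟨x', y', e', hx⟩ := k
    obtain ⟨t, g2, g3, hy, z⟩ := h.two e e' hx (by omega)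
    have s := h.sup _ _ e'
    refine .inr ⟨by omega, hy, ?_⟩
    rcases lt_or_gt_of_ne hx with l | l
    · obtain rfl : x' = x + 1 := by
        by_contra k
        have := h.row y (x - 1) x (x + 1) x' (by omega) (by omega) (by omega) (by omega) (by omega)
        rw [z (x - 1) y (by omega), z (x + 1) y (by omega)] at this
        omega
      have := h.row y (x - 1) x (x + 1) (x + 2) (by omega) (by omega) (by omega) (by omega)
        (by omega)
      rw [z (x - 1) y (by omega), z (x + 2) y (by omega)] at this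
      refine ⟨x, by omega, by omega, g2, fun a b => ?_⟩
      split_ifs with c
      · obtain ⟨rfl | rfl, rfl⟩ := c <;> omega
      · exact z a b (by omega)
    · obtain rfl : x = x' + 1 := by
        by_contra k
        have := h.row y x' (x - 1) x (x + 1) (by omega) (by omega) (by omega) (by omega) (by omega)
        rw [z (x - 1) y (by omega), z (x + 1) y (by omega)] at this
        omega
      have := h.row y (x' - 1) x' (x' + 1) (x' + 2) (by omega) (by omega) (by omega) (by omega)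
        (by omega)
      rw [z (x' - 1) y (by omega), z (x' + 2) y (by omega)] at this
      refine ⟨x', by omega, by omega, g2, fun a b => ?_⟩
      split_ifs with c
      · obtain ⟨rfl | rfl, rfl⟩ := c <;> omega
      · exact z a b (by omega)
  · push Not at k
    have t := h.tot {y} {x}
    rw [sum_singleton, sum_singleton] at t
    have c := h.cle x y
    refine .inl ⟨by omega, fun a b e' => ?_⟩
    obtain rfl := k a b e'
    refine ⟨rfl, ?_⟩
    by_contra hb
    have z : ∀ a, x ≠ a → g a b = 0 := fun a ha => by_contra fun e => ha (k a b e)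
    have := h.row b (x - 1) x (x + 1) (x + 1) (by omega) (by omega) (by omega) le_rfl (by omega)
    rw [z (x - 1) (by omega), z (x + 1) (by omega)] at this
    have t := h.tot {b, y} {x}
    rw [sum_singleton, sum_pair hb] at t
    omega

lemma IsoD.coreB (h : IsoD n g R C T) {x y x' y' : ℤ} (e : g x y ≠ 0) (e' : g x' y' ≠ 0)
    (hx : x ≠ x') (hT : T < 4) : T = 3 ∧ (y = 0 ∨ y = n - 1) ∧ ∃ u, (u = 0 ∨ u = n - 1) ∧
      g u y ≠ 0 ∧ ∀ b, b ≠ y → g u b = 0 := by
  have r := (h.r1 e).1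
  obtain ⟨t, g2, g3, hy, z⟩ := h.two e e' hx (by omega)
  have s := h.sup _ _ e
  have s' := h.sup _ _ e'
  refine ⟨by omega, hy, ?_⟩
  by_cases c : x = 0 ∨ x = n - 1
  · exact ⟨x, c, e, fun b hb => z _ _ (.inl hb)⟩
  refine ⟨x', ?_, by omega, fun b hb => z _ _ (.inl hb)⟩
  by_contra c'
  have := h.row y (min x x' - 1) (min x x') (max x x') (max x x' + 1) (by omega) (by omega)
    (by omega) (by omega) (by omega)
  rw [z (min x x' - 1) y (by omega), z (max x x' + 1) y (by omega)] at this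
  rcases le_total x x' with l | l
  · rw [min_eq_left l, max_eq_right l] at this; omega
  · rw [min_eq_right l, max_eq_left l] at this; omega

lemma iso_zero {n : ℕ} (hn : 10 ≤ n) {R : ℤ → ℤ} (h0 : ∀ y, 0 ≤ R y)
    (h : ∑ y ∈ Ico (0 : ℤ) n, R y ≤ 4) : ∃ y : ℤ, (0 ≤ y ∧ y < n) ∧ R y = 0 := by
  by_contra k
  push Not at k
  have := card_nsmul_le_sum (Ico (0 : ℤ) n) R 1 fun y hy => by
    have := k y (mem_Ico.1 hy); have := h0 y; omega
  have h1 := this.trans h
  simp at h1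
  omega

lemma iso_box {n : ℕ} {p : P} : p ∈ box n ↔ (0 ≤ p.1 ∧ p.1 < n) ∧ 0 ≤ p.2 ∧ p.2 < n := by
  simp [box]

lemma iso_dat {n : ℕ} (hn : 10 ≤ n) {β : Ed → ℤ} {f : P → ℤ} (hf : Gr n β f) (h4 : len n β < 5) :
    ∃ (g : ℤ → ℤ → ℤ) (R C : ℤ → ℤ) (T : ℤ), IsoD n g R C T ∧ T ≤ 4 ∧ len n β = T ∧
      Gr n β fun p => g p.1 p.2 := by
  have v0 : ∀ u, 0 ≤ isoV n u := fun u => sum_nonneg fun _ _ => abs_nonneg _
  have e := iso_len hf
  rw [e] at h4
  norm_cast at h4
  have s1 := sum_nonneg (s := Ico (0 : ℤ) n) fun y _ => v0 fun x => f (x, y)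
  have s2 := sum_nonneg (s := Ico (0 : ℤ) n) fun x _ => v0 fun y => f (x, y)
  obtain ⟨y₀, hy, y1⟩ := iso_zero hn (R := fun y => isoV n fun x => f (x, y)) (fun _ => v0 _)
    (by omega)
  obtain ⟨x₀, hx, x1⟩ := iso_zero hn (R := fun x => isoV n fun y => f (x, y)) (fun _ => v0 _)
    (by omega)
  obtain ⟨g, gd⟩ : ∃ g : ℤ → ℤ → ℤ, ∀ x y,
      g x y = if (x, y) ∈ box n then f (x, y) - f (x₀, y₀) else 0 := ⟨_, fun _ _ => rfl⟩
  have hg : Gr n β fun p => g p.1 p.2 := fun e he => by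
    simp only [gd, Prod.mk.eta, if_pos (mem_hes.1 he).1, if_pos (mem_hes.1 he).2, hf e he]
    ring
  have sup : ∀ x y, g x y ≠ 0 → (0 ≤ x ∧ x < n) ∧ 0 ≤ y ∧ y < n := fun x y h =>
    iso_box.1 (by_contra fun k : (x, y) ∉ box n => h ((gd x y).trans (if_neg k)))
  have gx : ∀ y, g x₀ y = 0 := fun y => by
    rw [gd]
    split_ifs with k
    · have := iso_two n (fun y => f (x₀, y)) hy.1 hy.2 (iso_box.1 k).2.1 (iso_box.1 k).2.2
      rwa [x1, abs_nonpos_iff] at this
    · rfl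
  have gy : ∀ x, g x y₀ = 0 := fun x => by
    rw [gd]
    split_ifs with k
    · have := iso_two n (fun x => f (x, y₀)) hx.1 hx.2 (iso_box.1 k).1.1 (iso_box.1 k).1.2
      rwa [y1, abs_nonpos_iff] at this
    · rfl
  have sub : ∀ (s : Finset ℤ) (u : ℤ → ℤ → ℤ), (∀ a b, u a b ≠ 0 → 0 ≤ a ∧ a < n) →
      ∑ a ∈ s, isoV n (u a) ≤ ∑ a ∈ Ico (0 : ℤ) n, isoV n (u a) := fun s u hu => by
    rw [← sum_filter_ne_zero]
    refine sum_le_sum_of_subset_of_nonneg (fun a h => mem_Ico.2 (by_contra fun k =>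
      (mem_filter.1 h).2 (sum_eq_zero fun i _ => ?_))) fun _ _ _ => v0 _
    have z : ∀ b, u a b = 0 := fun b => by_contra fun e => k (hu a b e)
    simp [z]
  have e' := iso_len hg
  have t1 := fun s => sub s (fun y x => g x y) fun a b h => (sup b a h).2
  have t2 := fun t => sub t (fun x y => g x y) fun a b h => (sup a b h).1
  simp only at e' t1 t2
  have e4 := (Int.cast_injective (e'.symm.trans e)).trans_le (Int.le_of_lt_add_one (b := 4) h4)
  refine ⟨g, fun y => isoV n fun x => g x y, fun x => isoV n fun y => g x y, _, ?_, e4, e', hg⟩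
  refine ⟨sup, fun y a b c d => ?_, fun x a b c d => ?_, fun x y => ?_, fun x y => ?_,
    fun s t => add_le_add (t1 s) (t2 t)⟩
  · simp only [Int.natCast_natAbs]; exact iso_chain n fun x => g x y
  · simp only [Int.natCast_natAbs]; exact iso_chain n (g x)
  · by_cases k : g x y = 0
    · simpa [k] using v0 _
    · simpa [gx] using iso_two n (fun x => g x y) hx.1 hx.2 (sup x y k).1.1 (sup x y k).1.2
  · by_cases k : g x y = 0
    · simpa [k] using v0 _
    · simpa [gy] using iso_two n (g x) hy.1 hy.2 (sup x y k).2.1 (sup x y k).2.2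

/-- the last case: a corner edge is cut, or exactly four unit edges -/
theorem iso {n : ℕ} (hn : 10 ≤ n) {β : Ed → ℤ} {f : P → ℤ} (ha : Asy n β) (hf : Gr n β f)
    (h0 : β ≠ 0) (h4 : len n β < 5) :
    (∃ x, Star n β x) ∨ ((∃ e, Dom n β e) ∧ len n β = 4) ∨ (Cqt n β ∧ (len n β = 4 ∨
      (len n β = 3 ∧ ∃ e ∈ hes n, corner n e.1 ∧ β e ≠ 0))) := by
  obtain ⟨g, R, C, T, h, hT, hl, hg⟩ := iso_dat hn hf h4
  have l4 : T = 4 → len n β = 4 := fun e => by rw [hl, e]; norm_num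
  have l3 : T = 3 → len n β = 3 := fun e => by rw [hl, e]; norm_num
  have star : ∀ x y, (g x y).natAbs = 1 → (∀ a b, g a b ≠ 0 → a = x ∧ b = y) → Star n β (x, y) :=
    fun x y h1 h2 => ⟨iso_box.2 (h.sup x y (by omega)), g x y, by omega, by
      have : ind {(x, y)} (g x y) = fun p => g p.1 p.2 := funext fun p => by
        simp only [ind, mem_singleton]
        split_ifs with k
        · rw [k]
        · exact (by_contra fun e => k (Prod.ext (h2 _ _ e).1 (h2 _ _ e).2) : g p.1 p.2 = 0).symm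
      rwa [this]⟩
  by_cases q : ∀ x y, g x y ≠ 0 → cq n (x, y)
  swap
  · push Not at q
    obtain ⟨x, y, e, q⟩ := q
    have s := h.sup x y e
    by_cases c : 4 ≤ x ∧ x < n - 4
    · rcases h.coreA hT e c.1 c.2 with ⟨h1, h2⟩ | ⟨h1, h2, u, u1, u2, h3, h5⟩
      · exact .inl ⟨_, star x y h1 h2⟩
      refine .inr (.inl ⟨⟨((u, y), 0), ?_, ?_, ?_, g x y, by omega, ?_⟩, l4 h1⟩)
      · simp [hes, iso_box, dir]; omega
      · simp only [deep]; omega
      · simp [deep, rev, dir]; omega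
      · have : ind {(u, y), (rev ((u, y), 0)).1} (g x y) = fun p => g p.1 p.2 := funext fun p => by
          rw [h5 p.1 p.2]
          simp [ind, rev, dir, Prod.ext_iff, or_and_right]
        exact this ▸ hg
    · have c' : 4 ≤ y ∧ y < n - 4 := by simp only [cq] at q; omega
      rcases h.swap.coreA hT (x := y) (y := x) e c'.1 c'.2 with
        ⟨h1, h2⟩ | ⟨h1, h2, u, u1, u2, h3, h5⟩
      · exact .inl ⟨_, star x y h1 fun a b k => (h2 b a k).symm⟩
      refine .inr (.inl ⟨⟨((x, u), 1), ?_, ?_, ?_, g x y, by omega, ?_⟩, l4 h1⟩)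
      · simp [hes, iso_box, dir]; omega
      · simp only [deep]; omega
      · simp [deep, rev, dir]; omega
      · have : ind {(x, u), (rev ((x, u), 1)).1} (g x y) = fun p => g p.1 p.2 := funext fun p => by
          rw [h5 p.2 p.1]
          simp [ind, rev, dir, Prod.ext_iff, and_comm, and_or_left]
        exact this ▸ hg
  have cqt : Cqt n β := ⟨_, hg, fun p e => ⟨iso_box.2 (h.sup _ _ e), q _ _ e⟩⟩
  by_cases t4 : T = 4
  · exact .inr (.inr ⟨cqt, .inl (l4 t4)⟩)
  obtain ⟨x, y, e⟩ : ∃ x y, g x y ≠ 0 := by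
    by_contra k
    push Not at k
    exact h0 (funext fun e => by
      by_cases he : e ∈ hes n
      · simpa [k] using hg e he
      · exact ha.2 e he)
  have fin : ∀ (x y : ℤ) (d : Fin 4), corner n (x, y) → (x, y) + dir d ∈ box n → g x y ≠ 0 →
      g (x + (dir d).1) (y + (dir d).2) = 0 → ∃ e ∈ hes n, corner n e.1 ∧ β e ≠ 0 :=
    fun x y d c b e z => by
      have m : ((x, y), d) ∈ hes n := mem_hes.2 ⟨iso_box.2 (h.sup x y e), b⟩
      refine ⟨_, m, c, ?_⟩
      rw [hg _ m]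
      simpa [rev, z] using e
  by_cases k : ∃ a b, g a b ≠ 0 ∧ x ≠ a
  · obtain ⟨a, b, e', k⟩ := k
    obtain ⟨t3, hy, u, hu, u1, u2⟩ := h.coreB e e' k (by omega)
    refine .inr (.inr ⟨cqt, .inr ⟨l3 t3, ?_⟩⟩)
    rcases hy with rfl | rfl
    · exact fin u _ 1 ⟨hu, .inl rfl⟩ (by simp [iso_box, dir]; omega) u1 (by simp [dir, u2])
    · exact fin u _ 3 ⟨hu, .inr rfl⟩ (by simp [iso_box, dir]; omega) u1 (by simp [dir, u2])
  by_cases k' : ∃ a b, g a b ≠ 0 ∧ y ≠ b
  · obtain ⟨a, b, e', k'⟩ := k'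
    obtain ⟨t3, hy, u, hu, u1, u2⟩ := h.swap.coreB (x := y) (y := x) e e' k' (by omega)
    refine .inr (.inr ⟨cqt, .inr ⟨l3 t3, ?_⟩⟩)
    rcases hy with rfl | rfl
    · exact fin _ u 0 ⟨.inl rfl, hu⟩ (by simp [iso_box, dir]; omega) u1 (by simp [dir, u2])
    · exact fin _ u 2 ⟨.inr rfl, hu⟩ (by simp [iso_box, dir]; omega) u1 (by simp [dir, u2])
  push Not at k k'
  have t := h.tot {y} {x}
  rw [sum_singleton, sum_singleton] at t
  have := h.rle x y
  have := h.cle x y
  exact .inl ⟨_, star x y (by omega) fun a b e' => ⟨(k a b e').symm, (k' a b e').symm⟩⟩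

end Pool.Agent.Lib.MP_9cc147_pr.Cx.Pe
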