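import Pool.Agent.Lib.MP_9cc147_pr.Cx.Pe.Bas

/-! Local structure near edges all of whose clusters are tame. -/

open scoped Classical
open Finset

noncomputable section
namespace Pool.Agent.Lib.MP_9cc147_pr.Cx.Pe

variable {R n ρ : ℕ} {S : Finset P} {δ : Form R}

theorem loc_ne (e : Ed) : (rev e).1 ≠ e.1 := by
  obtain ⟨x, d⟩ := e
  fin_cases d <;> simp [rev, dir, Prod.ext_iff]

theorem loc_edge (hn : 10 ≤ n) {x : P} (hx : x ∈ box n) : ∃ d, (x, d) ∈ hes n := by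
  have h := mem_box.1 hx
  by_cases h1 : x.1 + 1 < n
  · refine ⟨0, mem_hes.2 ⟨hx, mem_box.2 ?_⟩⟩
    simp [rev, dir]
    omega
  · refine ⟨2, mem_hes.2 ⟨hx, mem_box.2 ?_⟩⟩
    simp [rev, dir]
    omega

/-- supported on at most two sites and the corner squares -/
def Sm (n : ℕ) (f : P → ℤ) : Prop :=
  ∃ A : Finset P, A.card ≤ 2 ∧ ∀ x, f x ≠ 0 → x ∈ A ∨ cq n x

theorem loc_sm {A : Finset P} (hA : A.card ≤ 2) (c : ℤ) : Sm n (ind A c) :=
  ⟨A, hA, fun x h => Or.inl (by by_contra hx; exact h (if_neg hx))⟩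

theorem loc_uniq (hn : 10 ≤ n) {β : Ed → ℤ} {f g : P → ℤ} (hf : Gr n β f) (hg : Gr n β g)
    (sf : Sm n f) (sg : Sm n g) : ∀ x ∈ box n, f x = g x := by
  obtain ⟨A, hA, h1⟩ := sf
  obtain ⟨B, hB, h2⟩ := sg
  have hc : (A ∪ B).card < ((Ico (0 : ℤ) 5).image fun j => ((4 : ℤ), j)).card := by
    rw [card_image_of_injective _ fun a b h => (Prod.ext_iff.1 h).2]
    have := card_union_le A B
    simp
    omega
  obtain ⟨z, hz, hz'⟩ := exists_mem_notMem_of_card_lt_card hc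
  obtain ⟨j, hj, rfl⟩ := mem_image.1 hz
  rw [mem_Ico] at hj
  have hq : ¬ cq n (4, j) := by
    unfold cq
    simp only
    omega
  refine gr_unique hf hg (z := (4, j)) (mem_box.2 (by simp only; omega)) ?_
  have a : f (4, j) = 0 := by
    by_contra h
    exact (h1 _ h).elim (fun h => hz' (mem_union_left _ h)) hq
  have b : g (4, j) = 0 := by
    by_contra h
    exact (h2 _ h).elim (fun h => hz' (mem_union_right _ h)) hq
  rw [a, b]

theorem loc_star_ne {β : Ed → ℤ} {e : Ed} (he : e ∈ hes n) {x : P} (hs : Star n β x)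
    (hx : x = e.1 ∨ x = (rev e).1) : β e = 1 ∨ β e = -1 := by
  obtain ⟨-, c, hc, hg⟩ := hs
  have h := hg e he
  have hne := loc_ne e
  rcases hx with rfl | rfl
  · simp only [ind, mem_singleton, hne, if_false, if_true] at h
    omega
  · simp only [ind, mem_singleton, hne.symm, if_false, if_true] at h
    omega

theorem loc_star_star (hn : 10 ≤ n) {β : Ed → ℤ} {x y : P} (hx : Star n β x) (hy : Star n β y) :
    x = y := by
  obtain ⟨hb, c, hc, hg⟩ := hx
  obtain ⟨-, c', -, hg'⟩ := hy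
  have h := loc_uniq hn hg hg' (loc_sm (by simp) _) (loc_sm (by simp) _) x hb
  by_contra hne
  simp only [ind, mem_singleton, hne, if_false, if_true] at h
  omega

theorem loc_star_dom (hn : 10 ≤ n) {β : Ed → ℤ} {x : P} {e : Ed} (hx : Star n β x)
    (he : Dom n β e) : False := by
  obtain ⟨-, c, -, hg⟩ := hx
  obtain ⟨he, -, -, c', hc, hg'⟩ := he
  have h := loc_uniq hn hg hg' (loc_sm (by simp) _) (loc_sm card_le_two _)
  have h1 := h _ (mem_hes.1 he).1
  have h2 := h _ (mem_hes.1 he).2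
  have hne := loc_ne e
  simp only [ind, mem_singleton, mem_insert, true_or, or_true, if_true] at h1 h2
  by_cases a : e.1 = x
  · rw [if_neg (fun b => hne (b.trans a.symm))] at h2
    omega
  · rw [if_neg a] at h1
    omega

theorem loc_mem {c : Fin (ng R) × Finset Ed} {e : Ed} (h : bet δ c e ≠ 0) : e ∈ c.2 := by
  by_contra hh
  exact h (if_neg hh)

theorem loc_cls {c : Fin (ng R) × Finset Ed} (hc : c ∈ Cls n ρ δ) {e : Ed} (h : bet δ c e ≠ 0) :
    δ e c.1 ≠ 0 ∧ c = (c.1, cl n ρ δ c.1 e) := by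
  obtain ⟨-, h2, h3⟩ := cls_eq hc (loc_mem h)
  exact ⟨h2, Prod.ext rfl h3⟩

theorem loc_bt {e : Ed} (he : e ∈ hes n) (i : Fin (ng R)) : bt n ρ δ i e e = δ e i :=
  if_pos (mem_cl_self he)

theorem loc_sx {e : Ed} (he : e ∈ hes n) {x : P} (hx : x = e.1 ∨ x = (rev e).1)
    (i : Fin (ng R)) : Sx n ρ δ x i ↔ δ e i ≠ 0 ∧ Star n (bt n ρ δ i e) x := by
  constructor
  · rintro ⟨c, hc, rfl, hs⟩
    have h0 : bet δ c e ≠ 0 := by have := loc_star_ne he hs hx; omega
    obtain ⟨h1, h2⟩ := loc_cls hc h0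
    refine ⟨h1, ?_⟩
    rw [bt, ← h2]
    exact hs
  · rintro ⟨h1, h2⟩
    exact ⟨_, cl_mem he h1, rfl, h2⟩

theorem edge_id (hn : 10 ≤ n) (hρ : 1 ≤ ρ) (hδ : Fm n S δ) {k : Ed → ℝ} {e : Ed} (he : e ∈ hes n)
    (h1 : ¬ cq n e.1) (h2 : ¬ cq n (rev e).1) (ht : ∀ i, δ e i ≠ 0 → Tame n k (bt n ρ δ i e)) :
    nrm (δ e) = ns n ρ δ e.1 + ns n ρ δ (rev e).1 + wd n ρ k δ e := by
  have _ := hρ
  have _ := hδ
  unfold nrm ns wd
  rw [sum_filter, sum_filter, sum_filter, ← sum_add_distrib, ← sum_add_distrib]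
  refine sum_congr rfl fun i _ => ?_
  rw [loc_sx he (Or.inl rfl), loc_sx he (Or.inr rfl)]
  by_cases h0 : δ e i = 0
  · simp [h0]
  have hb := loc_bt (ρ := ρ) (δ := δ) he i
  have hne := loc_ne e
  rcases ht i h0 with ⟨y, hy⟩ | ⟨f, hf, hq⟩ | hd
  · have hnd : ¬ Dmk n k (bt n ρ δ i e) := fun ⟨_, h, _⟩ => loc_star_dom hn hy h
    have hy' : y = e.1 ∨ y = (rev e).1 := by
      obtain ⟨-, c, -, hg⟩ := hy
      have h := hg e he
      by_contra hh
      rw [not_or] at hh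
      simp only [ind, mem_singleton, Ne.symm hh.1, Ne.symm hh.2, if_false] at h
      omega
    have h3 : (δ e i).natAbs = 1 := by have := loc_star_ne he hy hy'; omega
    rcases hy' with rfl | rfl
    · have : ¬ Star n (bt n ρ δ i e) (rev e).1 := fun h => hne (loc_star_star hn h hy)
      simp [h0, hy, this, hnd, h3]
    · have : ¬ Star n (bt n ρ δ i e) e.1 := fun h => hne (loc_star_star hn hy h)
      simp [h0, hy, this, hnd, h3]
  · have h := hf e he
    have a : f e.1 = 0 := by by_contra h; exact h1 (hq _ h).2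
    have b : f (rev e).1 = 0 := by by_contra h; exact h2 (hq _ h).2
    omega
  · have hs : ∀ y, ¬ Star n (bt n ρ δ i e) y := fun y hy => by
      obtain ⟨_, h, _⟩ := hd
      exact loc_star_dom hn hy h
    have h3 : (δ e i).natAbs = 1 := by
      obtain ⟨e', ⟨-, -, -, c, hc, hg⟩, -⟩ := hd
      have h := hg e he
      unfold ind at h
      split_ifs at h <;> omega
    simp [h0, hs, hd, h3]

theorem ns_out (hρ : 1 ≤ ρ) (hδ : Fm n S δ) (hS : Sol n S) {x : P} (hx : x ∉ S) :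
    ns n ρ δ x = 0 := by
  have _ := hρ
  refine sum_eq_zero fun i hi => ?_
  obtain ⟨c, hc, -, hs⟩ := (mem_filter.1 hi).2
  obtain ⟨d, -, -, he, -, hd, -⟩ := hS x hs.1 hx
  have h0 : bet δ c (x, d) ≠ 0 := by have := loc_star_ne he hs (Or.inl rfl); omega
  have h1 : δ (x, d) = 0 := hδ.off _ fun h => (mem_filter.1 h).2.elim hx hd
  exact absurd (by rw [h1]; rfl) (loc_cls hc h0).1

theorem loc_fin {β : Ed → ℤ} (h : (∃ x, Star n β x) ∨ Cqt n β) : ∃ f, Fin0 n β f := by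
  rcases h with ⟨x, hx, c, hc, hg⟩ | ⟨f, hf, hq⟩
  · exact ⟨_, hg, Or.inl ⟨x, hx, c, hc, rfl⟩⟩
  · exact ⟨f, hf, Or.inr hq⟩

theorem loc_pot {β : Ed → ℤ} (h : ∃ f, Fin0 n β f) : Fin0 n β (pot n β) := by
  rw [pot, dif_pos h]
  exact h.choose_spec

theorem lbl_grad {e : Ed} (he : e ∈ hes n)
    (ht : ∀ i, δ e i ≠ 0 → (∃ x, Star n (bt n ρ δ i e) x) ∨ Cqt n (bt n ρ δ i e)) :
    δ e = lbl n ρ δ (rev e).1 - lbl n ρ δ e.1 := by
  funext i
  simp only [Pi.sub_apply, lbl]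
  rw [← sum_sub_distrib]
  have h : ∀ c ∈ (Cls n ρ δ).filter (fun c => c.1 = i),
      pot n (bet δ c) (rev e).1 - pot n (bet δ c) e.1 = bet δ c e := fun c hc => by
    by_cases h1 : ∃ f, Fin0 n (bet δ c) f
    · exact ((loc_pot h1).1 e he).symm
    · rw [pot, dif_neg h1]
      by_contra h2
      obtain ⟨h3, h4⟩ := loc_cls (mem_filter.1 hc).1 (e := e) fun h => h2 (by simp [h])
      refine h1 (loc_fin ?_)
      rw [h4]
      exact ht _ h3
  rw [sum_congr rfl h]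
  by_cases h0 : δ e i = 0
  · rw [h0]
    refine (sum_eq_zero fun c hc => ?_).symm
    by_contra h2
    exact (loc_cls (mem_filter.1 hc).1 h2).1 (by rw [(mem_filter.1 hc).2, h0])
  · have hm : (i, cl n ρ δ i e) ∈ (Cls n ρ δ).filter (fun c => c.1 = i) :=
      mem_filter.2 ⟨cl_mem he h0, rfl⟩
    refine (loc_bt (ρ := ρ) he i).symm.trans (sum_eq_single_of_mem (f := fun c => bet δ c e)
      (i, cl n ρ δ i e) hm ?_).symm
    intro c hc hne
    by_contra h2
    have := (loc_cls (mem_filter.1 hc).1 h2).2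
    rw [(mem_filter.1 hc).2] at this
    exact hne this

theorem loc_pot_star {β : Ed → ℤ} {x : P} (h : ¬ cq n x) (h0 : pot n β x ≠ 0) : Star n β x := by
  by_cases h1 : ∃ f, Fin0 n β f
  · obtain ⟨hg, ⟨y, hy, c, hc, hf⟩ | hq⟩ := loc_pot h1
    · rw [hf] at h0 hg
      have : x = y := by
        by_contra hh
        exact h0 (if_neg (by simpa using hh))
      exact this ▸ ⟨this ▸ hy, c, hc, this ▸ hg⟩
    · exact absurd (hq x h0).2 h
  · rw [pot, dif_neg h1] at h0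
    exact absurd rfl h0

theorem loc_star_pot (hn : 10 ≤ n) {β : Ed → ℤ} {x : P} (hs : Star n β x) :
    (pot n β x).natAbs = 1 := by
  obtain ⟨hg, h2⟩ := loc_pot (loc_fin (Or.inl ⟨x, hs⟩))
  obtain ⟨hb, c, hc, hg'⟩ := hs
  have hsm : Sm n (pot n β) := by
    rcases h2 with ⟨y, -, c, -, hf⟩ | hq
    · rw [hf]
      exact loc_sm (by simp) _
    · exact ⟨∅, by simp, fun x h => Or.inr (hq x h).2⟩
  have h := loc_uniq hn hg hg' hsm (loc_sm (by simp) _) x hb
  simp only [ind, mem_singleton, if_true] at h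
  omega

theorem loc_lbl_sx {x : P} (h : ¬ cq n x) {i : Fin (ng R)} (h0 : lbl n ρ δ x i ≠ 0) :
    Sx n ρ δ x i := by
  obtain ⟨c, hc, h1⟩ := exists_ne_zero_of_sum_ne_zero h0
  exact ⟨c, (mem_filter.1 hc).1, (mem_filter.1 hc).2, loc_pot_star h h1⟩

theorem lbl_nrm (hn : 10 ≤ n) {x : P} (hx : x ∈ box n) (h : ¬ cq n x) :
    nrm (lbl n ρ δ x) = ns n ρ δ x := by
  unfold nrm ns
  rw [sum_filter]
  refine sum_congr rfl fun i _ => ?_
  split_ifs with hs
  · obtain ⟨d, he⟩ := loc_edge hn hx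
    obtain ⟨h1, h2⟩ := (loc_sx he (Or.inl rfl) i).1 hs
    have h3 : lbl n ρ δ x i = pot n (bt n ρ δ i (x, d)) x := by
      refine sum_eq_single_of_mem (i, cl n ρ δ i (x, d)) (mem_filter.2 ⟨cl_mem he h1, rfl⟩) ?_
      intro c hc hne
      by_contra h4
      have h5 := loc_star_ne he (loc_pot_star h h4) (Or.inl rfl)
      have := (loc_cls (mem_filter.1 hc).1 (e := (x, d)) (by omega)).2
      rw [(mem_filter.1 hc).2] at this
      exact hne this
    rw [h3, loc_star_pot hn h2, mul_one]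
  · have : lbl n ρ δ x i = 0 := by
      by_contra h0
      exact hs (loc_lbl_sx h h0)
    simp [this]

theorem lbl_gen (hn : 10 ≤ n) {x y : P} (hx : x ∈ box n) (hy : y ∈ box n) (h : ¬ cq n x)
    (h' : ¬ cq n y) (hne : x ≠ y) (hd : nr ρ x y) (i : Fin (ng R)) :
    lbl n ρ δ x i = 0 ∨ lbl n ρ δ y i = 0 := by
  by_contra hh
  rw [not_or] at hh
  obtain ⟨d, he⟩ := loc_edge hn hx
  obtain ⟨d', he'⟩ := loc_edge hn hy
  obtain ⟨a1, a2⟩ := (loc_sx he (Or.inl rfl) i).1 (loc_lbl_sx h hh.1)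
  obtain ⟨b1, b2⟩ := (loc_sx he' (Or.inl rfl) i).1 (loc_lbl_sx h' hh.2)
  rw [bt, cl_near a1 b1 hd] at a2
  exact hne (loc_star_star hn a2 b2)

end Pool.Agent.Lib.MP_9cc147_pr.Cx.Pe
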