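import Pool.Agent.Lib.MP_9cc147_pr.Cx.S2

/-! A pure tile determines its phase and its labels. -/

open scoped Classical
open Finset

namespace Pool.Agent.Lib.MP_9cc147_pr.Cx

theorem pe_mem_cell {L : ℕ} {T x : P} : x ∈ cell L T ↔
    (T.1 * L ≤ x.1 ∧ x.1 < (T.1 + 1) * L) ∧ T.2 * L ≤ x.2 ∧ x.2 < (T.2 + 1) * L := by
  simp [cell, mem_product]

theorem pe_mem_box {n : ℕ} {x : P} : x ∈ box n ↔ (0 ≤ x.1 ∧ x.1 < n) ∧ 0 ≤ x.2 ∧ x.2 < n := by
  simp [box, mem_product]

theorem pe_mem_hes {n : ℕ} {e : P × Fin 4} :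
    e ∈ hes n ↔ e.1 ∈ box n ∧ e.1 + dir e.2 ∈ box n := by
  simp [hes, mem_product]

/-- a function that does not change along the edges of a tile is constant on it -/
theorem pe_const {α : Type} {L : ℕ} {T : P} (f : P → α)
    (h : ∀ x d, x ∈ cell L T → x + dir d ∈ cell L T → f (x + dir d) = f x) :
    ∀ x ∈ cell L T, f x = f (T.1 * L, T.2 * L) := by
  have h1 : ∀ i : ℕ, i < L → f (T.1 * L + i, T.2 * L) = f (T.1 * L, T.2 * L) := by
    intro i
    induction i with
    | zero => simp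
    | succ i ih =>
      intro hi
      have e : ((T.1 * L + (i + 1 : ℕ), T.2 * L) : P) = (T.1 * L + i, T.2 * L) + dir 0 := by
        simp [dir, add_assoc]
      rw [← ih (by omega), e]
      refine h _ 0 ?_ (e ▸ ?_) <;> simp only [pe_mem_cell, add_mul, one_mul] <;> omega
  have h2 : ∀ i : ℕ, i < L → ∀ j : ℕ, j < L →
      f (T.1 * L + i, T.2 * L + j) = f (T.1 * L, T.2 * L) := by
    intro i hi j
    induction j with
    | zero => simpa using fun _ => h1 i hi
    | succ j ih =>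
      intro hj
      have e : ((T.1 * L + i, T.2 * L + (j + 1 : ℕ)) : P) =
          (T.1 * L + i, T.2 * L + j) + dir 1 := by
        simp [dir, add_assoc]
      rw [← ih (by omega), e]
      refine h _ 1 ?_ (e ▸ ?_) <;> simp only [pe_mem_cell, add_mul, one_mul] <;> omega
  intro x hx
  simp only [pe_mem_cell, add_mul, one_mul] at hx
  have := h2 (x.1 - T.1 * L).toNat (by omega) (x.2 - T.2 * L).toNat (by omega)
  rw [← this]
  congr 1
  ext <;> simp only <;> omega

theorem pe_typ_inj {s s' : Lab} {x : P} (h : typ s x = typ s' x) : s = s' := by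
  unfold typ at h
  by_cases hx : Even (x.1 + x.2) <;> simp only [hx] at h <;> fin_cases s <;> fin_cases s' <;>
    first | rfl | simp at h

theorem pe_three {p0 p1 p2 r0 r1 r2 g : Prop} (k0 : p0 → r0 → g) (k1 : p1 → r1 → g)
    (k2 : p2 → r2 → g) (a : p0 ∨ p1) (b : p0 ∨ p2) (c : p1 ∨ p2) (d : r0 ∨ r1) (e : r0 ∨ r2)
    (f : r1 ∨ r2) : g := by tauto

theorem t_uni : S_uni := by
  intro R n L T s s' a a' ω ω' δ hL hT h h'
  obtain ⟨hp, hg⟩ := h
  obtain ⟨hp', hg'⟩ := h'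
  obtain ⟨p1, p2, -⟩ := hp T (mem_singleton_self _)
  obtain ⟨p1', p2', -⟩ := hp' T (mem_singleton_self _)
  have hu : under L {T} = cell L T := by simp [under]
  rw [hu] at hg hg'
  have hc := pe_const (L := L) (T := T) (fun x => a x - a' x) fun x d hx hy => by
    have he : (x, d) ∈ hes n := pe_mem_hes.2 ⟨hT hx, hT hy⟩
    have e1 := hg _ he hx hy
    have e2 := hg' _ he hx hy
    simp only [rev] at e1 e2
    have e3 := e1.symm.trans e2
    linear_combination e3
  have c0 := pe_mem_box.1 (hT (pe_mem_cell.2 (show _ from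
    (⟨⟨le_rfl, by simp only [add_mul, one_mul]; omega⟩, le_rfl,
      by simp only [add_mul, one_mul]; omega⟩ :
      (T.1 * L ≤ ((T.1 * L, T.2 * L) : P).1 ∧ ((T.1 * L, T.2 * L) : P).1 < (T.1 + 1) * L) ∧
        T.2 * L ≤ ((T.1 * L, T.2 * L) : P).2 ∧ ((T.1 * L, T.2 * L) : P).2 < (T.2 + 1) * L))))
  have c1 : ((T.1 * L + L - 1, T.2 * L) : P) ∈ cell L T := by
    simp only [pe_mem_cell, add_mul, one_mul]; omega
  have c2 := pe_mem_box.1 (hT c1)
  simp only at c0 c2
  have hm : ∀ j : ℤ, 0 ≤ j → j ≤ 2 → ((T.1 * L + 4 + j, T.2 * L) : P) ∈ cell L T ∧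
      ¬ cq n (T.1 * L + 4 + j, T.2 * L) := fun j h0 h2 => by
    simp only [pe_mem_cell, add_mul, one_mul, cq]; omega
  have hz : a (T.1 * L, T.2 * L) - a' (T.1 * L, T.2 * L) = 0 := by
    funext i
    have key : ∀ j : ℤ, 0 ≤ j → j ≤ 2 → a (T.1 * L + 4 + j, T.2 * L) i = 0 →
        a' (T.1 * L + 4 + j, T.2 * L) i = 0 →
        (a (T.1 * L, T.2 * L) - a' (T.1 * L, T.2 * L)) i = 0 := fun j h0 h2 e e' => by
      rw [← hc _ (hm j h0 h2).1, Pi.sub_apply, e, e', sub_zero]
    have q : ∀ (b : P → Gp R), (∀ x ∈ cell L T, ∀ y ∈ cell L T, ¬ cq n x → ¬ cq n y → x ≠ y →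
        ∀ i, b x i = 0 ∨ b y i = 0) → ∀ j k : ℤ, 0 ≤ j → j ≤ 2 → 0 ≤ k → k ≤ 2 → j ≠ k →
        b (T.1 * L + 4 + j, T.2 * L) i = 0 ∨ b (T.1 * L + 4 + k, T.2 * L) i = 0 :=
      fun b hb j k j0 j2 k0 k2 hjk => hb _ (hm j j0 j2).1 _ (hm k k0 k2).1 (hm j j0 j2).2
        (hm k k0 k2).2 (fun e => hjk (by have := congrArg Prod.fst e; simpa using this)) i
    have k0 := key 0 (by omega) (by omega)
    have k1 := key 1 (by omega) (by omega)
    have k2 := key 2 (by omega) (by omega)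
    have q01 := q a p2 0 1 (by omega) (by omega) (by omega) (by omega) (by omega)
    have q02 := q a p2 0 2 (by omega) (by omega) (by omega) (by omega) (by omega)
    have q12 := q a p2 1 2 (by omega) (by omega) (by omega) (by omega) (by omega)
    have r01 := q a' p2' 0 1 (by omega) (by omega) (by omega) (by omega) (by omega)
    have r02 := q a' p2' 0 2 (by omega) (by omega) (by omega) (by omega) (by omega)
    have r12 := q a' p2' 1 2 (by omega) (by omega) (by omega) (by omega) (by omega)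
    exact pe_three k0 k1 k2 q01 q02 q12 r01 r02 r12
  have ha : ∀ x ∈ cell L T, a x = a' x := fun x hx => sub_eq_zero.1 ((hc x hx).trans hz)
  refine ⟨?_, ha⟩
  obtain ⟨m1, m2⟩ := hm 0 le_rfl (by omega)
  exact pe_typ_inj (by rw [← p1 _ m1 m2, ← p1' _ m1 m2, ha _ m1])

end Pool.Agent.Lib.MP_9cc147_pr.Cx
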