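import Pool.Agent.Lib.MP_9cc147_pr.Cx.Pe.Dmx
import Pool.Agent.Lib.MP_9cc147_pr.Cx.Pe.Tuni

/-! A bad tile sees heavy noise or a lossy edge. -/

open scoped Classical
open Finset

noncomputable section
namespace Pool.Agent.Lib.MP_9cc147_pr.Cx.Pe

theorem pur_div {L a b : ℤ} (hL : 0 < L) (h : a ≤ b + L) : a / L ≤ b / L + 1 := by
  have := Int.ediv_le_ediv hL h
  rwa [show b + L = b + 1 * L by ring, Int.add_mul_ediv_right _ _ hL.ne'] at this

theorem pur_par {L : ℕ} (hL : 3 ≤ L) {x y : P} (h : nr 3 x y) : nr 1 (par L x) (par L y) := by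
  have h0 : (0 : ℤ) < L := by omega
  simp only [nr, abs_le, par] at h ⊢
  have a := pur_div (a := x.1) (b := y.1) h0 (by omega)
  have b := pur_div (a := y.1) (b := x.1) h0 (by omega)
  have c := pur_div (a := x.2) (b := y.2) h0 (by omega)
  have d := pur_div (a := y.2) (b := x.2) h0 (by omega)
  omega

theorem pur_line {Q : ℤ → Prop} {lo hi : ℤ} (h : ∀ a, lo ≤ a → a + 1 < hi → (Q a ↔ Q (a + 1)))
    {a b : ℤ} (a1 : lo ≤ a) (a2 : a < hi) (b1 : lo ≤ b) (b2 : b < hi) : Q a ↔ Q b := by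
  have key : ∀ c, lo ≤ c → c < hi → (Q lo ↔ Q c) := by
    intro c hc
    induction c, hc using Int.leInduction with
    | base => exact fun _ => Iff.rfl
    | succ c hc ih => exact fun h2 => (ih (by omega)).trans (h c hc h2)
  exact (key a a1 a2).symm.trans (key b b1 b2)

theorem pur_typ (s : Lab) {x y : P} (h : y.1 + y.2 = x.1 + x.2 + 1) : typ s x + typ s y = 2 := by
  unfold typ
  simp only [h, Int.even_add_one]
  by_cases hx : Even (x.1 + x.2) <;> simp only [hx] <;> fin_cases s <;> simp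

theorem pur_typ_ex (x : P) {j : ℕ} (hj : j ≤ 2) : ∃ s : Lab, j = typ s x := by
  unfold typ
  by_cases hx : Even (x.1 + x.2) <;> simp only [hx] <;> interval_cases j
  · exact ⟨2, by simp⟩
  · exact ⟨0, by simp⟩
  · exact ⟨1, by simp⟩
  · exact ⟨1, by simp⟩
  · exact ⟨0, by simp⟩
  · exact ⟨2, by simp⟩

theorem pur_mono {R n L : ℕ} {s : Lab} {a : P → Gp R} {ω : Om} {δ : Form R} {V : Finset P}
    (h : pureOn n L s a ω δ V) {A : P} (hA : A ∈ V) : pureOn n L s a ω δ {A} := by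
  have hs : under L {A} ⊆ under L V := biUnion_subset_biUnion_of_subset_left _ (by simpa using hA)
  refine ⟨fun T hT => ?_, fun e he h1 h2 => h.2 e he (hs h1) (hs h2)⟩
  rw [mem_singleton.1 hT]; exact h.1 A hA

theorem pur_tile {L m : ℕ} (hL : 1 ≤ L) {A : P} (hA : A ∈ box m) :
    cell L A ⊆ box (L * m) ∧ 0 ≤ A.1 * L ∧ A.1 * L + L ≤ (L * m : ℕ) ∧ 0 ≤ A.2 * L ∧
      A.2 * L + L ≤ (L * m : ℕ) := by
  have h : cell L A ⊆ box (L * m) := fun x hx => by
    rw [par_box hL, (mem_cell hL).1 hx]; exact hA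
  have h1 := mem_box.1 (h (x := (A.1 * L, A.2 * L)) (by
    simp only [pe_mem_cell, add_mul, one_mul]; omega))
  have h2 := mem_box.1 (h (x := (A.1 * L + L - 1, A.2 * L + L - 1)) (by
    simp only [pe_mem_cell, add_mul, one_mul]; omega))
  simp only at h1 h2
  exact ⟨h, by omega, by omega, by omega, by omega⟩

/-- a weight with sum two along the edges of a tile is the weight of a phase -/
theorem pur_phase {L m : ℕ} (hL : 20 ≤ L) {A : P} (hA : A ∈ box m) (f : P → ℕ)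
    (h : ∀ x d, x ∈ cell L A → x + dir d ∈ cell L A → ¬ cq (L * m) x → ¬ cq (L * m) (x + dir d) →
      f x + f (x + dir d) = 2) : ∃ s, ∀ x ∈ cell L A, ¬ cq (L * m) x → f x = typ s x := by
  obtain ⟨-, a1, a2, a3, a4⟩ := pur_tile (by omega : 1 ≤ L) hA
  generalize L * m = n at *
  have e0 : ∀ a b : ℤ, ((a, b) : P) + dir 0 = (a + 1, b) := fun a b => by ext <;> simp [dir]
  have e1 : ∀ a b : ℤ, ((a, b) : P) + dir 1 = (a, b + 1) := fun a b => by ext <;> simp [dir]
  have h0 := h (A.1 * L + 10, A.2 * L + 10) 0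
    (by simp only [pe_mem_cell, add_mul, one_mul]; omega)
    (by simp only [e0, pe_mem_cell, add_mul, one_mul]; omega)
    (by simp only [cq]; omega) (by simp only [e0, cq]; omega)
  obtain ⟨s, hs⟩ := pur_typ_ex (A.1 * L + 10, A.2 * L + 10)
    (j := f (A.1 * L + 10, A.2 * L + 10)) (by omega)
  have row : ∀ b : ℤ, A.2 * L ≤ b → b < A.2 * L + L → 4 ≤ b → b < n - 4 → ∀ a a' : ℤ,
      A.1 * L ≤ a → a < A.1 * L + L → A.1 * L ≤ a' → a' < A.1 * L + L →
      (f (a, b) = typ s (a, b) ↔ f (a', b) = typ s (a', b)) := by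
    intro b b1 b2 b3 b4 a a' c1 c2 c3 c4
    refine pur_line (Q := fun a => f (a, b) = typ s (a, b)) (fun a d1 d2 => ?_) c1 c2 c3 c4
    have g1 := h (a, b) 0 (by simp only [pe_mem_cell, add_mul, one_mul]; omega)
      (by simp only [e0, pe_mem_cell, add_mul, one_mul]; omega)
      (by simp only [cq]; omega) (by simp only [e0, cq]; omega)
    have g2 := pur_typ s (x := (a, b)) (y := (a + 1, b)) (by simp only; omega)
    rw [e0] at g1
    omega
  have col : ∀ a : ℤ, A.1 * L ≤ a → a < A.1 * L + L → 4 ≤ a → a < n - 4 → ∀ b b' : ℤ,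
      A.2 * L ≤ b → b < A.2 * L + L → A.2 * L ≤ b' → b' < A.2 * L + L →
      (f (a, b) = typ s (a, b) ↔ f (a, b') = typ s (a, b')) := by
    intro a b1 b2 b3 b4 b b' c1 c2 c3 c4
    refine pur_line (Q := fun b => f (a, b) = typ s (a, b)) (fun b d1 d2 => ?_) c1 c2 c3 c4
    have g1 := h (a, b) 1 (by simp only [pe_mem_cell, add_mul, one_mul]; omega)
      (by simp only [e1, pe_mem_cell, add_mul, one_mul]; omega)
      (by simp only [cq]; omega) (by simp only [e1, cq]; omega)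
    have g2 := pur_typ s (x := (a, b)) (y := (a, b + 1)) (by simp only; omega)
    rw [e1] at g1
    omega
  refine ⟨s, ?_⟩
  rintro ⟨a, b⟩ hx hc
  simp only [pe_mem_cell, add_mul, one_mul, cq] at hx hc
  by_cases ha : 4 ≤ a ∧ a < n - 4
  · rw [col a hx.1.1 hx.1.2 ha.1 ha.2 b (A.2 * L + 10) hx.2.1 hx.2.2 (by omega) (by omega),
      row _ (by omega) (by omega) (by omega) (by omega) a (A.1 * L + 10) hx.1.1 hx.1.2
        (by omega) (by omega)]
    exact hs
  · rw [row b hx.2.1 hx.2.2 (by omega) (by omega) a (A.1 * L + 10) hx.1.1 hx.1.2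
        (by omega) (by omega),
      col _ (by omega) (by omega) (by omega) (by omega) b (A.2 * L + 10) hx.2.1 hx.2.2
        (by omega) (by omega)]
    exact hs

/-- an edge away from the corner squares between two neighbouring tiles -/
theorem pur_seam {L m : ℕ} (hL : 20 ≤ L) {A : P} (hA : A ∈ box m) {d : Fin 4} (hd : d = 0 ∨ d = 1) :
    ∃ x ∈ cell L A, x + dir d ∈ cell L (A + dir d) ∧ ¬ cq (L * m) x ∧ ¬ cq (L * m) (x + dir d) ∧
      (x + dir d).1 + (x + dir d).2 = x.1 + x.2 + 1 := by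
  obtain ⟨-, a1, a2, a3, a4⟩ := pur_tile (by omega : 1 ≤ L) hA
  generalize L * m = n at *
  rcases hd with rfl | rfl
  · have e0 : ∀ x : P, x + dir 0 = (x.1 + 1, x.2) := fun x => by ext <;> simp [dir]
    refine ⟨(A.1 * L + L - 1, A.2 * L + 10), ?_⟩
    simp only [e0, pe_mem_cell, add_mul, one_mul, cq]
    omega
  · have e0 : ∀ x : P, x + dir 1 = (x.1, x.2 + 1) := fun x => by ext <;> simp [dir]
    refine ⟨(A.1 * L + 10, A.2 * L + L - 1), ?_⟩
    simp only [e0, pe_mem_cell, add_mul, one_mul, cq]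
    omega

theorem pur_lem {R L m ρ : ℕ} (hL : 20 ≤ L) (hρ : L ≤ ρ) {X : Finset P} (hX : X ⊆ box m)
    {k : Ed → ℝ} (hk : Gau (L * m) (under L X) k) {ω : Om} {σ : P → Option Lab} {δ : Form R}
    (hδ : δ ∈ adm R (L * m) L m ω X σ) {T : P} (hT : T ∈ X) :
    (∃ T' ∈ hvy (L * m) L ω X, nr 1 T' T) ∨
      ∃ e ∈ Ls (L * m) ρ (under L X) k δ, nr 2 (par L e.1) T := by
  by_contra hcon
  rw [not_or] at hcon
  obtain ⟨c1, c2⟩ := hcon
  obtain ⟨hF, hb, hbad⟩ := mem_filter.1 hδ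
  have hFm := fm_of_forms hF
  have hL1 : 1 ≤ L := by omega
  have hn : 10 ≤ L * m := by
    have := (pur_tile hL1 (hX hT)).2
    omega
  have hV : ∀ A, A ∈ near 1 X {T} ↔ A ∈ X ∧ nr 1 T A := fun A => by simp [near]
  have nr0 : ∀ A : P, nr 1 A A := fun A => by simp [nr]
  -- edges that start near `T` carry no loss and no domino
  have tame : ∀ e ∈ hes (L * m), par L e.1 ∈ near 1 X {T} →
      ¬ lossy (L * m) ρ (under L X) k δ e ∧
        ∀ i, δ e i ≠ 0 → ¬ Dmk (L * m) k (bt (L * m) ρ δ i e) := by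
    intro e he h1
    obtain ⟨h2, h3⟩ := (hV _).1 h1
    refine ⟨fun h => c2 ⟨e, mem_filter.2 ⟨he, (mem_under hL1).2 h2, h⟩,
      nr_mono (by omega) (nr_symm h3)⟩, fun i hi => ?_⟩
    refine no_dom (by omega) (by omega) hX hk hFm he (fun e' he' hn' => c2 ⟨e', he', ?_⟩) i hi
    have h4 := pur_par (by omega : 3 ≤ L) hn'
    simp only [nr, abs_le] at h3 h4 ⊢
    omega
  have hid : ∀ A ∈ near 1 X {T}, ∀ B ∈ near 1 X {T}, ∀ x d, x ∈ cell L A → x + dir d ∈ cell L B →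
      ¬ cq (L * m) x → ¬ cq (L * m) (x + dir d) →
      ns (L * m) ρ δ x + ns (L * m) ρ δ (x + dir d) = 2 := by
    intro A hA B hB x d hx hy cx cy
    have he : (x, d) ∈ hes (L * m) := mem_hes.2
      ⟨(pur_tile hL1 (hX ((hV A).1 hA).1)).1 hx, (pur_tile hL1 (hX ((hV B).1 hB).1)).1 hy⟩
    have px := (mem_cell hL1).1 hx
    have py := (mem_cell hL1).1 hy
    obtain ⟨t1, t2⟩ := tame (x, d) he (px ▸ hA)
    simp only [lossy, not_or, not_and, not_exists, not_not] at t1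
    have sx : x ∈ under L X := (mem_under hL1).2 (px ▸ ((hV A).1 hA).1)
    have sy : x + dir d ∈ under L X := (mem_under hL1).2 (py ▸ ((hV B).1 hB).1)
    have i1 := edge_id hn (by omega : 1 ≤ ρ) hFm he cx cy t1.2
    have i2 : wd (L * m) ρ k δ (x, d) = 0 :=
      sum_eq_zero fun i hi => absurd (mem_filter.1 hi).2.2 (t2 i (mem_filter.1 hi).2.1)
    rw [(hFm.ins _ he sx sy).resolve_left (t1.1 sy), i2] at i1
    exact i1.symm
  have hgr : grad (L * m) (under L (near 1 X {T})) (lbl (L * m) ρ δ) δ := by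
    intro e he h1 _
    obtain ⟨t1, t2⟩ := tame e he ((mem_under hL1).1 h1)
    simp only [lossy, not_or, not_and, not_exists, not_not] at t1
    refine lbl_grad he fun i hi => ?_
    rcases t1.2 i hi with h | h | h
    · exact Or.inl h
    · exact Or.inr h
    · exact absurd h (t2 i hi)
  have ex : ∀ A ∈ near 1 X {T}, ∃ s, ∀ x ∈ cell L A, ¬ cq (L * m) x →
      ns (L * m) ρ δ x = typ s x :=
    fun A hA => pur_phase hL (hX ((hV A).1 hA).1) _ (hid A hA A hA)
  choose! sf hsf using ex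
  have po : ∀ A ∈ near 1 X {T}, pure (L * m) L (sf A) (lbl (L * m) ρ δ) ω A := by
    intro A hA
    have hc := (pur_tile hL1 (hX ((hV A).1 hA).1)).1
    refine ⟨fun x hx cx => ?_, fun x hx y hy cx cy hne i => ?_, fun e he h1 => ?_⟩
    · rw [lbl_nrm hn (hc hx) cx, hsf A hA x hx cx]
    · refine lbl_gen hn (hc hx) (hc hy) cx cy hne ?_ i
      simp only [pe_mem_cell, add_mul, one_mul] at hx hy
      simp only [nr, abs_le]
      omega
    · by_contra h
      exact c1 ⟨A, mem_filter.2 ⟨((hV A).1 hA).1, e, he, h1, h⟩, nr_symm ((hV A).1 hA).2⟩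
  have po1 : ∀ A ∈ near 1 X {T}, pureOn (L * m) L (sf A) (lbl (L * m) ρ δ) ω δ {A} := by
    intro A hA
    have hs : under L {A} ⊆ under L (near 1 X {T}) :=
      biUnion_subset_biUnion_of_subset_left _ (by simpa using hA)
    refine ⟨fun B hB => ?_, fun e he h1 h2 => hgr e he (hs h1) (hs h2)⟩
    rw [mem_singleton.1 hB]; exact po A hA
  have adj : ∀ A ∈ near 1 X {T}, ∀ B ∈ near 1 X {T}, ∀ d, d = 0 ∨ d = 1 → B = A + dir d →
      sf A = sf B := by
    rintro A hA _ hB d hd rfl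
    obtain ⟨x, hx, hy, cx, cy, hp⟩ := pur_seam hL (hX ((hV A).1 hA).1) hd
    have g1 := hid A hA _ hB x d hx hy cx cy
    have g2 := pur_typ (sf A) hp
    rw [hsf A hA x hx cx, hsf _ hB _ hy cy] at g1
    exact pe_typ_inj (x := x + dir d) (by omega)
  have out : ∀ B ∈ box m, B ∉ X → nr 1 T B → ∃ s, σ B = some s ∧
      ∀ A ∈ near 1 X {T}, nr 1 B A → sf A = s := by
    intro B hB hBX hTB
    obtain ⟨s, a, h1, h2, -⟩ := hb B (mem_sdiff.2 ⟨mem_filter.2 ⟨hB, T, hT, hTB⟩, hBX⟩)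
    refine ⟨s, h1, fun A hA hBA => ?_⟩
    exact (t_uni R (L * m) L A _ _ _ _ ω ω δ hL (pur_tile hL1 (hX ((hV A).1 hA).1)).1 (po1 A hA)
      (pur_mono h2 (mem_filter.2 ⟨((hV A).1 hA).1, B, mem_singleton_self _, hBA⟩))).1
  have hTV : T ∈ near 1 X {T} := (hV T).2 ⟨hT, nr0 T⟩
  have all : ∀ A ∈ near 1 X {T}, sf A = sf T := by
    intro A hA
    obtain ⟨hAX, hTA⟩ := (hV A).1 hA
    have n1 : nr 1 T (A.1, T.2) := ⟨hTA.1, by simp⟩
    have n2 : nr 1 (A.1, T.2) A := ⟨by simp, hTA.2⟩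
    by_cases hB : (A.1, T.2) ∈ X
    · have hBV := (hV _).2 ⟨hB, n1⟩
      simp only [nr, abs_le] at hTA
      have s1 : sf (A.1, T.2) = sf T := by
        rcases (by omega : A.1 = T.1 ∨ A.1 = T.1 + 1 ∨ T.1 = A.1 + 1) with h | h | h
        · rw [h]
        · exact (adj T hTV _ hBV 0 (Or.inl rfl) (by ext <;> simp [dir, h])).symm
        · exact adj _ hBV T hTV 0 (Or.inl rfl) (by ext <;> simp [dir, h])
      have s2 : sf A = sf (A.1, T.2) := by
        rcases (by omega : T.2 = A.2 ∨ A.2 = T.2 + 1 ∨ T.2 = A.2 + 1) with h | h | h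
        · rw [h]
        · exact (adj _ hBV A hA 1 (Or.inr rfl) (by ext <;> simp [dir, h])).symm
        · exact adj A hA _ hBV 1 (Or.inr rfl) (by ext <;> simp [dir, h])
      exact s2.trans s1
    · obtain ⟨s, -, h⟩ := out (A.1, T.2)
        (mem_box.2 ⟨(mem_box.1 (hX hAX)).1, (mem_box.1 (hX hT)).2⟩) hB n1
      exact (h A hA n2).trans (h T hTV (nr_symm n1)).symm
  refine hbad T hT ⟨sf T, lbl (L * m) ρ δ, ⟨fun A hA => all A hA ▸ po A hA, hgr⟩, fun B hB => ?_⟩
  obtain ⟨b1, b2⟩ := mem_sdiff.1 hB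
  obtain ⟨b3, T0, b4, b5⟩ := mem_filter.1 b1
  rw [mem_singleton.1 b4] at b5
  obtain ⟨s, h1, h2⟩ := out B b3 b2 b5
  rw [h1, h2 T hTV (nr_symm b5)]

end Pool.Agent.Lib.MP_9cc147_pr.Cx.Pe
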