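import Pool.Agent.Lib.MP_9cc147_pr.Cx.Pe.Cap

/-! The exponent is at most the capacity minus the loss. -/

open scoped Classical
open Finset

noncomputable section
namespace Pool.Agent.Lib.MP_9cc147_pr.Cx.Pe

section aux
variable {R n ρ : ℕ} {S : Finset P} {δ : Form R}

theorem sum_hes (hδ : Fm n S δ) {e : Ed} (h : δ e ≠ 0) : e ∈ hes n := by
  by_contra hn
  exact h (hδ.off e fun he => hn (mem_filter.1 he).1)

/-- the clusters through an edge are indexed by the generators on it -/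
theorem sum_cls (hδ : Fm n S δ) (e : Ed) (F : Fin (ng R) × Finset Ed → ℝ) :
    ∑ c ∈ Cls n ρ δ, |(bet δ c e : ℝ)| * F c = ∑ i, |(δ e i : ℝ)| * F (i, cl n ρ δ i e) := by
  have h1 : (Cls n ρ δ).filter (fun c => e ∈ c.2) =
      (univ.filter fun i => δ e i ≠ 0).image fun i => (i, cl n ρ δ i e) := by
    ext c
    simp only [mem_filter, mem_image, mem_univ, true_and]
    constructor
    · rintro ⟨hc, he⟩
      obtain ⟨-, h2, h3⟩ := cls_eq hc he
      exact ⟨c.1, h2, Prod.ext rfl h3.symm⟩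
    · rintro ⟨i, hi, rfl⟩
      have he : e ∈ hes n := sum_hes hδ fun h => hi (by rw [h]; rfl)
      exact ⟨cl_mem he hi, mem_cl_self he⟩
  calc ∑ c ∈ Cls n ρ δ, |(bet δ c e : ℝ)| * F c
      = ∑ c ∈ (Cls n ρ δ).filter (fun c => e ∈ c.2), |(δ e c.1 : ℝ)| * F c := by
        rw [sum_filter]
        refine sum_congr rfl fun c _ => ?_
        unfold bet
        split_ifs <;> simp
    _ = ∑ i ∈ univ.filter (fun i => δ e i ≠ 0), |(δ e i : ℝ)| * F (i, cl n ρ δ i e) := by
        rw [h1, sum_image]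
        intro a _ b _ h
        exact congrArg Prod.fst h
    _ = _ := by
        rw [sum_filter]
        refine sum_congr rfl fun i _ => ?_
        split_ifs with h
        · rfl
        · simp [not_not.1 h]

theorem sum_nrm (w : Gp R) : (nrm w : ℝ) = ∑ i, |(w i : ℝ)| * (mu R i : ℝ) := by
  unfold nrm
  push_cast
  refine sum_congr rfl fun i _ => ?_
  rw [Nat.cast_natAbs, Int.cast_abs, mul_comm]

theorem sum_mu (i : Fin (ng R)) : (1 : ℝ) ≤ mu R i := by
  unfold mu
  split_ifs <;> norm_num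

theorem sum_swap (hδ : Fm n S δ) (g : Ed → ℝ) (F : Fin (ng R) × Finset Ed → ℝ) :
    ∑ c ∈ Cls n ρ δ, F c * cw n g (bet δ c) =
      (1 / 2) * ∑ e ∈ hes n, g e * ∑ i, |(δ e i : ℝ)| * F (i, cl n ρ δ i e) := by
  have h : ∀ e ∈ hes n, g e * ∑ i, |(δ e i : ℝ)| * F (i, cl n ρ δ i e) =
      ∑ c ∈ Cls n ρ δ, F c * (g e * |(bet δ c e : ℝ)|) := fun e _ => by
    rw [← sum_cls hδ, mul_sum]
    exact sum_congr rfl fun c _ => by ring
  rw [sum_congr rfl h, sum_comm, mul_sum]
  refine sum_congr rfl fun c _ => ?_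
  rw [cw, ← mul_sum]
  ring

/-- a symmetric function of the edges at `S`, summed from the side of `S` -/
theorem sum_half (f : Ed → ℝ) (hf : ∀ e ∈ hes n, f (rev e) = f e)
    (h0 : ∀ e ∈ hes n, e.1 ∉ S → (rev e).1 ∉ S → f e = 0) :
    (1 / 2) * ∑ e ∈ hes n, f e =
      ∑ e ∈ (hes n).filter (fun e => e.1 ∈ S), (if (rev e).1 ∈ S then 1 / 2 else 1) * f e := by
  set w : Ed → ℝ := fun e => if e.1 ∈ S then (if (rev e).1 ∈ S then 1 / 2 else 1) else 0 with hw
  have h1 : ∑ e ∈ hes n, w (rev e) * f e = ∑ e ∈ hes n, w e * f e :=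
    sum_nbij' rev rev (fun e he => rev_mem he) (fun e he => rev_mem he) (fun e _ => rev_rev e)
      (fun e _ => rev_rev e) fun e he => by rw [hf e he]
  have h2 : ∑ e ∈ hes n, f e = ∑ e ∈ hes n, (w e * f e + w (rev e) * f e) := by
    refine sum_congr rfl fun e he => ?_
    simp only [hw, rev_rev]
    by_cases a : e.1 ∈ S <;> by_cases b : (rev e).1 ∈ S
    · simp only [a, b, if_true]; ring
    · simp only [a, b, if_true, if_false]; ring
    · simp only [a, b, if_true, if_false]; ring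
    · simp [h0 e he a b]
  rw [h2, sum_add_distrib, h1, sum_filter]
  have h3 : ∑ e ∈ hes n, (if e.1 ∈ S then (if (rev e).1 ∈ S then 1 / 2 else 1) * f e else 0) =
      ∑ e ∈ hes n, w e * f e := by
    refine sum_congr rfl fun e _ => ?_
    simp only [hw]
    split_ifs <;> simp
  rw [h3]
  ring

/-- used capacity -/
theorem sum_used {k : Ed → ℝ} (hk : Gau n S k) (hδ : Fm n S δ) :
    ∑ c ∈ Cls n ρ δ, (mu R c.1 : ℝ) * cw n k (bet δ c) ≤ Tk n S k δ -
      (((hes n).filter fun e => e.1 ∈ S ∧ (rev e).1 ∈ S ∧ δ e = 0).card : ℝ) / 128 := by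
  rw [sum_swap hδ k fun c => (mu R c.1 : ℝ)]
  simp only [← sum_nrm]
  rw [sum_half (S := S) (fun e => k e * (nrm (δ e) : ℝ))
    (fun e he => by simp only [hk.sym e he, hδ.asy, nrm_neg])
    (fun e _ a b => by
      have : δ e = 0 := hδ.off e fun h => (mem_filter.1 h).2.elim a b
      simp [this, nrm_eq_zero.2])]
  rw [← filter_filter, card_filter, Tk]
  push_cast
  rw [sum_div, ← sum_sub_distrib]
  refine sum_le_sum fun e he => ?_
  obtain ⟨he, a⟩ := mem_filter.1 he
  have hl := hk.low e he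
  by_cases b : (rev e).1 ∈ S
  · rcases hδ.ins e he a b with h | h
    · have : nrm (δ e) = 0 := nrm_eq_zero.2 h
      simp only [b, this, if_true, true_and, if_pos h]
      push_cast
      linarith
    · have h' : ¬ δ e = 0 := fun h0 => by rw [nrm_eq_zero.2 h0] at h; omega
      simp only [b, h, if_true, true_and, if_neg h']
      push_cast
      linarith
  · simp only [b, if_false, false_and]
    linarith

/-- length of the clusters that are not tame -/
theorem sum_wild (k : Ed → ℝ) (hδ : Fm n S δ) :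
    (((hes n).filter fun e => ∃ i, δ e i ≠ 0 ∧ ¬ Tame n k (bt n ρ δ i e)).card : ℝ) / 2 ≤
      ∑ c ∈ Cls n ρ δ, (if Tame n k (bet δ c) then 0 else (mu R c.1 : ℝ)) * len n (bet δ c) := by
  have h1 : ∀ β, len n β = cw n (fun _ => 1) β := fun β => by simp [len, cw]
  simp only [h1]
  rw [sum_swap hδ (fun _ => 1) fun c => if Tame n k (bet δ c) then 0 else (mu R c.1 : ℝ),
    card_filter, one_div, ← div_eq_inv_mul]
  push_cast
  gcongr with e he
  have hp : ∀ i, 0 ≤ |(δ e i : ℝ)| *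
      (if Tame n k (bet δ (i, cl n ρ δ i e)) then 0 else (mu R i : ℝ)) := fun i =>
    mul_nonneg (abs_nonneg _) (by split_ifs <;> positivity)
  rw [one_mul]
  split_ifs with h
  · obtain ⟨i, hi, ht⟩ := h
    refine le_trans ?_ (single_le_sum (fun i _ => hp i) (mem_univ i))
    have h2 : (1 : ℝ) ≤ |(δ e i : ℝ)| := by exact_mod_cast Int.one_le_abs hi
    rw [if_neg (show ¬ Tame n k (bet δ (i, cl n ρ δ i e)) from ht)]
    nlinarith [sum_mu (R := R) i]
  · exact sum_nonneg fun i _ => hp i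

theorem sum_nr (p : P) (d d' : Fin 4) : nr 1 (p - crn (d + 1)) (p - crn (d' + 1)) := by
  fin_cases d <;> fin_cases d' <;> simp [nr, crn]

/-- a cluster that is not closed has an edge at a vortex -/
theorem sum_open (hρ : 1 ≤ ρ) (hδ : Fm n S δ) {c : Fin (ng R) × Finset Ed} (hc : c ∈ Cls n ρ δ)
    (h : ¬ Clo n (bet δ c)) :
    (1 : ℝ) ≤ ∑ p ∈ vort n δ, ∑ d, |(bet δ c (p - crn (d + 1), d) : ℝ)| := by
  obtain ⟨p, hp, h⟩ : ∃ p ∈ inn n, curl (bet δ c) p ≠ 0 := by
    by_contra hh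
    exact h fun p hp => by_contra fun h0 => hh ⟨p, hp, h0⟩
  obtain ⟨d, -, hd⟩ := exists_ne_zero_of_sum_ne_zero h
  have hm : (p - crn (d + 1), d) ∈ c.2 := by
    by_contra hh
    exact hd (if_neg hh)
  obtain ⟨-, h2, h3⟩ := cls_eq hc hm
  have hv : p ∈ vort n δ := by
    refine mem_filter.2 ⟨hp, fun h0 => h ?_⟩
    have h4 : curl δ p c.1 = 0 := by rw [h0]; rfl
    rw [← h4]
    unfold curl
    rw [Finset.sum_apply]
    refine sum_congr rfl fun d' _ => ?_
    by_cases h5 : δ (p - crn (d' + 1), d') c.1 = 0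
    · unfold bet
      rw [h5]
      exact ite_self _
    · refine if_pos ?_
      have hn := sum_nr p d d'
      have h6 : nr ρ (p - crn (d + 1)) (p - crn (d' + 1)) :=
        ⟨hn.1.trans (by exact_mod_cast hρ), hn.2.trans (by exact_mod_cast hρ)⟩
      rw [h3, cl_near h2 h5 h6]
      exact mem_cl_self (sum_hes hδ fun h => h5 (by rw [h]; rfl))
  refine le_trans ?_ (single_le_sum (f := fun p => ∑ d, |(bet δ c (p - crn (d + 1), d) : ℝ)|)
    (fun p _ => sum_nonneg fun d _ => abs_nonneg _) hv)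
  refine le_trans ?_ (single_le_sum (f := fun d => |(bet δ c (p - crn (d + 1), d) : ℝ)|)
    (fun d _ => abs_nonneg _) (mem_univ d))
  exact_mod_cast Int.one_le_abs hd

theorem sum_vort (hδ : Fm n S δ) :
    ∑ c ∈ Cls n ρ δ, (mu R c.1 : ℝ) *
      ∑ p ∈ vort n δ, ∑ d, |(bet δ c (p - crn (d + 1), d) : ℝ)| ≤ 8 * ((vort n δ).card : ℝ) := by
  simp only [mul_sum]
  rw [sum_comm, mul_comm, ← nsmul_eq_mul]
  refine sum_le_card_nsmul _ _ _ fun p _ => ?_
  rw [sum_comm]
  have h : ∀ d : Fin 4, ∑ c ∈ Cls n ρ δ, (mu R c.1 : ℝ) * |(bet δ c (p - crn (d + 1), d) : ℝ)| ≤ 2 :=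
    fun d => by
      simp only [mul_comm ((mu R _ : ℕ) : ℝ)]
      rw [sum_cls hδ _ fun c => (mu R c.1 : ℝ), ← sum_nrm]
      exact_mod_cast hδ.le _
  refine (sum_le_sum fun d _ => h d).trans ?_
  simp
  norm_num

end aux

theorem sum_lem {R n ρ : ℕ} (hn : 10 ≤ n) (hρ : 1 ≤ ρ) {S : Finset P} {k : Ed → ℝ}
    (hk : Gau n S k) (hS : Sol n S) {δ : Form R} (hδ : Fm n S δ) :
    expo n ρ δ ≤ Tk n S k δ - ((Ls n ρ S k δ).card : ℝ) / 128 + 8 * ((vort n δ).card : ℝ) := by
  have h1 := sum_used (ρ := ρ) hk hδ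
  have h2 := sum_wild (ρ := ρ) k hδ
  have h3 := sum_vort (ρ := ρ) hδ
  have h4 : ((Ls n ρ S k δ).card : ℝ) ≤
      (((hes n).filter fun e => e.1 ∈ S ∧ (rev e).1 ∈ S ∧ δ e = 0).card : ℝ) +
      (((hes n).filter fun e => ∃ i, δ e i ≠ 0 ∧ ¬ Tame n k (bt n ρ δ i e)).card : ℝ) := by
    rw [← Nat.cast_add, Nat.cast_le]
    refine le_trans (card_le_card fun e he => ?_) (card_union_le _ _)
    obtain ⟨he, a, h | h⟩ := mem_filter.1 he
    · exact mem_union_left _ (mem_filter.2 ⟨he, a, h⟩)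
    · exact mem_union_right _ (mem_filter.2 ⟨he, h⟩)
  have h5 : expo n ρ δ ≤ ∑ c ∈ Cls n ρ δ, ((mu R c.1 : ℝ) * cw n k (bet δ c) -
      (if Tame n k (bet δ c) then 0 else (mu R c.1 : ℝ)) * len n (bet δ c) / 64 +
      (mu R c.1 : ℝ) * ∑ p ∈ vort n δ, ∑ d, |(bet δ c (p - crn (d + 1), d) : ℝ)|) := by
    refine sum_le_sum fun c hc => ?_
    obtain ⟨ha, h0, hs⟩ := asy_bet hρ hδ hc
    have hm := sum_mu (R := R) c.1
    have hV : (0 : ℝ) ≤ ∑ p ∈ vort n δ, ∑ d, |(bet δ c (p - crn (d + 1), d) : ℝ)| :=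
      sum_nonneg fun p _ => sum_nonneg fun d _ => abs_nonneg _
    by_cases hc' : Clo n (bet δ c)
    · obtain ⟨a, b⟩ := cap_lem hn hk hS ha hc' h0 hs
      split_ifs with ht
      · nlinarith
      · have := b ht
        nlinarith
    · have hV' := sum_open hρ hδ hc hc'
      have hl : 0 ≤ len n (bet δ c) :=
        mul_nonneg (by norm_num) (sum_nonneg fun e _ => abs_nonneg _)
      have hc2 : len n (bet δ c) / 64 ≤ cw n k (bet δ c) := by
        unfold len cw
        rw [mul_div_assoc, sum_div]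
        gcongr with e he
        have := hk.low e he
        nlinarith [abs_nonneg ((bet δ c e : ℤ) : ℝ)]
      split_ifs with ht
      · nlinarith
      · nlinarith
  rw [sum_add_distrib, sum_sub_distrib, ← sum_div] at h5
  linarith

end Pool.Agent.Lib.MP_9cc147_pr.Cx.Pe
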