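import Pool.Agent.Lib.MP_9cc147_pr.Cx.Pe.Cnt
import Pool.Agent.Lib.MP_9cc147_pr.Cx.Pe.Sum
import Pool.Agent.Lib.MP_9cc147_pr.Cx.Pe.Gau
import Pool.Agent.Lib.MP_9cc147_pr.Cx.Pe.Pur
import Pool.Agent.Lib.MP_9cc147_pr.Cx.Pe.Crs

/-! The Peierls bound. -/

open scoped Classical
open Finset

noncomputable section
namespace Pool.Agent.Lib.MP_9cc147_pr.Cx
namespace Pe

def ball (k : ℕ) (a : P) : Finset P := Icc (a.1 - k) (a.1 + k) ×ˢ Icc (a.2 - k) (a.2 + k)

theorem mem_ball {k : ℕ} {a b : P} (h : nr k a b) : b ∈ ball k a := by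
  obtain ⟨h1, h2⟩ := h
  rw [abs_le] at h1 h2
  simp only [ball, mem_product, mem_Icc]
  omega

theorem card_ball (k : ℕ) (a : P) : (ball k a).card = (2 * k + 1) ^ 2 := by
  have h : ∀ b : ℤ, (b + k + 1 - (b - k)).toNat = 2 * k + 1 := fun b => by omega
  simp [ball, card_product, h, sq]

theorem main_cov {R L m : ℕ} (hL : 20 ≤ L) {X : Finset P} (hX : X ⊆ box m)
    {k : Ed → ℝ} (hk : Gau (L * m) (under L X) k) {ω : Om} {σ : P → Option Lab} {δ : Form R}
    (hδ : δ ∈ adm R (L * m) L m ω X σ) :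
    (X.card : ℝ) ≤ 9 * (hvy (L * m) L ω X).card + 25 * (Ls (L * m) L (under L X) k δ).card := by
  have h1 : X ⊆ (hvy (L * m) L ω X).biUnion (ball 1) ∪
      (Ls (L * m) L (under L X) k δ).biUnion fun e => ball 2 (par L e.1) := by
    intro T hT
    rcases pur_lem hL le_rfl hX hk hδ hT with ⟨T', h, h'⟩ | ⟨e, h, h'⟩
    · exact mem_union_left _ (mem_biUnion.2 ⟨T', h, mem_ball h'⟩)
    · exact mem_union_right _ (mem_biUnion.2 ⟨e, h, mem_ball h'⟩)
  have h2 := (card_le_card h1).trans (card_union_le _ _)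
  have h3 := card_biUnion_le (s := hvy (L * m) L ω X) (t := ball 1)
  have h4 := card_biUnion_le (s := Ls (L * m) L (under L X) k δ)
    (t := fun e => ball 2 (par L e.1))
  simp only [card_ball, sum_const, smul_eq_mul] at h3 h4
  have h5 : X.card ≤ 9 * (hvy (L * m) L ω X).card + 25 * (Ls (L * m) L (under L X) k δ).card := by
    omega
  exact_mod_cast h5

theorem main_sum {R n ρ : ℕ} (hR : 1 ≤ R) {S : Finset P} {Λ E : ℝ} {A : Finset (Form R)}
    (hA : A ⊆ forms R n S) (h : ∑ δ ∈ forms R n S, (2 * R : ℝ) ^ (-expo n ρ δ) ≤ Λ)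
    (v : Form R → ℝ) (hv : ∀ δ ∈ A, expo n ρ δ + v δ ≤ E) :
    ∑ δ ∈ A, (2 * R : ℝ) ^ v δ ≤ Λ * (2 * R : ℝ) ^ E := by
  have h1 : (1 : ℝ) ≤ 2 * R := by
    have : (1 : ℝ) ≤ R := by exact_mod_cast hR
    linarith
  have h0 : (0 : ℝ) < 2 * R := by linarith
  calc _ ≤ ∑ δ ∈ A, (2 * R : ℝ) ^ (-expo n ρ δ) * (2 * R : ℝ) ^ E := by
        refine sum_le_sum fun δ hδ => ?_
        rw [← Real.rpow_add h0]
        exact Real.rpow_le_rpow_of_exponent_le h1 (by linarith [hv δ hδ])
    _ ≤ _ := by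
        rw [← sum_mul]
        refine mul_le_mul_of_nonneg_right (le_trans ?_ h) (Real.rpow_nonneg h0.le _)
        exact sum_le_sum_of_subset_of_nonneg hA fun _ _ _ => Real.rpow_nonneg h0.le _

theorem main_all {m : ℕ} {X : Finset P} (hX : Pm m X) (hb : ¬ (bdry (box m) X).Nonempty) :
    X.card = m ^ 2 := by
  have h1 : ∀ e ∈ hes m, e.1 ∈ X → (rev e).1 ∈ X := fun e he h => by
    by_contra hn
    exact hb ⟨_, mem_sdiff.2 ⟨mem_filter.2 ⟨(mem_hes.1 he).2, _, h, nr_rev e⟩, hn⟩⟩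
  have h2 := box_const (n := m) (f := fun x => x ∈ X) fun e he =>
    propext ⟨fun h => by simpa [rev_rev] using h1 _ (rev_mem he) h, h1 e he⟩
  obtain ⟨a, ha⟩ := hX.2.1
  have h3 : X = box m := Subset.antisymm hX.1 fun x hx => by
    have := h2 x hx
    have h4 := h2 a (hX.1 ha)
    exact this.mpr (h4.mp ha)
  rw [h3]
  simp [box, card_product, sq]

theorem main_sub {L m : ℕ} (hL : 1 ≤ L) {X : Finset P} (hX : X ⊆ box m) :
    under L X ⊆ box (L * m) := fun _ hx => (par_box hL).2 (hX ((mem_under hL).1 hx))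

/-- the gauged capacities with the sinks in a tile outside `X` -/
theorem main_gau {L m : ℕ} (hL : 20 ≤ L) {X : Finset P} (hX : X ⊆ box m) {T : P}
    (hT : T ∈ box m) (hn : T ∉ X) : ∃ k : Ed → ℝ, Gau (L * m) (under L X) k ∧
      ∀ x ∈ under L X, st (L * m) k x = 1 := by
  obtain ⟨k, hk⟩ := gau_ex hL hT
  have h1 : 1 ≤ L := by omega
  refine ⟨k, hk _ (main_sub h1 hX) (disjoint_left.2 fun x hx hx' => hn ?_)⟩
  rw [← (mem_cell h1).1 hx']
  exact (mem_under h1).1 hx

end Pe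
open Pe

theorem t_pei : S_pei := by
  filter_upwards [Filter.eventually_ge_atTop 2000] with L hL
  obtain ⟨Λ, hΛ, hc⟩ := cnt L
  have hL1 : 1 ≤ L := by omega
  refine ⟨Λ ^ (8 * L ^ 2), one_le_pow₀ hΛ, fun R m hR hm => ?_⟩
  have hm2 : 4000000 ≤ m := by nlinarith
  have hn : 10 ≤ L * m := by nlinarith
  have hc' : ∀ X : Finset P, ∑ δ ∈ forms R (L * m) (under L X),
      (2 * R : ℝ) ^ (-expo (L * m) L δ) ≤ (Λ ^ (8 * L ^ 2)) ^ X.card := fun X => by
    rw [← pow_mul]
    exact (hc R _ _ hR).trans (pow_le_pow_right₀ hΛ (card_he hL1 _ X))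
  refine ⟨fun ω X σ hX => ⟨fun s hb hσ => ?_, fun hN hLc => ?_⟩, fun s T hT => ?_⟩
  · refine main_sum hR (filter_subset _ _) (hc' X) _ fun δ hδ => ?_
    obtain ⟨T, hT⟩ := hb
    obtain ⟨k, hk, h1⟩ := main_gau (L := L) (by omega) hX.1 (mem_filter.1 (mem_sdiff.1 hT).1).1
      (mem_sdiff.1 hT).2
    have h2 := adm_crs (by omega) hX.1 hδ
    have h3 : ∀ e ∈ crs (L * m) (under L X), σ (par L (rev e).1) = some s := fun e he => by
      rw [hσ]; exact if_pos (h2 e he).1
    have h4 := tot_neu (main_sub hL1 hX.1) hk.sym h1 (δ := δ) (s := s) fun e he => by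
      obtain ⟨s', h5, h6⟩ := (h2 e he).2
      rw [h3 e he] at h5
      cases h5
      exact h6
    have h5 := nexp_neu (by omega) hX.1 h3
    have h6 := sum_lem hn hL1 hk (sol_under (by omega) X) (fm_of_forms (mem_filter.1 hδ).1)
    have h7 := main_cov (by omega) hX.1 hk hδ
    have p1 : (0 : ℝ) ≤ (hvy (L * m) L ω X).card := Nat.cast_nonneg _
    have p2 : (0 : ℝ) ≤ (Ls (L * m) L (under L X) k δ).card := Nat.cast_nonneg _
    have p3 : (0 : ℝ) ≤ (vort (L * m) δ).card := Nat.cast_nonneg _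
    linarith
  · refine main_sum hR (filter_subset _ _) (hc' X) _ fun δ hδ => ?_
    have hk := (gau_zero hn (main_sub hL1 hX.1)).1
    have h4 := tot_gen (by omega) hX.1 fun e he => (adm_crs (by omega) hX.1 hδ e he).2
    have h6 := sum_lem hn hL1 hk (sol_under (by omega) X) (fm_of_forms (mem_filter.1 hδ).1)
    have h7 := main_cov (by omega) hX.1 hk hδ
    have p1 : (0 : ℝ) ≤ (hvy (L * m) L ω X).card := Nat.cast_nonneg _
    have p2 : (0 : ℝ) ≤ (Ls (L * m) L (under L X) (k0 (L * m)) δ).card := Nat.cast_nonneg _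
    have p3 : (0 : ℝ) ≤ (vort (L * m) δ).card := Nat.cast_nonneg _
    by_cases hb : (bdry (box m) X).Nonempty
    · have h8 := crs_lem (ρ := L) (by omega) hL1 hX hδ hb hN hLc
      have h9 : (1992 : ℝ) ≤ (Ls (L * m) L (under L X) (k0 (L * m)) δ).card := by
        exact_mod_cast (by omega : 1992 ≤ (Ls (L * m) L (under L X) (k0 (L * m)) δ).card)
      linarith
    · have h8 : 100000000 ≤ X.card := by rw [main_all hX hb]; nlinarith
      have h9 : (100000000 : ℝ) ≤ X.card := by exact_mod_cast h8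
      linarith
  · have hu : under L {T} = cell L T := by simp [under]
    have hX : ({T} : Finset P) ⊆ box m := by simpa using hT
    obtain ⟨T', hT', hne⟩ : ∃ T' ∈ box m, T' ∉ ({T} : Finset P) := by
      by_cases h : T = 0
      · exact ⟨(1, 0), by rw [mem_box]; simp only; omega, by simp [h, Prod.ext_iff]⟩
      · exact ⟨0, by rw [mem_box]; simp only [Prod.fst_zero, Prod.snd_zero]; omega,
          by simpa using Ne.symm h⟩
    obtain ⟨k, hk, h1⟩ := main_gau (L := L) (by omega) hX hT' hne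
    have h0 := hc' {T}
    have h5 := nexp_neu (L := L) (σ := fun _ => some s) (s := s) (by omega) hX fun _ _ => rfl
    have hS := sol_under (L := L) (m := m) (by omega) {T}
    have hB := main_sub hL1 hX
    rw [hu] at h0 h5 hk h1 hS hB
    have h2 := main_sum hR (A := pur R (L * m) L 0 s T) (filter_subset _ _) h0 (fun _ => 0)
      (E := nexp (L * m) L {T} (fun _ => some s) + cor (L * m) (cell L T) s) fun δ hδ => by
        obtain ⟨h3, h4⟩ := pur_crs (by omega) hT hδ
        have h6 := sum_lem hn hL1 hk hS (fm_of_forms (mem_filter.1 hδ).1)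
        have h7 := tot_neu hB hk.sym h1 h4
        have p2 : (0 : ℝ) ≤ (Ls (L * m) L (cell L T) k δ).card := Nat.cast_nonneg _
        rw [h3] at h6
        simp only [card_empty, Nat.cast_zero] at h6
        linarith
    simpa using h2

end Pool.Agent.Lib.MP_9cc147_pr.Cx
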